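import Pool.Agent.Work.MP_a8fbd7_nt.OX.FIN.Diag
import Pool.Agent.Work.MP_a8fbd7_nt.OX.ID.RoughSieve

/-!
MP_a8fbd7_nt, block OX, part CW: a Brun-Titchmarsh type bound for the numbers of primes in the two halves.
Author: helper82.
-/

set_option autoImplicit false

noncomputable section

namespace Pool.Agent.Work.MP_a8fbd7_nt.OX.CW

open Pool.Agent.Work.MP_a8fbd7_nt.OX.FIN (cA cB)
open Pool.Agent.Work.MP_a8fbd7_nt.OX.ID (ZRough rough_count_real)

namespace BTaux

/-- the primes in an interval of length `n` beyond `n` -/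
theorem core {n : ℕ} (hn : 256 ≤ n) (S : Finset ℕ) (x : ℝ) (hx : 0 ≤ x)
    (hS : ∀ p ∈ S, x < p ∧ (p : ℝ) ≤ x + (n + 1 / 2) ∧ p.Prime ∧ n ≤ p) :
    (S.card : ℝ) ≤ 48 * ((n : ℝ) / (2 * Real.log n)) := by
  set s := Nat.sqrt n with hs
  set z := Nat.sqrt s with hz
  have h1 : s * s ≤ n := Nat.sqrt_le n
  have h2 : n < (s + 1) * (s + 1) := Nat.lt_succ_sqrt n
  have h3 : z * z ≤ s := Nat.sqrt_le s
  have h4 : s < (z + 1) * (z + 1) := Nat.lt_succ_sqrt s
  have hz4 : z ^ 4 ≤ n := by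
    calc z ^ 4 = (z * z) * (z * z) := by ring
      _ ≤ s * s := Nat.mul_le_mul h3 h3
      _ ≤ n := h1
  have hn4 : n < (z + 1) ^ 4 := by
    calc n < (s + 1) * (s + 1) := h2
      _ ≤ ((z + 1) * (z + 1)) * ((z + 1) * (z + 1)) := Nat.mul_le_mul h4 h4
      _ = (z + 1) ^ 4 := by ring
  have hz2 : 2 ≤ z := by
    by_contra h
    have : z + 1 ≤ 2 := by omega
    have : (z + 1) ^ 4 ≤ 2 ^ 4 := Nat.pow_le_pow_left this 4
    omega
  have hn8 : n < z ^ 8 := by
    calc n < (z + 1) ^ 4 := hn4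
      _ ≤ (z ^ 2) ^ 4 := Nat.pow_le_pow_left (by nlinarith) 4
      _ = z ^ 8 := by ring
  have hzn : z < n := by
    calc z = z ^ 1 := (pow_one z).symm
      _ < z ^ 4 := Nat.pow_lt_pow_right (by omega) (by norm_num)
      _ ≤ n := hz4
  have key := rough_count_real z x (n + 1 / 2) hz2 hx (by positivity) S (fun p hp => by
    obtain ⟨a1, a2, a3, a4⟩ := hS p hp
    refine ⟨a1, a2, fun q hq hqz hqp => ?_⟩
    have := (Nat.prime_dvd_prime_iff_eq hq a3).1 hqp
    omega)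
  have hn0 : (0 : ℝ) < n := by exact_mod_cast (by omega : 0 < n)
  have hln : 0 < Real.log n := Real.log_pos (by exact_mod_cast (by omega : 1 < n))
  have hlz : 0 < Real.log z := Real.log_pos (by exact_mod_cast (by omega : 1 < z))
  have h8 : Real.log n ≤ 8 * Real.log z := by
    calc Real.log n ≤ Real.log ((z : ℝ) ^ 8) := Real.log_le_log hn0 (by exact_mod_cast hn8.le)
      _ = 8 * Real.log z := by rw [Real.log_pow]; norm_num
  have hz0 : (0 : ℝ) < z := by exact_mod_cast (by omega : 0 < z)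
  have hzl : Real.log z ≤ z := (Real.log_le_sub_one_of_pos hz0).trans (by linarith)
  have b1 : ((n : ℝ) + 1 / 2 + 1) / Real.log z ≤ 16 * (n / Real.log n) := by
    rw [div_le_iff₀ hlz]
    have e1 : 16 * ((n : ℝ) / Real.log n) * Real.log z = 2 * n * (8 * Real.log z / Real.log n) := by ring
    rw [e1]
    have e2 : 1 ≤ 8 * Real.log z / Real.log n := by rw [le_div_iff₀ hln]; linarith
    have e3 : (256 : ℝ) ≤ n := by exact_mod_cast hn
    nlinarith
  have b2 : (z : ℝ) ^ 2 ≤ 8 * (n / Real.log n) := by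
    rw [mul_div_assoc', le_div_iff₀ hln]
    have e1 : (z : ℝ) ^ 4 ≤ n := by exact_mod_cast hz4
    have e2 : (1 : ℝ) ≤ z := by exact_mod_cast (by omega : 1 ≤ z)
    calc (z : ℝ) ^ 2 * Real.log n ≤ (z : ℝ) ^ 2 * (8 * z) := by
          gcongr
          linarith
      _ = 8 * ((z : ℝ) ^ 3 * 1) := by ring
      _ ≤ 8 * ((z : ℝ) ^ 3 * z) := by gcongr
      _ = 8 * (z : ℝ) ^ 4 := by ring
      _ ≤ 8 * (n : ℝ) := by linarith
  have e : 48 * ((n : ℝ) / (2 * Real.log n)) = 16 * (n / Real.log n) + 8 * (n / Real.log n) := by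
    field_simp
    norm_num
  rw [e]
  linarith

/-- small `n` -/
theorem small {n : ℕ} (h2 : 2 ≤ n) (hn : n < 256) {c : ℝ} (hc : c ≤ n + 1) :
    c ≤ 48 * ((n : ℝ) / (2 * Real.log n)) := by
  have hn0 : (0 : ℝ) < n := by exact_mod_cast (by omega : 0 < n)
  have hln : 0 < Real.log n := Real.log_pos (by exact_mod_cast (by omega : 1 < n))
  have h1 : Real.log n ≤ 8 := by
    calc Real.log n ≤ Real.log ((2 : ℝ) ^ 8) := Real.log_le_log hn0 (by norm_num; exact_mod_cast hn.le)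
      _ = 8 * Real.log 2 := by rw [Real.log_pow]; norm_num
      _ ≤ 8 := by linarith [Real.log_two_lt_d9]
  have h3 : (2 : ℝ) ≤ n := by exact_mod_cast h2
  have h4 : 2 * (n : ℝ) ≤ 48 * (n / (2 * Real.log n)) := by
    rw [mul_div_assoc', le_div_iff₀ (by positivity)]
    nlinarith
  linarith

theorem bA {n : ℕ} (h2 : 2 ≤ n) : cA n ≤ 48 * ((n : ℝ) / (2 * Real.log n)) := by
  by_cases hn : n < 256
  · refine small h2 hn ?_
    unfold cA
    calc _ ≤ ((Finset.Icc (n ^ 2 - n) (n ^ 2)).card : ℝ) := by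
          exact_mod_cast Finset.card_le_card (Finset.filter_subset _ _)
      _ ≤ ((n + 1 : ℕ) : ℝ) := by
          rw [Nat.card_Icc]
          have : n ≤ n ^ 2 := Nat.le_self_pow (by norm_num) n
          exact_mod_cast (by omega : n ^ 2 + 1 - (n ^ 2 - n) ≤ n + 1)
      _ = n + 1 := by push_cast; ring
  · push Not at hn
    have h0 : 2 * n ≤ n ^ 2 := by nlinarith
    refine core hn _ ((n : ℝ) ^ 2 - n - 1 / 2) ?_ fun p hp => ?_
    · have : (256 : ℝ) ≤ n := by exact_mod_cast hn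
      nlinarith
    · rw [Finset.mem_filter, Finset.mem_Icc] at hp
      obtain ⟨⟨a1, a2⟩, a3⟩ := hp
      have a1' : n ^ 2 ≤ p + n := by omega
      have b1 : (n : ℝ) ^ 2 ≤ p + n := by exact_mod_cast a1'
      have b2 : (p : ℝ) ≤ (n : ℝ) ^ 2 := by exact_mod_cast a2
      exact ⟨by linarith, by linarith, a3, by omega⟩

theorem bB {n : ℕ} (h2 : 2 ≤ n) : cB n ≤ 48 * ((n : ℝ) / (2 * Real.log n)) := by
  by_cases hn : n < 256
  · refine small h2 hn ?_
    unfold cB
    calc _ ≤ ((Finset.Icc (n ^ 2) (n ^ 2 + n)).card : ℝ) := by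
          exact_mod_cast Finset.card_le_card (Finset.filter_subset _ _)
      _ ≤ ((n + 1 : ℕ) : ℝ) := by
          rw [Nat.card_Icc]
          exact_mod_cast (by omega : n ^ 2 + n + 1 - n ^ 2 ≤ n + 1)
      _ = n + 1 := by push_cast; ring
  · push Not at hn
    have h0 : 2 * n ≤ n ^ 2 := by nlinarith
    refine core hn _ ((n : ℝ) ^ 2 - 1 / 2) ?_ fun p hp => ?_
    · have : (256 : ℝ) ≤ n := by exact_mod_cast hn
      nlinarith
    · rw [Finset.mem_filter, Finset.mem_Icc] at hp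
      obtain ⟨⟨a1, a2⟩, a3⟩ := hp
      have b1 : (n : ℝ) ^ 2 ≤ p := by exact_mod_cast a1
      have b2 : (p : ℝ) ≤ (n : ℝ) ^ 2 + n := by exact_mod_cast a2
      exact ⟨by linarith, by linarith, a3, by omega⟩

end BTaux

end Pool.Agent.Work.MP_a8fbd7_nt.OX.CW
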