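import Mathlib
import Pool.Agent.Work.MP_a8fbd7_nt.OX.ASM.I_Rg
import Pool.Agent.Work.MP_a8fbd7_nt.OX.ASM.I_V1

/-!
MP_a8fbd7_nt, block OX, part CW: the slots of a box as one family.
Author: helper86.
-/

set_option autoImplicit false

open MeasureTheory Set Filter Topology

noncomputable section

namespace Pool.Agent.Work.MP_a8fbd7_nt.OX.CW

open Pool.Agent.Work.MP_56b8f5_nt.UC (IsWt Bl Dp Om psi eta Sep)
open Pool.Agent.Work.MP_a8fbd7_nt.OX
open Pool.Agent.Work.MP_a8fbd7_nt.OX.ASM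
open Pool.Agent.Work.MP_a8fbd7_nt.OX.ASM.Rg_aux
open Pool.Agent.Work.MP_a8fbd7_nt.OX.ID (Rough roughOne pb rg)

/-- scales of the slots -/
def so {S : ℕ} (u : Fin 3 → Option ℕ) (v : Fin S → Option ℕ) : Fin 3 ⊕ Fin S → Option ℕ := Sum.elim u v

/-- slot functions of `BFA` -/
def sfA {S : ℕ} (y z : ℕ) (T κ : ℝ) (lw : Fin 3 → ℕ → ℝ) (u : Fin 3 → Option ℕ) (v : Fin S → Option ℕ) :
    Fin 3 ⊕ Fin S → ArithmeticFunction ℝ :=
  Sum.elim (fun i => msA y T κ (lw i) (u i)) (fun r => ps y z (v r))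

theorem BFA_prod {S : ℕ} (y z : ℕ) (T κ : ℝ) (lw : Fin 3 → ℕ → ℝ) (u : Fin 3 → Option ℕ) (v : Fin S → Option ℕ) :
    BFA y z T κ lw u v = ∏ i, sfA y z T κ lw u v i := by
  unfold BFA sfA
  rw [Fintype.prod_sum_type]
  rfl

theorem PS_prod {S : ℕ} (u : Fin 3 → Option ℕ) (v : Fin S → Option ℕ) : PS u v = ∏ i, sc (so u v i) := by
  unfold PS so
  rw [Fintype.prod_sum_type]
  rfl

theorem sfA_supp {S : ℕ} (y z : ℕ) (T κ : ℝ) (lw : Fin 3 → ℕ → ℝ) (u : Fin 3 → Option ℕ) (v : Fin S → Option ℕ)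
    (i : Fin 3 ⊕ Fin S) (n : ℕ) (h : sfA y z T κ lw u v i n ≠ 0) : sc (so u v i) / 2 ≤ n ∧ n ≤ Yn (so u v i) := by
  rcases i with i | i
  · exact msA_supp y T κ (lw i) (u i) n h
  · exact ps_supp y z (v i) n h

theorem sc_one_le (o : Option ℕ) : 1 ≤ sc o := by
  cases o with
  | none => exact le_rfl
  | some l =>
    show (1 : ℝ) ≤ 2 ^ l
    exact one_le_pow₀ (by norm_num)

/-- the sum over an unused slot -/
theorem dp_one (t : ℝ) : Dp 2 (fun n => (((1 : ArithmeticFunction ℝ) n : ℝ) : ℂ)) t = 1 := by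
  unfold Dp
  rw [Finset.sum_eq_single 1]
  · simp
  · intro n _ hn
    show (((1 : ArithmeticFunction ℝ) n : ℝ) : ℂ) * _ = 0
    rw [ArithmeticFunction.one_apply_ne hn]
    simp
  · intro h
    simp at h

theorem psi_le_one (x : ℝ) : psi x ≤ 1 := by
  unfold psi
  have h1 : eta x ≤ 1 := Real.smoothTransition.le_one _
  have h2 : 0 ≤ eta (2 * x) := Real.smoothTransition.nonneg _
  linarith

theorem psi_nonneg {x : ℝ} (hx : 0 ≤ x) : 0 ≤ psi x := V1_aux.psi_nn hx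

theorem rb_abs (y l n : ℕ) : |rb y l n| ≤ 1 := by
  have h : rb y l n = roughOne y n * psi ((n : ℝ) / 2 ^ l) := rfl
  rw [h, Pool.Agent.Work.MP_a8fbd7_nt.OX.ID.roughOne_apply]
  have h1 : 0 ≤ psi ((n : ℝ) / 2 ^ l) := psi_nonneg (by positivity)
  have h2 : psi ((n : ℝ) / 2 ^ l) ≤ 1 := psi_le_one _
  split_ifs
  · rw [one_mul, abs_of_nonneg h1]; exact h2
  · simp

theorem pbl_abs (y z l n : ℕ) : |pbl y z l n| ≤ 1 := by
  have h : pbl y z l n = pb y z n * psi ((n : ℝ) / 2 ^ l) := rfl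
  rw [h, Pool.Agent.Work.MP_a8fbd7_nt.OX.ID.pb_apply]
  have h1 : 0 ≤ psi ((n : ℝ) / 2 ^ l) := psi_nonneg (by positivity)
  have h2 : psi ((n : ℝ) / 2 ^ l) ≤ 1 := psi_le_one _
  split_ifs
  · rw [one_mul, abs_of_nonneg h1]; exact h2
  · simp

/-- a slot function which is not long is a block -/
theorem sfA_abs {S : ℕ} (y z : ℕ) (T κ : ℝ) (lw : Fin 3 → ℕ → ℝ) (u : Fin 3 → Option ℕ) (v : Fin S → Option ℕ)
    (i : Fin 3 ⊕ Fin S) (h : ∀ j, i = Sum.inl j → ¬ Lg T κ (u j)) (n : ℕ) : |sfA y z T κ lw u v i n| ≤ 1 := by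
  have hone : ∀ n : ℕ, |(1 : ArithmeticFunction ℝ) n| ≤ 1 := by
    intro n
    rw [ArithmeticFunction.one_apply]
    split_ifs <;> simp
  rcases i with i | i
  · have h1 := h i rfl
    show |msA y T κ (lw i) (u i) n| ≤ 1
    rcases hu : u i with _ | l
    · exact hone n
    · simp only [msA]
      rw [if_neg]
      · exact rb_abs y l n
      · intro h2
        exact h1 ⟨l, hu, h2⟩
  · show |ps y z (v i) n| ≤ 1
    rcases hv : v i with _ | l
    · exact hone n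
    · exact pbl_abs y z l n

theorem isBlk_slot {S : ℕ} (y z : ℕ) (T κ : ℝ) (lw : Fin 3 → ℕ → ℝ) (u : Fin 3 → Option ℕ) (v : Fin S → Option ℕ)
    (i : Fin 3 ⊕ Fin S) (h : ∀ j, i = Sum.inl j → ¬ Lg T κ (u j)) :
    IsBlk (fun n => ((sfA y z T κ lw u v i n : ℝ) : ℂ)) (sc (so u v i)) := by
  constructor
  · intro n
    rw [Complex.norm_real, Real.norm_eq_abs]
    exact sfA_abs y z T κ lw u v i h n
  · intro n hn
    have h1 : sfA y z T κ lw u v i n ≠ 0 := by
      intro h2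
      apply hn
      simp [h2]
    obtain ⟨h3, h4⟩ := sfA_supp y z T κ lw u v i n h1
    refine ⟨h3, ?_⟩
    have h5 := Yn_cast (so u v i)
    have h6 : (n : ℝ) ≤ (Yn (so u v i) : ℕ) := by exact_mod_cast h4
    linarith

theorem Yn_floor (o : Option ℕ) : ⌊2 * sc o⌋₊ = Yn o := by
  rw [← Yn_cast, Nat.floor_natCast]

/-- the Dirichlet polynomial of a slot is a `PB` -/
theorem dp_slot (f : ℕ → ℂ) (o : Option ℕ) (t : ℝ) : Dp (Yn o) f t = PB f (sc o) t := by
  unfold PB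
  rw [Yn_floor]

/-- lower bound for the scale of a nonzero slot -/
theorem scale_lower {y l n : ℕ} (hn : y < n) (hp : psi ((n : ℝ) / 2 ^ l) ≠ 0) : (y : ℝ) + 1 ≤ 2 * 2 ^ l := by
  have h1 := (psi_supp2 l n hp).2
  have h2 : y + 1 ≤ 2 * 2 ^ l := by
    have : n ≤ 2 * 2 ^ l := h1
    omega
  exact_mod_cast h2

theorem rough_gt {y n : ℕ} (hn : 2 ≤ n) (h : Rough y n) : y < n := by
  obtain ⟨p, hp, hpn⟩ := Nat.exists_prime_and_dvd (show n ≠ 1 by omega)
  have h1 := h p hp hpn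
  have h2 := Nat.le_of_dvd (by omega) hpn
  omega

/-- a used slot of a nonzero box that is not long has scale at least `T^η/2`; prime slots have scale at most `2z` -/
theorem slot_scales {S : ℕ} (η : ℝ) (z : ℕ) (T κ : ℝ) (lw : Fin 3 → ℕ → ℝ) (u : Fin 3 → Option ℕ) (v : Fin S → Option ℕ)
    (i : Fin 3 ⊕ Fin S) (h : ∀ j, i = Sum.inl j → ¬ Lg T κ (u j)) (hne : sfA (zz η T) z T κ lw u v i ≠ 0)
    (hs : so u v i ≠ none) : T ^ η / 2 ≤ sc (so u v i) ∧ ∀ r, i = Sum.inr r → sc (so u v i) ≤ 2 * z := by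
  obtain ⟨n, hn⟩ : ∃ n, sfA (zz η T) z T κ lw u v i n ≠ 0 := by
    by_contra hcon
    push Not at hcon
    exact hne (ArithmeticFunction.ext fun n => by simpa using hcon n)
  have hfl : T ^ η < (zz η T : ℝ) + 1 := by
    unfold zz
    exact Nat.lt_floor_add_one _
  rcases i with i | i
  · have h1 := h i rfl
    refine ⟨?_, fun r hr => by cases hr⟩
    change u i ≠ none at hs
    obtain ⟨l, hl⟩ := Option.ne_none_iff_exists'.mp hs
    have hsc : sc (so u v (Sum.inl i)) = 2 ^ l := by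
      show sc (u i) = 2 ^ l
      rw [hl]; rfl
    rw [hsc]
    have hn2 : rb (zz η T) l n ≠ 0 := by
      have : msA (zz η T) T κ (lw i) (u i) n ≠ 0 := hn
      rw [hl] at this
      simp only [msA] at this
      rwa [if_neg (fun h2 => h1 ⟨l, hl, h2⟩)] at this
    have hr : roughOne (zz η T) n ≠ 0 := left_ne_zero_of_mul hn2
    have hp : psi ((n : ℝ) / 2 ^ l) ≠ 0 := right_ne_zero_of_mul hn2
    rw [Pool.Agent.Work.MP_a8fbd7_nt.OX.ID.roughOne_apply] at hr
    have hrr : 2 ≤ n ∧ Rough (zz η T) n := by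
      by_contra h3
      rw [if_neg h3] at hr
      exact hr rfl
    have := scale_lower (rough_gt hrr.1 hrr.2) hp
    linarith
  · change v i ≠ none at hs
    obtain ⟨l, hl⟩ := Option.ne_none_iff_exists'.mp hs
    have hsc : sc (so u v (Sum.inr i)) = 2 ^ l := by
      show sc (v i) = 2 ^ l
      rw [hl]; rfl
    rw [hsc]
    have hn2 : pbl (zz η T) z l n ≠ 0 := by
      have : ps (zz η T) z (v i) n ≠ 0 := hn
      rwa [hl] at this
    have hr : pb (zz η T) z n ≠ 0 := left_ne_zero_of_mul hn2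
    have hp : psi ((n : ℝ) / 2 ^ l) ≠ 0 := right_ne_zero_of_mul hn2
    rw [Pool.Agent.Work.MP_a8fbd7_nt.OX.ID.pb_apply] at hr
    have hrr : n.Prime ∧ zz η T < n ∧ n ≤ z := by
      by_contra h3
      rw [if_neg h3] at hr
      exact hr rfl
    refine ⟨?_, ?_⟩
    · have := scale_lower hrr.2.1 hp
      linarith
    · intro r _
      have h3 := (psi_supp2 l n hp).1
      have h4 : (n : ℝ) ≤ z := by exact_mod_cast hrr.2.2
      simp only [sc] at h3
      linarith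

end Pool.Agent.Work.MP_a8fbd7_nt.OX.CW
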