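import Mathlib
import Pool.Agent.Work.MP_a8fbd7_nt.OX.Defs

/-!
MP_a8fbd7_nt, block OX, part CW: the exponential sum over the points `n²`, `N < n ≤ N + H`, is a geometric sum.
Author: helper86.
-/

set_option autoImplicit false

open MeasureTheory Set Filter Topology

noncomputable section

namespace Pool.Agent.Work.MP_a8fbd7_nt.OX.CW

open Pool.Agent.Work.MP_a8fbd7_nt.OX

/-- the points `n²`, `N < n ≤ N + H` -/
def Pt (N H : ℕ) : Finset ℝ := (Finset.Ioc N (N + H)).image (fun n : ℕ => (n : ℝ) ^ 2)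

/-- the weight `T²/x` -/
def gC (T : ℝ) : ℝ → ℂ := fun x => if T ^ 2 ≤ x then ((T ^ 2 / x : ℝ) : ℂ) else 0

theorem sq_inj : Function.Injective (fun n : ℕ => (n : ℝ) ^ 2) := by
  intro a b h
  have h1 : (a : ℝ) ^ 2 = (b : ℝ) ^ 2 := h
  have h2 : (a : ℝ) = b := by
    rwa [sq_eq_sq₀ (Nat.cast_nonneg _) (Nat.cast_nonneg _)] at h1
  exact_mod_cast h2

theorem sum_Pt {M : Type*} [AddCommMonoid M] (N H : ℕ) (f : ℝ → M) :
    ∑ x ∈ Pt N H, f x = ∑ n ∈ Finset.Ioc N (N + H), f ((n : ℝ) ^ 2) := by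
  unfold Pt
  rw [Finset.sum_image]
  intro a _ b _ h
  exact sq_inj h

theorem card_Pt (N H : ℕ) : (Pt N H).card = H := by
  unfold Pt
  rw [Finset.card_image_of_injective _ sq_inj, Nat.card_Ioc]
  omega

theorem mem_Pt {N H : ℕ} {x : ℝ} (hx : x ∈ Pt N H) : ∃ n : ℕ, N < n ∧ n ≤ N + H ∧ x = (n : ℝ) ^ 2 := by
  unfold Pt at hx
  obtain ⟨n, hn, rfl⟩ := Finset.mem_image.mp hx
  rw [Finset.mem_Ioc] at hn
  exact ⟨n, hn.1, hn.2, rfl⟩

theorem gC_le (T : ℝ) (hT : 0 < T) (x : ℝ) : ‖gC T x‖ ≤ 1 := by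
  unfold gC
  split_ifs with h
  · have hx : 0 < x := lt_of_lt_of_le (by positivity) h
    rw [Complex.norm_real, Real.norm_of_nonneg (by positivity)]
    rw [div_le_one hx]
    exact h
  · simp

/-- geometric sum -/
theorem geo (H : ℕ) (α : ℝ) :
    ‖∑ j ∈ Finset.Ioc 0 H, Complex.exp (((2 * α * j : ℝ) : ℂ) * Complex.I)‖ * |Real.sin α| ≤ 1 := by
  set z : ℂ := Complex.exp (((2 * α : ℝ) : ℂ) * Complex.I) with hz
  have hzn : ‖z‖ = 1 := by rw [hz, Complex.norm_exp_ofReal_mul_I]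
  have h1 : ∀ j : ℕ, Complex.exp (((2 * α * j : ℝ) : ℂ) * Complex.I) = z ^ j := by
    intro j
    rw [hz, ← Complex.exp_nat_mul]
    congr 1
    push_cast
    ring
  have h2 : ∑ j ∈ Finset.Ioc 0 H, Complex.exp (((2 * α * j : ℝ) : ℂ) * Complex.I) = ∑ j ∈ Finset.Ioc 0 H, z ^ j :=
    Finset.sum_congr rfl fun j _ => h1 j
  rw [h2]
  have h3 : (∑ j ∈ Finset.Ioc 0 H, z ^ j) * (z - 1) = z * (z ^ H - 1) := by
    have h4 : Finset.Ioc 0 H = (Finset.range (H + 1)).erase 0 := by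
      ext j
      simp only [Finset.mem_Ioc, Finset.mem_erase, Finset.mem_range]
      omega
    have h5 : ∑ j ∈ Finset.Ioc 0 H, z ^ j = (∑ j ∈ Finset.range (H + 1), z ^ j) - 1 := by
      rw [h4, ← Finset.add_sum_erase (Finset.range (H + 1)) (fun j => z ^ j) (Finset.mem_range.mpr (Nat.succ_pos H))]
      simp
    rw [h5, sub_mul, geom_sum_mul]
    ring
  have h6 : ‖z - 1‖ = 2 * |Real.sin α| := by
    have h7 : z - 1 = Complex.exp ((α : ℂ) * Complex.I) * (2 * Complex.I * (Real.sin α : ℂ)) := by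
      rw [hz]
      have h8 : Complex.exp (((2 * α : ℝ) : ℂ) * Complex.I) = Complex.exp ((α : ℂ) * Complex.I) * Complex.exp ((α : ℂ) * Complex.I) := by
        rw [← Complex.exp_add]
        congr 1
        push_cast
        ring
      have h9 : Complex.exp ((α : ℂ) * Complex.I) * Complex.exp (-((α : ℂ) * Complex.I)) = 1 := by
        rw [← Complex.exp_add]; simp
      rw [h8, Complex.ofReal_sin, Complex.sin, neg_mul]
      have hI : Complex.I * Complex.I = -1 := Complex.I_mul_I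
      set X : ℂ := Complex.exp ((α : ℂ) * Complex.I) with hX
      set Y : ℂ := Complex.exp (-((α : ℂ) * Complex.I)) with hY
      linear_combination (-(X * (Y - X))) * hI + h9
    rw [h7, norm_mul, Complex.norm_exp_ofReal_mul_I, one_mul, norm_mul, norm_mul, Complex.norm_I, Complex.norm_real,
      Real.norm_eq_abs]
    simp
  have h10 : ‖∑ j ∈ Finset.Ioc 0 H, z ^ j‖ * ‖z - 1‖ ≤ 2 := by
    rw [← norm_mul, h3, norm_mul, hzn, one_mul]
    calc ‖z ^ H - 1‖ ≤ ‖z ^ H‖ + ‖(1 : ℂ)‖ := norm_sub_le _ _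
      _ = 2 := by rw [norm_pow, hzn]; norm_num
  rw [h6] at h10
  linarith

/-- `|log(1+u) - u| ≤ u²` -/
theorem log_err (u : ℝ) (hu : 0 ≤ u) : |Real.log (1 + u) - u| ≤ u ^ 2 := by
  have h1 : Real.log (1 + u) ≤ u := by
    have := Real.log_le_sub_one_of_pos (show 0 < 1 + u by linarith)
    linarith
  have h2 : u - u ^ 2 ≤ Real.log (1 + u) := by
    have h3 := Real.one_sub_inv_le_log_of_pos (show 0 < 1 + u by linarith)
    have h4 : u - u ^ 2 ≤ 1 - (1 + u)⁻¹ := by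
      have h5 : 1 - (1 + u)⁻¹ = u / (1 + u) := by field_simp; ring
      rw [h5, le_div_iff₀ (by linarith)]
      nlinarith [pow_nonneg hu 3]
    linarith
  rw [abs_le]
  constructor <;> nlinarith

/-- one term -/
theorem term_err (N j : ℕ) (hN : 1 ≤ N) (t : ℝ) :
    ‖gC N (((N + j : ℕ) : ℝ) ^ 2) * ((((N + j : ℕ) : ℝ) ^ 2 : ℝ) : ℂ) ^ (t * Complex.I) -
      ((((N : ℝ)) ^ 2 : ℝ) : ℂ) ^ (t * Complex.I) * Complex.exp (((2 * (t / N) * j : ℝ) : ℂ) * Complex.I)‖ ≤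
      2 * (j / N : ℝ) + 2 * |t| * (j / N : ℝ) ^ 2 := by
  have hN0 : (0 : ℝ) < N := by exact_mod_cast hN
  have hNj : (0 : ℝ) < ((N + j : ℕ) : ℝ) := by positivity
  set u : ℝ := j / N with hu
  have hu0 : 0 ≤ u := by positivity
  have hNju : ((N + j : ℕ) : ℝ) = N * (1 + u) := by
    rw [hu]; push_cast; field_simp
  -- the powers
  have hpow : ∀ r : ℝ, 0 < r → (((r ^ 2 : ℝ) : ℂ)) ^ (t * Complex.I) = Complex.exp (((2 * t * Real.log r : ℝ) : ℂ) * Complex.I) := by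
    intro r hr
    rw [Complex.cpow_def_of_ne_zero (by exact_mod_cast (by positivity : (r ^ 2 : ℝ) ≠ 0)), ← Complex.ofReal_log (by positivity),
      Real.log_pow]
    congr 1
    push_cast
    ring
  rw [hpow _ hNj, hpow _ hN0]
  set g : ℝ := (N : ℝ) ^ 2 / (((N + j : ℕ) : ℝ)) ^ 2 with hg
  have hgC : gC N (((N + j : ℕ) : ℝ) ^ 2) = (g : ℂ) := by
    unfold gC
    rw [if_pos]
    apply pow_le_pow_left₀ hN0.le
    push_cast
    have : (0 : ℝ) ≤ j := Nat.cast_nonneg j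
    linarith
  rw [hgC]
  set A : ℝ := 2 * t * Real.log (((N + j : ℕ) : ℝ)) with hA
  set B : ℝ := 2 * t * Real.log N + 2 * (t / N) * j with hB
  have hAB : Complex.exp (((2 * t * Real.log N : ℝ) : ℂ) * Complex.I) * Complex.exp (((2 * (t / N) * j : ℝ) : ℂ) * Complex.I) =
      Complex.exp ((B : ℂ) * Complex.I) := by
    rw [← Complex.exp_add]
    congr 1
    rw [hB]
    push_cast
    ring
  rw [hAB]
  have hdiff : A - B = 2 * t * (Real.log (1 + u) - u) := by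
    rw [hA, hB, hNju, Real.log_mul hN0.ne' (by positivity), hu]
    field_simp
    ring
  have h1 : ‖(g : ℂ) * Complex.exp ((A : ℂ) * Complex.I) - Complex.exp ((A : ℂ) * Complex.I)‖ ≤ 2 * u := by
    have : (g : ℂ) * Complex.exp ((A : ℂ) * Complex.I) - Complex.exp ((A : ℂ) * Complex.I) =
        ((g - 1 : ℝ) : ℂ) * Complex.exp ((A : ℂ) * Complex.I) := by push_cast; ring
    rw [this, norm_mul, Complex.norm_exp_ofReal_mul_I, mul_one, Complex.norm_real, Real.norm_eq_abs]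
    have hg1 : g = 1 / (1 + u) ^ 2 := by
      rw [hg, hNju]; field_simp
    have hg2 : g ≤ 1 := by
      rw [hg1, div_le_one (by positivity)]
      nlinarith
    have hg3 : 1 - 2 * u ≤ g := by
      rw [hg1, le_div_iff₀ (by positivity)]
      nlinarith [pow_nonneg hu0 3]
    rw [abs_le]
    constructor <;> linarith
  have h2 : ‖Complex.exp ((A : ℂ) * Complex.I) - Complex.exp ((B : ℂ) * Complex.I)‖ ≤ 2 * |t| * u ^ 2 := by
    have h3 : Complex.exp ((A : ℂ) * Complex.I) - Complex.exp ((B : ℂ) * Complex.I) =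
        Complex.exp ((B : ℂ) * Complex.I) * (Complex.exp ((((A - B : ℝ)) : ℂ) * Complex.I) - 1) := by
      rw [mul_sub, ← Complex.exp_add, mul_one]
      congr 2
      push_cast
      ring
    rw [h3, norm_mul, Complex.norm_exp_ofReal_mul_I, one_mul]
    have h4 : ‖Complex.exp ((((A - B : ℝ)) : ℂ) * Complex.I) - 1‖ ≤ |A - B| := by
      have := Real.norm_exp_I_mul_ofReal_sub_one_le (x := A - B)
      rw [mul_comm] at this
      simpa using this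
    refine h4.trans ?_
    rw [hdiff, abs_mul, abs_mul, abs_two]
    have := log_err u hu0
    gcongr
  calc ‖(g : ℂ) * Complex.exp ((A : ℂ) * Complex.I) - Complex.exp ((B : ℂ) * Complex.I)‖
      = ‖((g : ℂ) * Complex.exp ((A : ℂ) * Complex.I) - Complex.exp ((A : ℂ) * Complex.I)) +
        (Complex.exp ((A : ℂ) * Complex.I) - Complex.exp ((B : ℂ) * Complex.I))‖ := by congr 1; ring
    _ ≤ _ := (norm_add_le _ _).trans (add_le_add h1 h2)

/-- the sum over the points -/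
theorem gs_geo (N H : ℕ) (hN : 1 ≤ N) (t : ℝ) :
    ‖GS (Pt N H) (gC N) t‖ * |Real.sin (t / N)| ≤ 1 + (2 * (H : ℝ) ^ 2 / N + 2 * |t| * (H : ℝ) ^ 3 / N ^ 2) := by
  have hN0 : (0 : ℝ) < N := by exact_mod_cast hN
  set Z : ℂ := ((((N : ℝ)) ^ 2 : ℝ) : ℂ) ^ (t * Complex.I) with hZ
  have hZn : ‖Z‖ = 1 := by
    rw [hZ, Complex.norm_cpow_eq_rpow_re_of_pos (by positivity)]
    simp
  set F : ℂ := ∑ j ∈ Finset.Ioc 0 H, Complex.exp (((2 * (t / N) * j : ℝ) : ℂ) * Complex.I) with hF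
  have h1 : GS (Pt N H) (gC N) t = ∑ j ∈ Finset.Ioc 0 H,
      gC N (((N + j : ℕ) : ℝ) ^ 2) * ((((N + j : ℕ) : ℝ) ^ 2 : ℝ) : ℂ) ^ (t * Complex.I) := by
    unfold GS
    rw [sum_Pt]
    have h2 : Finset.Ioc N (N + H) = (Finset.Ioc 0 H).map (addLeftEmbedding N) := by
      rw [Finset.map_add_left_Ioc]; simp
    rw [h2, Finset.sum_map]
    rfl
  have h3 : ‖GS (Pt N H) (gC N) t - Z * F‖ ≤ 2 * (H : ℝ) ^ 2 / N + 2 * |t| * (H : ℝ) ^ 3 / N ^ 2 := by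
    rw [h1, hF, Finset.mul_sum, ← Finset.sum_sub_distrib]
    refine (norm_sum_le _ _).trans ?_
    calc ∑ j ∈ Finset.Ioc 0 H, ‖gC N (((N + j : ℕ) : ℝ) ^ 2) * ((((N + j : ℕ) : ℝ) ^ 2 : ℝ) : ℂ) ^ (t * Complex.I) -
          Z * Complex.exp (((2 * (t / N) * j : ℝ) : ℂ) * Complex.I)‖
        ≤ ∑ j ∈ Finset.Ioc 0 H, (2 * (H / N : ℝ) + 2 * |t| * (H / N : ℝ) ^ 2) := by
          apply Finset.sum_le_sum
          intro j hj
          rw [Finset.mem_Ioc] at hj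
          refine (term_err N j hN t).trans ?_
          have hjH : (j : ℝ) ≤ H := by exact_mod_cast hj.2
          gcongr
      _ = H * (2 * (H / N : ℝ) + 2 * |t| * (H / N : ℝ) ^ 2) := by
          rw [Finset.sum_const, Nat.card_Ioc, nsmul_eq_mul, Nat.sub_zero]
      _ = _ := by field_simp
  have h4 : ‖GS (Pt N H) (gC N) t‖ ≤ ‖F‖ + (2 * (H : ℝ) ^ 2 / N + 2 * |t| * (H : ℝ) ^ 3 / N ^ 2) := by
    calc ‖GS (Pt N H) (gC N) t‖ = ‖Z * F + (GS (Pt N H) (gC N) t - Z * F)‖ := by congr 1; ring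
      _ ≤ ‖Z * F‖ + ‖GS (Pt N H) (gC N) t - Z * F‖ := norm_add_le _ _
      _ ≤ _ := by rw [norm_mul, hZn, one_mul]; linarith
  have h5 := geo H (t / N)
  have h6 : |Real.sin (t / N)| ≤ 1 := Real.abs_sin_le_one _
  have h7 : 0 ≤ |Real.sin (t / N)| := abs_nonneg _
  have h8 : 0 ≤ 2 * (H : ℝ) ^ 2 / N + 2 * |t| * (H : ℝ) ^ 3 / N ^ 2 := by positivity
  calc ‖GS (Pt N H) (gC N) t‖ * |Real.sin (t / N)|
      ≤ (‖F‖ + (2 * (H : ℝ) ^ 2 / N + 2 * |t| * (H : ℝ) ^ 3 / N ^ 2)) * |Real.sin (t / N)| := by gcongr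
    _ = ‖F‖ * |Real.sin (t / N)| + (2 * (H : ℝ) ^ 2 / N + 2 * |t| * (H : ℝ) ^ 3 / N ^ 2) * |Real.sin (t / N)| := by ring
    _ ≤ 1 + (2 * (H : ℝ) ^ 2 / N + 2 * |t| * (H : ℝ) ^ 3 / N ^ 2) * 1 := by gcongr
    _ = _ := by ring

/-- the bound for `H ≤ 4 N^(3/20)` -/
theorem gs_sin : ∃ C : ℝ, 1 ≤ C ∧ ∀ (N H : ℕ) (t : ℝ), C ≤ N → (H : ℝ) ≤ 4 * (N : ℝ) ^ (3 / 20 : ℝ) →
    |t| ≤ 2 * (N : ℝ) ^ (11 / 10 : ℝ) → ‖GS (Pt N H) (gC N) t‖ * |Real.sin (t / N)| ≤ 2 := by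
  refine ⟨(10 : ℝ) ^ 8, by norm_num, ?_⟩
  intro N H t hCN hH ht
  have hN1 : (1 : ℝ) ≤ N := by linarith [show (1 : ℝ) ≤ 10 ^ 8 by norm_num]
  have hN : 1 ≤ N := by exact_mod_cast hN1
  have hN0 : (0 : ℝ) < N := by linarith
  refine (gs_geo N H hN t).trans ?_
  have h0 : (0 : ℝ) ≤ H := Nat.cast_nonneg H
  have h1 : (H : ℝ) ^ 2 / N ≤ 16 * (N : ℝ) ^ (-(7 / 10 : ℝ)) := by
    calc (H : ℝ) ^ 2 / N ≤ (4 * (N : ℝ) ^ (3 / 20 : ℝ)) ^ 2 / N := by gcongr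
      _ = 16 * (N : ℝ) ^ (-(7 / 10 : ℝ)) := by
          rw [mul_pow, ← Real.rpow_natCast ((N : ℝ) ^ (3 / 20 : ℝ)) 2, ← Real.rpow_mul hN0.le]
          rw [show -(7 / 10 : ℝ) = 3 / 20 * ((2 : ℕ) : ℝ) - 1 by norm_num, Real.rpow_sub_one hN0.ne']
          norm_num
          ring
  have h2 : |t| * (H : ℝ) ^ 3 / N ^ 2 ≤ 128 * (N : ℝ) ^ (-(9 / 20 : ℝ)) := by
    calc |t| * (H : ℝ) ^ 3 / N ^ 2 ≤ (2 * (N : ℝ) ^ (11 / 10 : ℝ)) * (4 * (N : ℝ) ^ (3 / 20 : ℝ)) ^ 3 / N ^ 2 := by gcongr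
      _ = 128 * ((N : ℝ) ^ (11 / 10 : ℝ) * ((N : ℝ) ^ (3 / 20 : ℝ)) ^ 3 / N ^ 2) := by ring
      _ = 128 * (N : ℝ) ^ (-(9 / 20 : ℝ)) := by
          congr 1
          rw [← Real.rpow_natCast ((N : ℝ) ^ (3 / 20 : ℝ)) 3, ← Real.rpow_mul hN0.le, ← Real.rpow_natCast (N : ℝ) 2,
            ← Real.rpow_add hN0, ← Real.rpow_sub hN0]
          congr 1
          norm_num
  have h3 : (N : ℝ) ^ (-(9 / 20 : ℝ)) ≤ 1 / 1000 := by
    rw [Real.rpow_neg hN0.le, inv_le_comm₀ (by positivity) (by norm_num)]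
    calc (1 / 1000 : ℝ)⁻¹ = ((10 : ℝ) ^ 8) ^ (3 / 8 : ℝ) := by
          rw [← Real.rpow_natCast, ← Real.rpow_mul (by norm_num)]
          norm_num
      _ ≤ ((10 : ℝ) ^ 8) ^ (9 / 20 : ℝ) := Real.rpow_le_rpow_of_exponent_le (by norm_num) (by norm_num)
      _ ≤ (N : ℝ) ^ (9 / 20 : ℝ) := Real.rpow_le_rpow (by norm_num) hCN (by norm_num)
  have h4 : (N : ℝ) ^ (-(7 / 10 : ℝ)) ≤ (N : ℝ) ^ (-(9 / 20 : ℝ)) := Real.rpow_le_rpow_of_exponent_le hN1 (by norm_num)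
  have h5 : 2 * (H : ℝ) ^ 2 / N = 2 * ((H : ℝ) ^ 2 / N) := by ring
  have h6 : 2 * |t| * (H : ℝ) ^ 3 / N ^ 2 = 2 * (|t| * (H : ℝ) ^ 3 / N ^ 2) := by ring
  rw [h5, h6]
  linarith

end Pool.Agent.Work.MP_a8fbd7_nt.OX.CW
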