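import Mathlib
import Pool.Agent.Work.MP_a8fbd7_nt.OX.CW.Geo
import Pool.Agent.Work.MP_a8fbd7_nt.OX.CELL.CollE
import Pool.Agent.Work.MP_a8fbd7_nt.OX.CELL.LVh

/-!
MP_a8fbd7_nt, block OX, part CW: the integral of `|GS|` over a set is controlled by one window of length `N^(17/20)`.
Author: helper86.
-/

set_option autoImplicit false

open MeasureTheory Set Filter Topology

noncomputable section

namespace Pool.Agent.Work.MP_a8fbd7_nt.OX.CW

open Pool.Agent.Work.MP_a8fbd7_nt.OX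
open Pool.Agent.Work.MP_a8fbd7_nt.OX.CELL (thr)

/-- the integral over a finite cover -/
theorem int_cover {ι : Type*} (s : Finset ι) (E : Set ℝ) (hE : IsCompact E) (F : ι → Set ℝ)
    (hF : ∀ i ∈ s, IsCompact (F i)) (hsub : ∀ i ∈ s, F i ⊆ E) (hcov : ∀ t ∈ E, ∃ i ∈ s, t ∈ F i) (H : ℝ → ℝ) (hH : Continuous H)
    (hH0 : ∀ t, 0 ≤ H t) : ∫ t in E, H t ≤ ∑ i ∈ s, ∫ t in F i, H t := by
  classical
  have hintE : IntegrableOn H E := hH.continuousOn.integrableOn_compact hE
  have h1 : ∀ i ∈ s, ∫ t in F i, H t = ∫ t in E, (F i).indicator H t := by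
    intro i hi
    rw [setIntegral_indicator (hF i hi).measurableSet, inter_eq_self_of_subset_right (hsub i hi)]
  rw [Finset.sum_congr rfl h1, ← integral_finsetSum]
  · apply setIntegral_mono_on hintE _ hE.measurableSet
    · intro t ht
      obtain ⟨i, hi, hti⟩ := hcov t ht
      calc H t = (F i).indicator H t := by rw [indicator_of_mem hti]
        _ ≤ ∑ i ∈ s, (F i).indicator H t :=
          Finset.single_le_sum (f := fun i => (F i).indicator H t) (fun j _ => indicator_nonneg (fun t _ => hH0 t) t) hi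
    · apply integrable_finsetSum
      intro i hi
      exact hintE.indicator (hF i hi).measurableSet
  · intro i hi
    exact hintE.indicator (hF i hi).measurableSet

/-- the points are separated -/
theorem lsep_Pt (N H : ℕ) (hN : 1 ≤ N) (hH : H ≤ N) : LSep (Pt N H) N := by
  have hN0 : (0 : ℝ) < N := by exact_mod_cast hN
  constructor
  · intro x hx
    obtain ⟨n, hn1, _, rfl⟩ := mem_Pt hx
    have : (0 : ℝ) < n := by exact_mod_cast (by omega : 0 < n)
    positivity
  · have key : ∀ a b : ℕ, N < a → a < b → b ≤ N + H → 1 ≤ (N : ℝ) * (Real.log ((b : ℝ) ^ 2) - Real.log ((a : ℝ) ^ 2)) := by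
      intro a b ha hab hb
      have ha0 : (0 : ℝ) < a := by exact_mod_cast (by omega : 0 < a)
      have hb0 : (0 : ℝ) < b := by exact_mod_cast (by omega : 0 < b)
      rw [Real.log_pow, Real.log_pow]
      have h1 : 1 - (b / a : ℝ)⁻¹ ≤ Real.log (b / a) := Real.one_sub_inv_le_log_of_pos (by positivity)
      have h2 : Real.log (b / a : ℝ) = Real.log b - Real.log a := Real.log_div hb0.ne' ha0.ne'
      have h3 : 1 / (b : ℝ) ≤ 1 - (b / a : ℝ)⁻¹ := by
        have hab' : (a : ℝ) + 1 ≤ b := by exact_mod_cast hab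
        rw [inv_div]
        have : 1 - (a : ℝ) / b = (b - a) / b := by field_simp
        rw [this]
        gcongr
        linarith
      have h4 : (b : ℝ) ≤ 2 * N := by
        have : b ≤ 2 * N := by omega
        exact_mod_cast this
      have h5 : 1 / (2 * N : ℝ) ≤ 1 / (b : ℝ) := by gcongr
      have h6 : (N : ℝ) * (1 / (2 * N)) = 1 / 2 := by field_simp
      push_cast
      nlinarith
    intro x hx y hy hxy
    obtain ⟨a, ha1, ha2, rfl⟩ := mem_Pt hx
    obtain ⟨b, hb1, hb2, rfl⟩ := mem_Pt hy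
    have hab : a ≠ b := fun h => hxy (by rw [h])
    rcases lt_or_gt_of_ne hab with h | h
    · have := key a b ha1 h hb2
      rw [abs_sub_comm]
      exact this.trans (mul_le_mul_of_nonneg_left (le_abs_self _) hN0.le)
    · have := key b a hb1 h ha2
      exact this.trans (mul_le_mul_of_nonneg_left (le_abs_self _) hN0.le)

/-- `∑_{m ≤ M} 1/max(1,m) ≤ 2 + log M` -/
theorem harm_max (M : ℕ) : ∑ m ∈ Finset.range (M + 1), 1 / max 1 (m : ℝ) ≤ 2 + Real.log (M + 1) := by
  rw [Finset.sum_range_succ']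
  have h1 : ∑ k ∈ Finset.range M, 1 / max 1 ((k + 1 : ℕ) : ℝ) = ∑ k ∈ Finset.range M, 1 / ((k : ℝ) + 1) := by
    apply Finset.sum_congr rfl
    intro k _
    rw [max_eq_right]
    · push_cast; rfl
    · push_cast
      have : (0 : ℝ) ≤ k := Nat.cast_nonneg k
      linarith
  rw [h1]
  have h2 : ∑ k ∈ Finset.range M, 1 / ((k : ℝ) + 1) ≤ 1 + Real.log (M + 1) := by
    have h3 := harmonic_le_one_add_log M
    have h4 : ((harmonic M : ℚ) : ℝ) = ∑ k ∈ Finset.range M, 1 / ((k : ℝ) + 1) := by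
      rw [harmonic]
      push_cast
      apply Finset.sum_congr rfl
      intro k _
      rw [one_div]
    rw [h4] at h3
    rcases Nat.eq_zero_or_pos M with h0 | hpos
    · subst h0; simp
    · refine h3.trans ?_
      have : (0 : ℝ) < M := by exact_mod_cast hpos
      have h5 : Real.log (M : ℝ) ≤ Real.log (M + 1) := Real.log_le_log this (by linarith)
      linarith
  simp only [Nat.cast_zero, zero_le_one, max_eq_left]
  linarith

/-- the window lemma with explicit counting -/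
theorem cover_point (N H : ℕ) (V t : ℝ) (hN : 1 ≤ N) (hV : 0 < V) (hHV : (N : ℝ) ≤ H * V)
    (ht : 0 ≤ t) (hsin : ‖GS (Pt N H) (gC N) t‖ * |Real.sin (t / N)| ≤ 2) (htriv : ‖GS (Pt N H) (gC N) t‖ ≤ H) :
    ∃ (k m : ℕ) (σ : Bool), (k : ℝ) ≤ t / N + 1 ∧ (m : ℝ) ≤ 2 * N / V ∧
      (if σ then Real.pi * N * k + m * V else Real.pi * N * k - (m + 1) * V) ≤ t ∧
      t ≤ (if σ then Real.pi * N * k + m * V else Real.pi * N * k - (m + 1) * V) + V ∧
      ‖GS (Pt N H) (gC N) t‖ ≤ 4 * H * (1 / max 1 (m : ℝ)) := by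
  have hN0 : (0 : ℝ) < N := by exact_mod_cast hN
  have hpi := Real.pi_pos
  have hpi3 := Real.pi_gt_three
  have hpi4 := Real.pi_lt_d2
  set G : ℝ := ‖GS (Pt N H) (gC N) t‖ with hG
  have hG0 : 0 ≤ G := norm_nonneg _
  have hH0 : (0 : ℝ) ≤ H := Nat.cast_nonneg H
  set k : ℤ := round (t / (Real.pi * N)) with hk
  have hk0 : 0 ≤ k := by
    rw [hk]
    have h1 : 0 ≤ t / (Real.pi * N) := by positivity
    rw [round_eq]
    apply Int.floor_nonneg.mpr
    linarith
  set d : ℝ := t - Real.pi * N * k with hd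
  have hdle : |d| ≤ Real.pi * N / 2 := by
    have h1 := abs_sub_round (t / (Real.pi * N))
    rw [← hk] at h1
    have h2 : d = (t / (Real.pi * N) - k) * (Real.pi * N) := by
      rw [hd]; field_simp
    rw [h2, abs_mul, abs_of_pos (show 0 < Real.pi * N by positivity)]
    nlinarith [mul_le_mul_of_nonneg_right h1 (show 0 ≤ Real.pi * N by positivity)]
  have hsd : 2 / Real.pi * |d / N| ≤ |Real.sin (t / N)| := by
    have h1 : t / N = d / N + k * Real.pi := by
      rw [hd]; field_simp; ring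
    rw [h1, Real.sin_add_int_mul_pi]
    have h2 : |(-1 : ℝ) ^ k * Real.sin (d / N)| = |Real.sin (d / N)| := by
      rw [abs_mul, abs_zpow, abs_neg, abs_one, one_zpow, one_mul]
    rw [h2]
    have h3 : |d / N| ≤ Real.pi / 2 := by
      rw [abs_div, abs_of_pos hN0, div_le_iff₀ hN0]
      linarith
    have h4 : |Real.sin (d / N)| = Real.sin |d / N| := by
      rcases le_total 0 (d / N) with h | h
      · rw [abs_of_nonneg h] at h3 ⊢
        rw [abs_of_nonneg (Real.sin_nonneg_of_nonneg_of_le_pi h (by linarith))]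
      · rw [abs_of_nonpos h] at h3 ⊢
        rw [Real.sin_neg, abs_of_nonpos]
        exact Real.sin_nonpos_of_nonpos_of_neg_pi_le h (by linarith)
    rw [h4]
    exact Real.mul_le_sin (abs_nonneg _) h3
  set m : ℕ := ⌊|d| / V⌋₊ with hm
  have hm1 : (m : ℝ) * V ≤ |d| := by
    have := Nat.floor_le (show 0 ≤ |d| / V by positivity)
    rw [← hm] at this
    rwa [le_div_iff₀ hV] at this
  have hm2 : |d| ≤ (m + 1) * V := by
    have := Nat.lt_floor_add_one (|d| / V)
    rw [← hm, div_lt_iff₀ hV] at this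
    exact this.le
  have hkn : ((k.toNat : ℕ) : ℝ) = (k : ℝ) := by
    have : ((k.toNat : ℕ) : ℤ) = k := Int.toNat_of_nonneg hk0
    exact_mod_cast this
  refine ⟨k.toNat, m, decide (0 ≤ d), ?_, ?_, ?_, ?_, ?_⟩
  · rw [hkn]
    have h1 : (k : ℝ) ≤ t / (Real.pi * N) + 1 / 2 := by
      have := abs_le.mp (abs_sub_round (t / (Real.pi * N)))
      rw [← hk] at this
      linarith [this.1]
    have h2 : t / (Real.pi * N) ≤ t / N := by
      apply div_le_div_of_nonneg_left ht hN0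
      nlinarith
    linarith
  · rw [le_div_iff₀ hV]
    nlinarith
  · rw [hkn]
    by_cases h : 0 ≤ d
    · simp only [h, decide_true, if_true]
      rw [abs_of_nonneg h] at hm1
      linarith
    · simp only [h, decide_false, Bool.false_eq_true, if_false]
      push Not at h
      rw [abs_of_neg h] at hm2
      linarith
  · rw [hkn]
    by_cases h : 0 ≤ d
    · simp only [h, decide_true, if_true]
      rw [abs_of_nonneg h] at hm2
      linarith
    · simp only [h, decide_false, Bool.false_eq_true, if_false]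
      push Not at h
      rw [abs_of_neg h] at hm1
      linarith
  · rcases Nat.eq_zero_or_pos m with h0 | hpos
    · rw [h0]
      simp only [Nat.cast_zero, zero_le_one, max_eq_left]
      linarith
    · have hm0 : (1 : ℝ) ≤ m := by exact_mod_cast hpos
      rw [max_eq_right hm0]
      have hdp : 0 < |d| := by nlinarith
      have h1 : G * (2 / Real.pi * |d / N|) ≤ 2 := by
        refine le_trans ?_ hsin
        gcongr
      rw [abs_div, abs_of_pos hN0] at h1
      have h2 : G * |d| ≤ Real.pi * N := by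
        have h3 : G * (2 / Real.pi * (|d| / N)) = (G * |d|) * (2 / (Real.pi * N)) := by field_simp
        rw [h3] at h1
        rw [← le_div_iff₀ (by positivity)] at h1
        refine h1.trans (le_of_eq ?_)
        field_simp
      have h4 : G * (m * V) ≤ Real.pi * (H * V) := by
        calc G * (m * V) ≤ G * |d| := by gcongr
          _ ≤ Real.pi * N := h2
          _ ≤ Real.pi * (H * V) := by gcongr
      have h5 : G * m ≤ Real.pi * H := by
        have : (G * m) * V ≤ (Real.pi * H) * V := by nlinarith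
        exact le_of_mul_le_mul_right this hV
      rw [mul_one_div, le_div_iff₀ (by linarith)]
      nlinarith

/-- `4 N^(3/20) ≤ N` -/
theorem H_le_N {N H : ℕ} (hN : (10 : ℝ) ^ 8 ≤ N) (hH : (H : ℝ) ≤ 4 * (N : ℝ) ^ (3 / 20 : ℝ)) : H ≤ N := by
  have hN1 : (1 : ℝ) ≤ N := by linarith [show (1 : ℝ) ≤ 10 ^ 8 by norm_num]
  have hN0 : (0 : ℝ) < N := by linarith
  have h1 : 4 ≤ (N : ℝ) ^ (17 / 20 : ℝ) := by
    calc (4 : ℝ) ≤ ((10 : ℝ) ^ 8) ^ (1 / 8 : ℝ) := by
          rw [← Real.rpow_natCast, ← Real.rpow_mul (by norm_num)]; norm_num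
      _ ≤ ((10 : ℝ) ^ 8) ^ (17 / 20 : ℝ) := Real.rpow_le_rpow_of_exponent_le (by norm_num) (by norm_num)
      _ ≤ (N : ℝ) ^ (17 / 20 : ℝ) := Real.rpow_le_rpow (by norm_num) hN (by norm_num)
  have h2 : (H : ℝ) ≤ N := by
    calc (H : ℝ) ≤ 4 * (N : ℝ) ^ (3 / 20 : ℝ) := hH
      _ ≤ (N : ℝ) ^ (17 / 20 : ℝ) * (N : ℝ) ^ (3 / 20 : ℝ) := by gcongr
      _ = N := by rw [← Real.rpow_add hN0]; norm_num
  exact_mod_cast h2

theorem GSc (N H : ℕ) (hN : 1 ≤ N) (hH : H ≤ N) : Continuous (fun t => ‖GS (Pt N H) (gC N) t‖) :=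
  (Pool.Agent.Work.MP_a8fbd7_nt.OX.CELL.GS_cont (lsep_Pt N H hN hH) _).norm

/-- **one window** -/
theorem cv (ε : ℝ) (hε : 0 < ε) (hε1 : ε ≤ 1 / 10) : ∃ C : ℝ, 1 ≤ C ∧ ∀ (N H : ℕ) (T' : ℝ) (E : Set ℝ), C ≤ N →
    (N : ℝ) ^ (3 / 20 : ℝ) ≤ H → (H : ℝ) ≤ 4 * (N : ℝ) ^ (3 / 20 : ℝ) → 1 ≤ T' → T' ≤ (N : ℝ) ^ (1 + ε) → IsCompact E →
    E ⊆ Icc T' (2 * T') → ∃ a : ℝ, ∫ t in E, ‖GS (Pt N H) (gC N) t‖ ≤
      (N : ℝ) ^ (2 * ε) * H * (volume (E ∩ Icc a (a + (N : ℝ) ^ (17 / 20 : ℝ)))).toReal := by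
  classical
  obtain ⟨C1, hC1, hsin⟩ := gs_sin
  obtain ⟨C2, hC2, hthr⟩ := thr (32 * (2 + 4 * (2 / ε))) (ε / 2) (by positivity)
  refine ⟨max (max C1 C2) ((10 : ℝ) ^ 8), le_max_of_le_left (le_max_of_le_left hC1), ?_⟩
  intro N H T' E hCN hH1 hH2 hT'1 hT' hE hEs
  have t1 : C1 ≤ N := (le_max_left _ _).trans ((le_max_left _ _).trans hCN)
  have t2 : C2 ≤ N := (le_max_right _ _).trans ((le_max_left _ _).trans hCN)
  have t3 : (10 : ℝ) ^ 8 ≤ N := (le_max_right _ _).trans hCN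
  have hN1 : (1 : ℝ) ≤ N := by linarith [show (1 : ℝ) ≤ 10 ^ 8 by norm_num]
  have hN0 : (0 : ℝ) < N := by linarith
  have hN : 1 ≤ N := by exact_mod_cast hN1
  have hHN : H ≤ N := H_le_N t3 hH2
  have hH0 : (0 : ℝ) ≤ H := Nat.cast_nonneg H
  set V : ℝ := (N : ℝ) ^ (17 / 20 : ℝ) with hV
  have hV0 : 0 < V := by positivity
  have hHV : (N : ℝ) ≤ H * V := by
    calc (N : ℝ) = (N : ℝ) ^ (3 / 20 : ℝ) * V := by rw [hV, ← Real.rpow_add hN0]; norm_num
      _ ≤ H * V := by gcongr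
  have hGc := GSc N H hN hHN
  set K : ℕ := ⌊2 * T' / N + 1⌋₊ with hK
  set M : ℕ := ⌊2 * N / V⌋₊ with hM
  set st : ℕ × ℕ × Bool → ℝ := fun i => if i.2.2 then Real.pi * N * i.1 + i.2.1 * V else Real.pi * N * i.1 - (i.2.1 + 1) * V with hst
  set I : Finset (ℕ × ℕ × Bool) := Finset.range (K + 1) ×ˢ (Finset.range (M + 1) ×ˢ Finset.univ) with hI
  set F : ℕ × ℕ × Bool → Set ℝ := fun i => (E ∩ Icc (st i) (st i + V)) ∩ {t | ‖GS (Pt N H) (gC N) t‖ ≤ 4 * H * (1 / max 1 (i.2.1 : ℝ))}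
    with hF
  set f : ℕ × ℕ × Bool → ℝ := fun i => (volume (E ∩ Icc (st i) (st i + V))).toReal with hf
  have hEI : ∀ i, IsCompact (E ∩ Icc (st i) (st i + V)) := fun i => hE.inter_right isClosed_Icc
  have hFc : ∀ i ∈ I, IsCompact (F i) := fun i _ => (hEI i).inter_right (isClosed_le hGc continuous_const)
  have hIne : I.Nonempty := ⟨(0, 0, true), by simp [hI]⟩
  obtain ⟨i0, hi0, hmax⟩ := Finset.exists_max_image I f hIne
  refine ⟨st i0, ?_⟩
  have hcover := int_cover I E hE F hFc (fun i _ => fun t ht => ht.1.1) (by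
    intro t ht
    have htT := hEs ht
    have ht0 : 0 ≤ t := by linarith [htT.1]
    have hs := hsin N H t t1 hH2 (by
      rw [abs_of_nonneg ht0]
      refine htT.2.trans ?_
      have : (N : ℝ) ^ (1 + ε) ≤ (N : ℝ) ^ (11 / 10 : ℝ) := Real.rpow_le_rpow_of_exponent_le hN1 (by linarith)
      linarith)
    have htr : ‖GS (Pt N H) (gC N) t‖ ≤ H := by
      have := Pool.Agent.Work.MP_a8fbd7_nt.OX.CELL.GS_le (lsep_Pt N H hN hHN) (gC_le N hN0) t
      rwa [card_Pt] at this
    obtain ⟨k, m, σ, h1, h2, h3, h4, h5⟩ := cover_point N H V t hN hV0 hHV ht0 hs htr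
    refine ⟨(k, m, σ), ?_, ⟨ht, h3, h4⟩, h5⟩
    simp only [hI, Finset.mem_product, Finset.mem_range, Finset.mem_univ, and_true]
    constructor
    · apply Nat.lt_succ_of_le
      apply Nat.le_floor
      refine h1.trans ?_
      have := htT.2
      gcongr
    · apply Nat.lt_succ_of_le
      exact Nat.le_floor h2) _ hGc (fun t => norm_nonneg _)
  refine hcover.trans ?_
  have hterm : ∀ i ∈ I, ∫ t in F i, ‖GS (Pt N H) (gC N) t‖ ≤ (4 * H * f i0) * (1 / max 1 (i.2.1 : ℝ)) := by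
    intro i hi
    have hc0 : 0 ≤ 4 * H * (1 / max 1 (i.2.1 : ℝ)) := by positivity
    calc ∫ t in F i, ‖GS (Pt N H) (gC N) t‖ ≤ ∫ _ in F i, 4 * H * (1 / max 1 (i.2.1 : ℝ)) := by
          apply setIntegral_mono_on (hGc.continuousOn.integrableOn_compact (hFc i hi))
            (integrableOn_const (hFc i hi).measure_lt_top.ne) (hFc i hi).measurableSet
          intro t ht
          exact ht.2
      _ = (volume (F i)).toReal * (4 * H * (1 / max 1 (i.2.1 : ℝ))) := by
          rw [setIntegral_const, smul_eq_mul]; rfl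
      _ ≤ f i * (4 * H * (1 / max 1 (i.2.1 : ℝ))) := by
          apply mul_le_mul_of_nonneg_right _ hc0
          exact ENNReal.toReal_mono (hEI i).measure_lt_top.ne (measure_mono inter_subset_left)
      _ ≤ f i0 * (4 * H * (1 / max 1 (i.2.1 : ℝ))) := mul_le_mul_of_nonneg_right (hmax i hi) hc0
      _ = _ := by ring
  refine (Finset.sum_le_sum hterm).trans ?_
  rw [← Finset.mul_sum]
  have hsum : ∑ i ∈ I, 1 / max 1 (i.2.1 : ℝ) = 2 * (K + 1) * ∑ m ∈ Finset.range (M + 1), 1 / max 1 (m : ℝ) := by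
    rw [hI, Finset.sum_product]
    simp only [Finset.sum_product, Finset.sum_const, Finset.card_univ, Fintype.card_bool, Finset.card_range, nsmul_eq_mul]
    rw [← Finset.mul_sum]
    push_cast
    ring
  rw [hsum]
  have hf0 : 0 ≤ f i0 := ENNReal.toReal_nonneg
  have hKb : (K : ℝ) + 1 ≤ 4 * (N : ℝ) ^ ε := by
    have h1 : (K : ℝ) ≤ 2 * T' / N + 1 := Nat.floor_le (by positivity)
    have h2 : 2 * T' / N ≤ 2 * (N : ℝ) ^ ε := by
      rw [div_le_iff₀ hN0]
      calc 2 * T' ≤ 2 * (N : ℝ) ^ (1 + ε) := by linarith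
        _ = 2 * (N : ℝ) ^ ε * N := by rw [Real.rpow_add hN0, Real.rpow_one]; ring
    have h3 : (1 : ℝ) ≤ (N : ℝ) ^ ε := Real.one_le_rpow hN1 hε.le
    linarith
  have hMb : 32 * (2 + Real.log (M + 1)) ≤ (N : ℝ) ^ ε := by
    have h1 : (M : ℝ) ≤ 2 * N / V := Nat.floor_le (by positivity)
    have hV1 : 1 ≤ V := Real.one_le_rpow hN1 (by norm_num)
    have h2 : 2 * N / V ≤ 2 * N := div_le_self (by positivity) hV1
    have h3 : Real.log (M + 1) ≤ 4 * (2 / ε) * (N : ℝ) ^ (ε / 2) := by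
      have hM0 : (0 : ℝ) ≤ M := Nat.cast_nonneg M
      calc Real.log (M + 1) ≤ ((M : ℝ) + 1) ^ (ε / 2) / (ε / 2) := Real.log_le_rpow_div (by positivity) (by positivity)
        _ ≤ (4 * N : ℝ) ^ (ε / 2) / (ε / 2) := by
            gcongr
            linarith
        _ = (4 : ℝ) ^ (ε / 2) * (N : ℝ) ^ (ε / 2) * (2 / ε) := by
            rw [Real.mul_rpow (by norm_num) hN0.le]
            field_simp
        _ ≤ (4 : ℝ) ^ (1 : ℝ) * (N : ℝ) ^ (ε / 2) * (2 / ε) := by
            gcongr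
            · norm_num
            · linarith
        _ = _ := by rw [Real.rpow_one]; ring
    have h4 : (1 : ℝ) ≤ (N : ℝ) ^ (ε / 2) := Real.one_le_rpow hN1 (by positivity)
    calc 32 * (2 + Real.log (M + 1)) ≤ 32 * (2 * (N : ℝ) ^ (ε / 2) + 4 * (2 / ε) * (N : ℝ) ^ (ε / 2)) := by linarith
      _ = (32 * (2 + 4 * (2 / ε))) * (N : ℝ) ^ (ε / 2) := by ring
      _ ≤ (N : ℝ) ^ (ε / 2) * (N : ℝ) ^ (ε / 2) := by
          have := hthr N t2
          gcongr
      _ = (N : ℝ) ^ ε := by rw [← Real.rpow_add hN0]; congr 1; ring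
  have hh := harm_max M
  calc 4 * H * f i0 * (2 * (K + 1) * ∑ m ∈ Finset.range (M + 1), 1 / max 1 (m : ℝ))
      ≤ 4 * H * f i0 * (2 * (4 * (N : ℝ) ^ ε) * (2 + Real.log (M + 1))) := by gcongr
    _ = H * f i0 * (N : ℝ) ^ ε * (32 * (2 + Real.log (M + 1))) := by ring
    _ ≤ H * f i0 * (N : ℝ) ^ ε * (N : ℝ) ^ ε := by gcongr
    _ = (N : ℝ) ^ (2 * ε) * H * f i0 := by
        rw [show 2 * ε = ε + ε by ring, Real.rpow_add hN0]; ring

end Pool.Agent.Work.MP_a8fbd7_nt.OX.CW
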