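import Mathlib

/-!
MP_a8fbd7_nt (primes in Oppermann intervals), block OX, part CW (averages over windows of `n`): definitions of the table.

`f` is a block of length `T^b` and of relative gain `w/b`: `|f| = T^(b-w)` on a class of measure `T^tau` contained in an interval
of length `T^h`; `W` is the total gain exponent on the class.
-/

namespace Pool.Agent.Work.MP_a8fbd7_nt.OX.CW

/-- Guth-Maynard menu (`LV.StG` with `k = q`) for a polynomial of length `T^l` and gain `T^g`, an interval of length `T^h`, windows of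
length `T^t` -/
noncomputable def GMw (h : ℝ) (q : ℕ) (l g t : ℝ) : ℝ :=
  max 0 (h - t) + max (2 * g) (max (4 * t / 3 - 2 * l + 4 * g) (max (t / 2 - l + 4 * g)
    (max (t - 2 * l + 16 * g / 3) (max (t - 2 * l + 28 * g / 5) (max (3 * t / 2 - 3 * l + 7 * g)
      (max ((q : ℝ) / (q + 1) * (t / q - l + 6 * g)) ((q : ℝ) / (q + 1) * (t - 2 * l + 6 * g))))))))

/-- large value inequalities for `f^k` (length `k b`, gain `k w`, class `T^tau`, height `T^h`), tolerance `s` -/
structure LVw (h b w tau s : ℝ) (Q k : ℕ) : Prop where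
  mv : tau ≤ 2 * (k * w) + max 0 (h - k * b) + s
  hx : tau ≤ max (2 * (k * w)) (h + 6 * (k * w) - 2 * (k * b)) + s
  gm : ∀ (q : ℕ) (t : ℝ), 1 ≤ q → q ≤ Q → k * b ≤ t → t + s ≤ 2 * (k * b) → tau ≤ GMw h q (k * b) (k * w) t + s

/-- the table for windows of length `T^h`: blocks of length `b ≤ b1` and relative gain `≥ v0`; `W ≥ (2 - th) w/b - s`.
The alternative `W ≤ tau + s` (no trivial success) is contradictory. -/
def TabW (h b1 v0 th : ℝ) : Prop := ∃ s : ℝ, 0 < s ∧ ∃ Q : ℕ, ∀ b w tau W : ℝ, 0 < b → b ≤ b1 → v0 * b ≤ w → w ≤ b →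
  (2 - th) * w ≤ (W + s) * b → W ≤ tau + s →
  (∀ k : ℕ, 1 ≤ k → k * b ≤ 2 → LVw h b w tau s Q k) → False

end Pool.Agent.Work.MP_a8fbd7_nt.OX.CW
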