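import Mathlib
import Pool.Agent.Work.MP_a8fbd7_nt.OX.CW.Cv
import Pool.Agent.Work.MP_a8fbd7_nt.OX.CW.Defs
import Pool.Agent.Work.MP_a8fbd7_nt.OX.CELL.Pick

/-!
MP_a8fbd7_nt, block OX, part CW: the data of a class (PICK + one window + large values).
Author: helper86.
-/

set_option autoImplicit false

open MeasureTheory Set Filter Topology

noncomputable section

namespace Pool.Agent.Work.MP_a8fbd7_nt.OX.CW

open Pool.Agent.Work.MP_56b8f5_nt.UC (Sep Dp)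
open Pool.Agent.Work.MP_a8fbd7_nt.OX
open Pool.Agent.Work.MP_a8fbd7_nt.OX.CELL (thr pick disc_vol PB_cont GS_le expo LVp fin_thr lv_mv lv_hx lv_gm pow_dpc pw GMh)

/-- the data of a class: blocks `T^(b i)`, gains `T^(w i)`, measure `T^tau` in an interval of length `T^(17/20)`, total gain `W` -/
structure ClsW {m : ℕ} (b w : Fin m → ℝ) (tau W s : ℝ) (Q : ℕ) : Prop where
  w0 : ∀ i, 0 ≤ w i
  Wt : W ≤ tau + s
  t1 : tau ≤ 17 / 20 + s
  lv : ∀ i, ∀ k : ℕ, 1 ≤ k → k * b i ≤ 2 → LVw (17 / 20) (b i) (w i) tau s Q k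

/-- the large value inequalities for a block, without Jutila's -/
theorem lv_blockW (hMv : StMv) (hHx : StHx) (hG : StG) (hPf : StPf) (s η : ℝ) (Q : ℕ) (hs : 0 < s) (hη : 0 < η) :
    ∃ C : ℝ, 1 ≤ C ∧
    ∀ T, C ≤ T → ∀ (a : ℕ → ℂ) (N b w h T0 τ : ℝ) (W : Finset ℝ), N = T ^ b → η ≤ b → IsBlk a N → 0 ≤ h → h ≤ 2 →
      Sep W → (∀ t ∈ W, T0 ≤ t ∧ t ≤ T0 + T ^ h) → (∀ t ∈ W, T ^ (b - w) ≤ ‖PB a N t‖) → T ^ τ ≤ W.card →
      ∀ k : ℕ, 1 ≤ k → k * b ≤ 2 → LVw h b w τ s Q k := by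
  set K : ℕ := ⌈2 / η⌉₊ with hK
  obtain ⟨C, hC, hmain⟩ := fin_thr K (fun k T => ∀ (a : ℕ → ℂ) (N b w h T0 τ : ℝ) (W : Finset ℝ), N = T ^ b →
      η ≤ b → IsBlk a N → 0 ≤ h → h ≤ 2 →
      Sep W → (∀ t ∈ W, T0 ≤ t ∧ t ≤ T0 + T ^ h) → (∀ t ∈ W, T ^ (b - w) ≤ ‖PB a N t‖) → T ^ τ ≤ W.card →
      1 ≤ k → k * b ≤ 2 → LVw h b w τ s Q k) (by
    intro k _
    have hB : (1 : ℝ) ≤ 2 ^ k := one_le_pow₀ (by norm_num)
    obtain ⟨C1, hC1, h1⟩ := lv_mv hMv s (2 ^ k) hs hB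
    obtain ⟨C2, hC2, h2⟩ := pow_dpc hPf k (s / 64) (by positivity)
    obtain ⟨C3, hC3, h3⟩ := lv_hx hHx s (2 ^ k) hs hB
    obtain ⟨C4, hC4, h4⟩ := fin_thr Q (fun q T => ∀ (F : ℝ → ℂ) (T0 h l g τ : ℝ) (W : Finset ℝ), 0 ≤ h → h ≤ 2 →
        0 < l → l ≤ 2 → DPc F (T ^ l) (2 ^ k) (T ^ (s / 64)) → Lset F (T ^ (l - g)) T0 (T ^ h) W → T ^ τ ≤ W.card →
        1 ≤ q → ∀ t : ℝ, l ≤ t → t + s ≤ 2 * l → τ ≤ GMh h q l g t + s) (by
      intro q _
      rcases Nat.eq_zero_or_pos q with h0 | hq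
      · refine ⟨1, le_rfl, ?_⟩
        intro T _ F T0 h l g τ W _ _ _ _ _ _ _ hq1
        omega
      · obtain ⟨C, hC, h⟩ := lv_gm hG s (2 ^ k) hs hB q hq
        refine ⟨C, hC, ?_⟩
        intro T hT F T0 h' l g τ W a1 a2 a3 a4 a5 a6 a7 _
        exact h F T T0 h' l g τ W hT a1 a2 a3 a4 a5 a6 a7)
    refine ⟨max (max (max C1 C2) (max C3 C4)) 1, le_max_right _ _, ?_⟩
    intro T hT a N b w h T0 τ W hN hb ha hh0 hh2 hW hWT hWV hτ hk hkb
    have t1 : C1 ≤ T := (le_max_left _ _).trans ((le_max_left _ _).trans ((le_max_left _ _).trans hT))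
    have t2 : C2 ≤ T := (le_max_right _ _).trans ((le_max_left _ _).trans ((le_max_left _ _).trans hT))
    have t3 : C3 ≤ T := (le_max_left _ _).trans ((le_max_right _ _).trans ((le_max_left _ _).trans hT))
    have t4 : C4 ≤ T := (le_max_right _ _).trans ((le_max_right _ _).trans ((le_max_left _ _).trans hT))
    have hT1 : 1 ≤ T := (le_max_right _ _).trans hT
    have hk0 : (0 : ℝ) < k := by exact_mod_cast hk
    have hb0 : 0 < b := by linarith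
    have hD := h2 T t2 a N b hN hb0.le hkb ha
    have hL : Lset (fun t => PB a N t ^ k) (T ^ (k * b - k * w)) T0 (T ^ h) W := by
      refine ⟨hW, hWT, ?_⟩
      intro t ht
      rw [norm_pow]
      calc T ^ (k * b - k * w) = (T ^ (b - w)) ^ k := by
            rw [pw (by linarith)]; congr 1; ring
        _ ≤ _ := pow_le_pow_left₀ (by positivity) (hWV t ht) k
    exact ⟨h1 _ T T0 h (k * b) (k * w) τ W t1 hh0 hh2 (by positivity) hkb hD hL hτ,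
      h3 _ T T0 h (k * b) (k * w) τ W t3 hh0 hh2 (by positivity) hkb hD hL hτ,
      fun q t hq hqQ hlt htl => h4 T t4 q hqQ _ T0 h (k * b) (k * w) τ W hh0 hh2 (by positivity) hkb hD hL hτ hq t hlt htl⟩)
  refine ⟨C, hC, ?_⟩
  intro T hT a N b w h T0 τ W hN hb ha hh0 hh2 hW hWT hWV hτ k hk hkb
  refine hmain T hT k ?_ a N b w h T0 τ W hN hb ha hh0 hh2 hW hWT hWV hτ hk hkb
  rw [hK]
  have hk0 : (0 : ℝ) < k := by exact_mod_cast hk
  have h1 : (k : ℝ) ≤ 2 / η := by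
    rw [le_div_iff₀ hη]
    nlinarith
  exact_mod_cast h1.trans (Nat.le_ceil _)

/-- **the data of a class** -/
theorem clsW (hMv : StMv) (hHx : StHx) (hG : StG) (hPf : StPf) (s η : ℝ) (Q : ℕ) (hs : 0 < s) (hs1 : s ≤ 1)
    (hη : 0 < η) : ∃ C : ℝ, 1 ≤ C ∧
    ∀ (n H : ℕ) (T : ℝ), T = n → C ≤ T → T ^ (3 / 20 : ℝ) ≤ H → (H : ℝ) ≤ 4 * T ^ (3 / 20 : ℝ) →
      ∀ (T' θ : ℝ) (m : ℕ) (a : Fin m → ℕ → ℂ) (N b : Fin m → ℝ) (E : Set ℝ),
      1 ≤ T' → T' ≤ T ^ (1 + s / 128) → (∀ i, IsBlk (a i) (N i)) → (∀ i, N i = T ^ b i) → (∀ i, η ≤ b i) → ∑ i, b i ≤ 3 →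
      0 ≤ θ → IsCompact E → E ⊆ Icc T' (2 * T') →
      H * T ^ θ ≤ ∫ t in E, ‖GS (Pt n H) (gC T) t‖ * ∏ i, ‖PB (a i) (N i) t‖ →
      ∃ (w : Fin m → ℝ) (τ W : ℝ), W = ∑ i, w i + θ - ∑ i, b i ∧ (∃ t ∈ E, ∀ i, T ^ (b i - w i) ≤ ‖PB (a i) (N i) t‖) ∧
        ClsW b w τ W s Q := by
  obtain ⟨C1, hC1, hpick⟩ := pick (s / 8) η (by positivity) (by linarith) hη
  obtain ⟨C2, hC2, hcv⟩ := cv (s / 128) (by positivity) (by linarith)
  obtain ⟨C4, hC4, hlv⟩ := lv_blockW hMv hHx hG hPf (s / 8) η Q (by positivity) hη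
  obtain ⟨C5, hC5, hthr⟩ := thr 3 (s / 8) (by positivity)
  refine ⟨max (max (max C1 C2) C4) (max C5 ((10 : ℝ) ^ 8)), le_max_of_le_left (le_max_of_le_left (le_max_of_le_left hC1)), ?_⟩
  intro n H T hTn hT hH1 hH2 T' θ m a N b E hT'1 hT' ha hN hb hsum hθ hE hEs hint
  have t1 : C1 ≤ T := (le_max_left _ _).trans ((le_max_left _ _).trans ((le_max_left _ _).trans hT))
  have t2 : C2 ≤ T := (le_max_right _ _).trans ((le_max_left _ _).trans ((le_max_left _ _).trans hT))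
  have t4 : C4 ≤ T := (le_max_right _ _).trans ((le_max_left _ _).trans hT)
  have t5 : C5 ≤ T := (le_max_left _ _).trans ((le_max_right _ _).trans hT)
  have t6 : (10 : ℝ) ^ 8 ≤ T := (le_max_right _ _).trans ((le_max_right _ _).trans hT)
  have hT2 : 2 ≤ T := by linarith [show (2 : ℝ) ≤ 10 ^ 8 by norm_num]
  have hT0 : 0 < T := by linarith
  have hT1 : 1 ≤ T := by linarith
  have h2T := hthr T t5
  subst hTn
  have hn1 : 1 ≤ n := by exact_mod_cast hT1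
  have hHn : H ≤ n := H_le_N t6 hH2
  have hJ0 : (0 : ℝ) < H := lt_of_lt_of_le (by positivity) hH1
  have hS := lsep_Pt n H hn1 hHn
  have hGc := GSc n H hn1 hHn
  have hGle : ∀ t, ‖GS (Pt n H) (gC n) t‖ ≤ H := by
    intro t
    have := GS_le hS (gC_le n hT0) t
    rwa [card_Pt] at this
  obtain ⟨w, E', hE', hE'E, hw0, hlev, hprod, hint'⟩ := hpick n t1 T' H θ m a N b (fun t => ‖GS (Pt n H) (gC n) t‖) E hT'1
    (hT'.trans (Real.rpow_le_rpow_of_exponent_le hT1 (by linarith))) ha hN hb hsum hGc (fun t => norm_nonneg _)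
    hGle hJ0 hθ hE hEs hint
  set W : ℝ := ∑ i, w i + θ - ∑ i, b i with hW
  set X : ℝ := W - s / 4 with hX
  -- the integral of `G`
  have hGint : H * (n : ℝ) ^ X ≤ ∫ t in E', ‖GS (Pt n H) (gC n) t‖ := by
    have h1 : ∫ t in E', ‖GS (Pt n H) (gC n) t‖ * ∏ i, ‖PB (a i) (N i) t‖ ≤
        (n : ℝ) ^ (∑ i, b i - ∑ i, w i + s / 8) * ∫ t in E', ‖GS (Pt n H) (gC n) t‖ := by
      rw [← integral_const_mul]
      apply setIntegral_mono_on
      · apply Continuous.continuousOn _ |>.integrableOn_compact hE'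
        exact hGc.mul (continuous_finsetProd _ fun i _ => (PB_cont (a i) (N i)).norm)
      · exact (hGc.continuousOn.integrableOn_compact hE').const_mul _
      · exact hE'.measurableSet
      · intro t ht
        rw [mul_comm]
        exact mul_le_mul_of_nonneg_right (hprod t ht) (norm_nonneg _)
    have h2 : (n : ℝ) ^ (∑ i, b i - ∑ i, w i + s / 8) * (H * (n : ℝ) ^ X) ≤
        (n : ℝ) ^ (∑ i, b i - ∑ i, w i + s / 8) * ∫ t in E', ‖GS (Pt n H) (gC n) t‖ := by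
      refine le_trans (le_of_eq ?_) (hint'.trans h1)
      have : (n : ℝ) ^ (θ - s / 8) = (n : ℝ) ^ (∑ i, b i - ∑ i, w i + s / 8) * (n : ℝ) ^ X := by
        rw [← Real.rpow_add hT0]; congr 1; rw [hX, hW]; ring
      rw [this]; ring
    exact le_of_mul_le_mul_left h2 (by positivity)
  -- the window
  obtain ⟨T0, hT0w⟩ := hcv n H T' E' t2 hH1 hH2 hT'1 hT' hE' (hE'E.trans hEs)
  have hE'' : IsCompact (E' ∩ Icc T0 (T0 + (n : ℝ) ^ (17 / 20 : ℝ))) := hE'.inter_right isClosed_Icc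
  obtain ⟨R, hR1, hR2, hR3⟩ := disc_vol _ hE''
  have hXR : (n : ℝ) ^ (X - 2 * (s / 128)) ≤ 2 * R.card := by
    have h1 : H * (n : ℝ) ^ X ≤ (n : ℝ) ^ (2 * (s / 128)) * H * (2 * R.card) :=
      hGint.trans (hT0w.trans (mul_le_mul_of_nonneg_left hR3 (by positivity)))
    have h2 : ((n : ℝ) ^ (2 * (s / 128)) * H) * (n : ℝ) ^ (X - 2 * (s / 128)) ≤ ((n : ℝ) ^ (2 * (s / 128)) * H) * (2 * R.card) := by
      refine le_trans (le_of_eq ?_) h1
      have : (n : ℝ) ^ X = (n : ℝ) ^ (2 * (s / 128)) * (n : ℝ) ^ (X - 2 * (s / 128)) := by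
        rw [← Real.rpow_add hT0]; congr 1; ring
      rw [this]; ring
    exact le_of_mul_le_mul_left h2 (by positivity)
  have hRpos : 0 < R.card := by
    have h1 : 0 < (n : ℝ) ^ (X - 2 * (s / 128)) := by positivity
    have h2 : (0 : ℝ) < R.card := by linarith
    exact_mod_cast h2
  have hRr : (0 : ℝ) < R.card := by exact_mod_cast hRpos
  set τ : ℝ := Real.logb n R.card with hτ
  have hTτ : (n : ℝ) ^ τ = R.card := Real.rpow_logb hT0 (by linarith) hRr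
  have hWτ : X - 2 * (s / 128) ≤ τ + s / 8 := by
    apply expo (K := 3) (T := n) (by linarith) _ h2T
    rw [hTτ]
    linarith
  have hRsub : ∀ t ∈ R, T0 ≤ t ∧ t ≤ T0 + (n : ℝ) ^ (17 / 20 : ℝ) := fun t ht => (hR1 t ht).2
  have hV1 : 1 ≤ (n : ℝ) ^ (17 / 20 : ℝ) := Real.one_le_rpow hT1 (by norm_num)
  have hRT : (R.card : ℝ) ≤ 1 + 2 * ((n : ℝ) ^ (17 / 20 : ℝ)) / 1 := by
    apply Pool.Agent.Work.MP_a8fbd7_nt.OX.card_le_of_sep R (fun t => t) 1 T0 ((n : ℝ) ^ (17 / 20 : ℝ)) one_pos (by linarith)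
    · intro p hp q hq hpq
      exact hR2 p hp q hq hpq
    · intro p hp
      have := hRsub p hp
      rw [abs_le]
      constructor <;> linarith [this.1, this.2]
  have hτ1 : τ ≤ 17 / 20 + s / 8 := by
    apply expo (K := 3) (T := n) (by linarith) _ h2T
    rw [hTτ]
    calc (R.card : ℝ) ≤ 1 + 2 * ((n : ℝ) ^ (17 / 20 : ℝ)) / 1 := hRT
      _ ≤ 3 * (n : ℝ) ^ (17 / 20 : ℝ) := by linarith
  have hRne : R.Nonempty := Finset.card_pos.mp hRpos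
  obtain ⟨t0, ht0⟩ := hRne
  refine ⟨w, τ, W, rfl, ⟨t0, hE'E (hR1 t0 ht0).1, fun i => (hlev t0 (hR1 t0 ht0).1 i).1⟩, ?_⟩
  refine ⟨hw0, by linarith, by linarith, ?_⟩
  intro i k hk hkb
  have h1 := hlv n t4 (a i) (N i) (b i) (w i) (17 / 20) T0 τ R (hN i) (hb i) (ha i) (by positivity) (by linarith) hR2
    hRsub (fun t ht => (hlev t (hR1 t ht).1 i).1) hTτ.le k hk hkb
  refine ⟨?_, ?_, ?_⟩
  · have := h1.mv; linarith
  · have := h1.hx; linarith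
  · intro q t hq hqQ ht1 ht2
    have := h1.gm q t hq hqQ ht1 (by linarith)
    linarith

end Pool.Agent.Work.MP_a8fbd7_nt.OX.CW
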