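import Mathlib
import Pool.Agent.Work.MP_a8fbd7_nt.OX.CW.Defs

/-!
MP_a8fbd7_nt, block OX, part CW: the exponent table for windows of length `T^(17/20)` (so `H = T^(3/20)`).
-/

set_option autoImplicit false

namespace Pool.Agent.Work.MP_a8fbd7_nt.OX.CW

namespace TabW_aux

/-- region A: a power of length in `[17/20, 1 - 1/500]` -/
theorem regA (l v tau th s v0 : ℝ) (hv0 : 0 < v0) (hv : v0 ≤ v) (hs : 1000 * s < v0) (hth : th ≤ 1 / 1000)
    (hl1 : 17 / 20 ≤ l) (hl2 : l ≤ 998 / 1000)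
    (hlo : (2 - th) * v - 2 * s ≤ tau) (hmv : tau ≤ 2 * (l * v) + max 0 (17 / 20 - l) + s) : False := by
  have h0 : max 0 (17 / 20 - l) = 0 := max_eq_left (by linarith)
  rw [h0] at hmv
  have hvp : 0 < v := by linarith
  nlinarith [mul_nonneg hvp.le (by linarith : (0 : ℝ) ≤ 998 / 1000 - l), mul_nonneg hvp.le (by linarith : (0 : ℝ) ≤ 1 / 1000 - th)]

/-- region B: mean value and Huxley -/
theorem regB (l v tau th s v0 : ℝ) (hv0 : 0 < v0) (hv : v0 ≤ v) (hs0 : 0 < s) (hs : 1000 * s < v0) (hs1 : 1000000 * s ≤ 1)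
    (hth0 : 0 ≤ th) (hth : th ≤ 1 / 1000)
    (hl1 : 71 / 100 ≤ l) (hl2 : l ≤ 17 / 20)
    (hlo : (2 - th) * v - 2 * s ≤ tau) (hmv : tau ≤ 2 * (l * v) + max 0 (17 / 20 - l) + s)
    (hhx : tau ≤ max (2 * (l * v)) (17 / 20 + 6 * (l * v) - 2 * l) + s) : False := by
  have h0 : max 0 (17 / 20 - l) = 17 / 20 - l := max_eq_right (by linarith)
  rw [h0] at hmv
  have hvp : 0 < v := by linarith
  rcases le_max_iff.1 (show tau - s ≤ max (2 * (l * v)) (17 / 20 + 6 * (l * v) - 2 * l) by linarith) with h | h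
  · nlinarith [mul_nonneg hvp.le (by linarith : (0 : ℝ) ≤ 17 / 20 - l), mul_nonneg hvp.le (by linarith : (0 : ℝ) ≤ 1 / 1000 - th)]
  · have h1 : v * (2 - th - 2 * l) ≤ 17 / 20 - l + 3 * s := by nlinarith
    have h2 : 2 * l - 17 / 20 - 3 * s ≤ v * (6 * l - 2 + th) := by nlinarith
    have h3 := mul_le_mul_of_nonneg_right h1 (by linarith : (0 : ℝ) ≤ 6 * l - 2 + th)
    have h4 := mul_le_mul_of_nonneg_right h2 (by linarith : (0 : ℝ) ≤ 2 - th - 2 * l)
    have h5 : (2 * l - 17 / 20 - 3 * s) * (2 - th - 2 * l) ≤ (17 / 20 - l + 3 * s) * (6 * l - 2 + th) := by nlinarith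
    nlinarith [mul_nonneg (by linarith : (0 : ℝ) ≤ l - 71 / 100) (by linarith : (0 : ℝ) ≤ l - 71 / 100),
      mul_nonneg hs0.le (by linarith : (0 : ℝ) ≤ 17 / 20 - l), mul_nonneg hth0 (by linarith : (0 : ℝ) ≤ 17 / 20 - l),
      mul_nonneg hth0 hs0.le, mul_nonneg (by linarith : (0 : ℝ) ≤ 1 / 1000 - th) hs0.le,
      mul_nonneg (by linarith : (0 : ℝ) ≤ 1 / 1000 - th) (by linarith : (0 : ℝ) ≤ 17 / 20 - l)]

/-- region E: `f²` of length in `[0.6653, 0.71]`, mean value, Huxley and Guth-Maynard with `q = 6`, `t = 6l/5` -/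
theorem regE (l v tau th s v0 : ℝ) (hv0 : 0 < v0) (hv : v0 ≤ v) (hs0 : 0 < s) (hs : 1000 * s < v0) (hs1 : 1000000 * s ≤ 1)
    (hth0 : 0 ≤ th) (hth : th ≤ 1 / 1000)
    (hl1 : 66532 / 100000 ≤ l) (hl2 : l ≤ 71 / 100)
    (hlo : (2 - th) * v - 2 * s ≤ tau) (hmv : tau ≤ 2 * (l * v) + max 0 (17 / 20 - l) + s)
    (hhx : tau ≤ max (2 * (l * v)) (17 / 20 + 6 * (l * v) - 2 * l) + s)
    (hgm : tau ≤ GMw (17 / 20) 6 l (l * v) (6 * l / 5) + s) : False := by
  have h0 : max 0 (17 / 20 - l) = 17 / 20 - l := max_eq_right (by linarith)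
  rw [h0] at hmv
  have hvp : 0 < v := by linarith
  have hv24 : 24 / 100 ≤ v := by
    rcases le_max_iff.1 (show tau - s ≤ max (2 * (l * v)) (17 / 20 + 6 * (l * v) - 2 * l) by linarith) with h | h
    · exfalso
      nlinarith [mul_nonneg hvp.le (by linarith : (0 : ℝ) ≤ 71 / 100 - l), mul_nonneg hvp.le (by linarith : (0 : ℝ) ≤ 1 / 1000 - th)]
    · by_contra hc
      push Not at hc
      nlinarith [mul_nonneg hvp.le (by linarith : (0 : ℝ) ≤ 1 / 1000 - th),
        mul_pos (by linarith : (0 : ℝ) < 24 / 100 - v) (by linarith : (0 : ℝ) < 6 * l - 2)]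
  have hv27 : v ≤ 2764 / 10000 := by
    by_contra hc
    push Not at hc
    nlinarith [mul_nonneg hvp.le (by linarith : (0 : ℝ) ≤ 1 / 1000 - th),
      mul_pos (by linarith : (0 : ℝ) < v - 2764 / 10000) (by linarith : (0 : ℝ) < 1999 / 1000 - 2 * l)]
  have hlo' : 1999 / 1000 * v - 2 * s ≤ tau := by
    nlinarith [mul_nonneg hvp.le (by linarith : (0 : ℝ) ≤ 1 / 1000 - th)]
  have e1 := mul_nonneg (by linarith : (0 : ℝ) ≤ l - 66532 / 100000) (by linarith : (0 : ℝ) ≤ v - 24 / 100)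
  have e2 := mul_nonneg (by linarith : (0 : ℝ) ≤ l - 66532 / 100000) (by linarith : (0 : ℝ) ≤ 2764 / 10000 - v)
  have e3 := mul_nonneg (by linarith : (0 : ℝ) ≤ 71 / 100 - l) (by linarith : (0 : ℝ) ≤ v - 24 / 100)
  have e4 := mul_nonneg (by linarith : (0 : ℝ) ≤ 71 / 100 - l) (by linarith : (0 : ℝ) ≤ 2764 / 10000 - v)
  have hM : ∃ M : ℝ, max 0 (17 / 20 - 6 * l / 5) = M ∧ (M = 0 ∧ 17 / 20 ≤ 6 * l / 5 ∨ M = 17 / 20 - 6 * l / 5 ∧ 6 * l / 5 ≤ 17 / 20) := by
    rcases le_total (17 / 20 : ℝ) (6 * l / 5) with h | h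
    · exact ⟨0, max_eq_left (by linarith), Or.inl ⟨rfl, h⟩⟩
    · exact ⟨17 / 20 - 6 * l / 5, max_eq_right (by linarith), Or.inr ⟨rfl, h⟩⟩
  obtain ⟨M, hM1, hM2⟩ := hM
  unfold GMw at hgm
  rw [hM1] at hgm
  have key : tau - M - s ≤ max (2 * (l * v)) (max (4 * (6 * l / 5) / 3 - 2 * l + 4 * (l * v)) (max (6 * l / 5 / 2 - l + 4 * (l * v))
    (max (6 * l / 5 - 2 * l + 16 * (l * v) / 3) (max (6 * l / 5 - 2 * l + 28 * (l * v) / 5) (max (3 * (6 * l / 5) / 2 - 3 * l + 7 * (l * v))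
      (max (((6 : ℕ) : ℝ) / ((6 : ℕ) + 1) * (6 * l / 5 / (6 : ℕ) - l + 6 * (l * v))) (((6 : ℕ) : ℝ) / ((6 : ℕ) + 1) * (6 * l / 5 - 2 * l + 6 * (l * v))))))))) := by
    linarith
  push_cast at key
  simp only [le_max_iff] at key
  rcases hM2 with ⟨hM3, hM4⟩ | ⟨hM3, hM4⟩ <;> rw [hM3] at key <;>
  rcases key with h | h | h | h | h | h | h | h <;> nlinarith

end TabW_aux

open TabW_aux

/-- **The table for windows of length `T^(17/20)`.** -/
theorem tabW (b1 v0 th : ℝ) (hb1 : b1 < 1 / 2) (hv0 : 0 < v0) (hth0 : 0 ≤ th) (hth : th ≤ 1 / 1000) (hth1 : th ≤ 1 - 2 * b1) :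
    TabW (17 / 20) b1 v0 th := by
  set s : ℝ := min (1 / 1000000) (v0 * min (1 / 2000) ((1 - 2 * b1) / 4)) with hsdef
  have hm0 : 0 < min (1 / 2000) ((1 - 2 * b1) / 4) := lt_min (by norm_num) (by linarith)
  have hs0 : 0 < s := lt_min (by norm_num) (mul_pos hv0 hm0)
  have hs1 : 1000000 * s ≤ 1 := by
    have := min_le_left (1 / 1000000 : ℝ) (v0 * min (1 / 2000) ((1 - 2 * b1) / 4))
    linarith
  have hs2 : 1000 * s < v0 := by
    have h1 := min_le_right (1 / 1000000 : ℝ) (v0 * min (1 / 2000) ((1 - 2 * b1) / 4))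
    have h2 := mul_le_mul_of_nonneg_left (min_le_left (1 / 2000 : ℝ) ((1 - 2 * b1) / 4)) hv0.le
    have : s ≤ v0 * (1 / 2000) := h1.trans h2
    nlinarith
  have hs3 : 4 * s ≤ v0 * (1 - 2 * b1) := by
    have h1 := min_le_right (1 / 1000000 : ℝ) (v0 * min (1 / 2000) ((1 - 2 * b1) / 4))
    have h2 := mul_le_mul_of_nonneg_left (min_le_right (1 / 2000 : ℝ) ((1 - 2 * b1) / 4)) hv0.le
    have : s ≤ v0 * ((1 - 2 * b1) / 4) := h1.trans h2
    nlinarith
  refine ⟨s, hs0, 6, ?_⟩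
  intro b w tau W hb hbb hvw hwb hW htau hLV
  obtain ⟨v, rfl⟩ : ∃ v, w = v * b := ⟨w / b, by field_simp⟩
  have hv : v0 ≤ v := le_of_mul_le_mul_right hvw hb
  have hvp : 0 < v := by linarith
  have hv1 : v ≤ 1 := by
    by_contra hc
    push Not at hc
    nlinarith
  have hlo : (2 - th) * v - 2 * s ≤ tau := by
    have : (2 - th) * v * b ≤ (W + s) * b := by nlinarith
    have := le_of_mul_le_mul_right this hb
    linarith
  have mv : ∀ k : ℕ, 1 ≤ k → k * b ≤ 2 → tau ≤ 2 * (k * b * v) + max 0 (17 / 20 - k * b) + s := by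
    intro k hk hk2
    have := (hLV k hk hk2).mv
    have e : (k : ℝ) * (v * b) = k * b * v := by ring
    rwa [e] at this
  have hx : ∀ k : ℕ, 1 ≤ k → k * b ≤ 2 → tau ≤ max (2 * (k * b * v)) (17 / 20 + 6 * (k * b * v) - 2 * (k * b)) + s := by
    intro k hk hk2
    have := (hLV k hk hk2).hx
    have e : (k : ℝ) * (v * b) = k * b * v := by ring
    rwa [e] at this
  -- region A
  have A : ∀ k : ℕ, 1 ≤ k → 17 / 20 ≤ k * b → k * b ≤ 998 / 1000 → False := by
    intro k hk h1 h2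
    exact regA (k * b) v tau th s v0 hv0 hv hs2 hth h1 h2 hlo (mv k hk (by linarith))
  have B : ∀ k : ℕ, 1 ≤ k → 71 / 100 ≤ k * b → k * b ≤ 17 / 20 → False := by
    intro k hk h1 h2
    exact regB (k * b) v tau th s v0 hv0 hv hs0 hs2 hs1 hth0 hth h1 h2 hlo (mv k hk (by linarith)) (hx k hk (by linarith))
  rcases le_total b (148 / 1000) with c1 | c1
  · -- many powers
    set k : ℕ := ⌈17 / 20 / b⌉₊ with hk
    have hkpos : 1 ≤ k := Nat.one_le_iff_ne_zero.2 (by
      intro h0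
      have : (17 / 20 / b : ℝ) ≤ 0 := Nat.ceil_eq_zero.1 (hk ▸ h0)
      have : 0 < 17 / 20 / b := by positivity
      linarith)
    have h1 : 17 / 20 ≤ k * b := by
      have := Nat.le_ceil (17 / 20 / b)
      rw [← hk] at this
      rwa [div_le_iff₀ hb] at this
    have h2 : (k : ℝ) * b < 17 / 20 + b := by
      have := Nat.ceil_lt_add_one (show 0 ≤ 17 / 20 / b by positivity)
      rw [← hk] at this
      have := mul_lt_mul_of_pos_right this hb
      rw [add_mul, one_mul, div_mul_cancel₀ _ hb.ne'] at this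
      exact this
    exact A k hkpos h1 (by linarith)
  rcases le_total b (1663 / 10000) with c2 | c2
  · exact A 6 (by norm_num) (by push_cast; linarith) (by push_cast; linarith)
  rcases le_total b (17 / 100) with c3 | c3
  · exact B 5 (by norm_num) (by push_cast; linarith) (by push_cast; linarith)
  rcases le_total b (1996 / 10000) with c4 | c4
  · exact A 5 (by norm_num) (by push_cast; linarith) (by push_cast; linarith)
  rcases le_total b (17 / 80) with c5 | c5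
  · exact B 4 (by norm_num) (by push_cast; linarith) (by push_cast; linarith)
  rcases le_total b (2495 / 10000) with c6 | c6
  · exact A 4 (by norm_num) (by push_cast; linarith) (by push_cast; linarith)
  rcases le_total b (17 / 60) with c7 | c7
  · exact B 3 (by norm_num) (by push_cast; linarith) (by push_cast; linarith)
  rcases le_total b (33266 / 100000) with c8 | c8
  · exact A 3 (by norm_num) (by push_cast; linarith) (by push_cast; linarith)
  rcases le_total b (355 / 1000) with c9 | c9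
  · have hk2 : ((2 : ℕ) : ℝ) * b ≤ 2 := by push_cast; linarith
    have g := (hLV 2 (by norm_num) hk2).gm 6 (6 * (2 * b) / 5) (by norm_num) le_rfl
      (by push_cast; linarith) (by push_cast; linarith)
    have e : ((2 : ℕ) : ℝ) * (v * b) = 2 * b * v := by push_cast; ring
    have e' : ((2 : ℕ) : ℝ) * b = 2 * b := by push_cast; ring
    rw [e, e'] at g
    have m2 := mv 2 (by norm_num) hk2
    have x2 := hx 2 (by norm_num) hk2
    rw [e'] at m2 x2
    exact regE (2 * b) v tau th s v0 hv0 hv hs0 hs2 hs1 hth0 hth (by linarith) (by linarith) hlo m2 x2 g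
  rcases le_total b (17 / 40) with c10 | c10
  · exact B 2 (by norm_num) (by push_cast; linarith) (by push_cast; linarith)
  -- `b` close to `1/2`
  have m2 := mv 2 (by norm_num) (by push_cast; linarith)
  push_cast at m2
  rw [max_eq_left (by linarith : (17 / 20 - 2 * b : ℝ) ≤ 0)] at m2
  nlinarith [mul_nonneg hvp.le (by linarith : (0 : ℝ) ≤ b1 - b), mul_nonneg hvp.le (by linarith : (0 : ℝ) ≤ 1 - 2 * b1 - th),
    mul_nonneg (by linarith : (0 : ℝ) ≤ v - v0) (by linarith : (0 : ℝ) ≤ 1 - 2 * b1)]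

end Pool.Agent.Work.MP_a8fbd7_nt.OX.CW
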