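import Mathlib
import Pool.Agent.Work.MP_a8fbd7_nt.OX.CW.ClsW
import Pool.Agent.Work.MP_a8fbd7_nt.OX.CW.TabW

/-!
MP_a8fbd7_nt, block OX, part CW: the logic of the cells (real arithmetic).
Author: helper86.
-/

set_option autoImplicit false

open MeasureTheory Set Filter Topology

noncomputable section

namespace Pool.Agent.Work.MP_a8fbd7_nt.OX.CW

/-- an inequality with a smaller tolerance implies the one with a larger tolerance -/
theorem LVw.mono {h b w τ s s' : ℝ} {Q Q' k : ℕ} (H : LVw h b w τ s Q k) (hs : s ≤ s') (hQ : Q' ≤ Q) : LVw h b w τ s' Q' k :=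
  ⟨by have := H.mv; linarith, by have := H.hx; linarith, fun q t h1 h2 h3 h4 => by
    have := H.gm q t h1 (h2.trans hQ) h3 (by linarith)
    linarith⟩

/-- the minimum of `w i / b i` -/
theorem min_gain {m : ℕ} (hm : 0 < m) (b w : Fin m → ℝ) (hb : ∀ i, 0 < b i) :
    ∃ (i : Fin m) (v : ℝ), w i = v * b i ∧ ∀ j, v * b j ≤ w j := by
  haveI : Nonempty (Fin m) := ⟨⟨0, hm⟩⟩
  obtain ⟨i, hi⟩ := Finite.exists_min (fun i => w i / b i)
  refine ⟨i, w i / b i, by field_simp [(hb i).ne'], fun j => ?_⟩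
  have := hi j
  rwa [le_div_iff₀ (hb j)] at this

/-- **LOGIC A** -/
theorem laW (κ2 : ℝ) (h2 : 0 < κ2) (h20 : κ2 ≤ 1 / 20) : ∃ s0 : ℝ, 0 < s0 ∧ s0 ≤ 1 ∧ ∃ Q : ℕ,
    ∀ (m : ℕ) (b w : Fin m → ℝ) (tau W s : ℝ), 0 < s → s ≤ s0 → (∀ i, 0 < b i ∧ b i ≤ 1 / 2 + κ2 / 100) → ∑ i, b i ≤ 2 - κ2 →
      ∑ i, w i + 1 - (∑ i, b i) / 2 - s ≤ W → ClsW b w tau W s Q → False := by
  obtain ⟨sT, hsT, Q, hT⟩ := tabW (49 / 100) (κ2 / 100) 0 (by norm_num) (by positivity) le_rfl (by norm_num) (by norm_num)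
  refine ⟨min (sT / 4) (κ2 / 200), lt_min (by positivity) (by positivity), (min_le_right _ _).trans (by linarith), Q, ?_⟩
  intro m b w tau W s hs hs0 hb hsum hW hC
  have hs1 : s ≤ sT / 4 := hs0.trans (min_le_left _ _)
  have hs2 : s ≤ κ2 / 200 := hs0.trans (min_le_right _ _)
  have hWt := hC.Wt
  have ht1 := hC.t1
  rcases Nat.eq_zero_or_pos m with h0 | hm
  · subst h0
    simp at hW
    linarith
  obtain ⟨i, v, hv, hvj⟩ := min_gain hm b w (fun i => (hb i).1)
  have hbi := hb i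
  have hv0 : 0 ≤ v := by
    have := hC.w0 i
    rw [hv] at this
    by_contra h
    push Not at h
    nlinarith [hbi.1]
  have hsw : v * ∑ i, b i ≤ ∑ i, w i := by
    rw [Finset.mul_sum]
    exact Finset.sum_le_sum fun j _ => hvj j
  set ν : ℝ := ∑ i, b i with hν
  have hν0 : 0 ≤ ν := Finset.sum_nonneg fun j _ => (hb j).1.le
  -- `v < 1/2`
  have hvh : v < 1 / 2 := by
    by_contra h
    push Not at h
    have : (1 / 2) * ν ≤ v * ν := mul_le_mul_of_nonneg_right h hν0
    linarith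
  have hW2 : 2 * v + κ2 * (1 / 2 - v) - s ≤ W := by nlinarith
  have hv43 : v ≤ 43 / 100 := by nlinarith
  have hW3 : 2 * v + 7 / 100 * κ2 - s ≤ W := by nlinarith
  rcases le_or_gt v (3 / 100) with hsm | hlg
  · -- small gain: Huxley
    set k : ℕ := ⌈1 / (2 * b i)⌉₊ with hk
    have hk1 : 1 ≤ k := Nat.one_le_ceil_iff.mpr (by have := hbi.1; positivity)
    have hk2 : 1 / 2 ≤ k * b i := by
      have := Nat.le_ceil (1 / (2 * b i))
      rw [← hk, div_le_iff₀ (by linarith [hbi.1])] at this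
      linarith
    have hk3 : k * b i ≤ 1 / 2 + b i := by
      have := Nat.ceil_lt_add_one (show 0 ≤ 1 / (2 * b i) by have := hbi.1; positivity)
      rw [← hk] at this
      have h3 : (k : ℝ) * b i < (1 / (2 * b i) + 1) * b i := mul_lt_mul_of_pos_right this hbi.1
      have h4 : (1 / (2 * b i) + 1) * b i = 1 / 2 + b i := by
        have := hbi.1.ne'
        field_simp
      linarith
    have hx := (hC.lv i k hk1 (by linarith [hbi.2])).hx
    rw [hv] at hx
    have h5 : (k : ℝ) * (v * b i) = v * (k * b i) := by ring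
    rw [h5] at hx
    have h6 : v * (k * b i) ≤ v * (1 / 2 + (1 / 2 + κ2 / 100)) := mul_le_mul_of_nonneg_left (by linarith [hbi.2]) hv0
    have h7 : v * (κ2 / 100) ≤ κ2 / 1000 := by nlinarith
    have h8 : max (2 * (v * (k * b i))) (17 / 20 + 6 * (v * (k * b i)) - 2 * (k * b i)) ≤ 2 * v + κ2 / 500 := by
      apply max_le
      · nlinarith
      · nlinarith
    linarith
  · rcases le_or_gt (b i) (49 / 100) with hb49 | hb49
    · refine hT (b i) (w i) tau W hbi.1 hb49 (by rw [hv]; nlinarith [hbi.1]) (by rw [hv]; nlinarith [hbi.1]) ?_ (by linarith)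
        (fun k hk1 hk2 => (hC.lv i k hk1 hk2).mono (by linarith) le_rfl)
      rw [hv]
      have : 2 * v ≤ W + sT := by linarith
      nlinarith [hbi.1]
    · have mv := (hC.lv i 2 (by norm_num) (by push_cast; linarith [hbi.2])).mv
      have h9 : max (0 : ℝ) (17 / 20 - ((2 : ℕ) : ℝ) * b i) = 0 := max_eq_left (by push_cast; linarith)
      rw [h9, hv] at mv
      push_cast at mv
      have h10 : v * b i ≤ v * (1 / 2 + κ2 / 100) := mul_le_mul_of_nonneg_left hbi.2 hv0
      nlinarith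

open Classical in
/-- **LOGIC B** -/
theorem lbW (β : ℝ) (hβ : 0 < β) (hβ1 : β ≤ 1 / 20) : ∃ κ : ℝ, 0 < κ ∧ κ ≤ β / 4000 ∧ ∃ s0 : ℝ, 0 < s0 ∧ s0 ≤ 1 ∧ ∃ Q : ℕ,
    ∀ (m : ℕ) (b w : Fin m → ℝ) (tau W s : ℝ), 0 < s → s ≤ s0 → (∀ i, 0 < b i ∧ b i ≤ 1 / 2 + κ) → 2 - κ ≤ ∑ i, b i →
      β ≤ ∑ i ∈ Finset.univ.filter (fun i => b i ≤ 41 / 100), b i → (∀ i, b i / 60 ≤ w i) → ∑ i, w i - s ≤ W →
      ClsW b w tau W s Q → False := by
  obtain ⟨sT, hsT, Q, hT⟩ := tabW (49 / 100) (1 / 60) (1 / 1000) (by norm_num) (by norm_num) (by norm_num) (by norm_num) (by norm_num)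
  refine ⟨min (β / 10 ^ 7) (sT / 10), lt_min (by positivity) (by positivity), (min_le_left _ _).trans (by linarith),
    min (sT / 10) (β / 10 ^ 7), lt_min (by positivity) (by positivity), (min_le_right _ _).trans (by linarith), Q, ?_⟩
  set κ : ℝ := min (β / 10 ^ 7) (sT / 10) with hκ
  have hκ1 : κ ≤ β / 10 ^ 7 := min_le_left _ _
  have hκ2 : κ ≤ sT / 10 := min_le_right _ _
  have hκ0 : 0 < κ := lt_min (by positivity) (by positivity)
  intro m b w tau W s hs hs0 hb hsum hsmall hw60 hW hC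
  have hs1 : s ≤ sT / 10 := hs0.trans (min_le_left _ _)
  have hs2 : s ≤ β / 10 ^ 7 := hs0.trans (min_le_right _ _)
  have hWt := hC.Wt
  have ht1 := hC.t1
  rcases Nat.eq_zero_or_pos m with h0 | hm
  · subst h0
    simp at hsum
    linarith
  obtain ⟨i, v, hv, hvj⟩ := min_gain hm b w (fun i => (hb i).1)
  have hbi := hb i
  have hv60 : 1 / 60 ≤ v := by
    have := hw60 i
    rw [hv] at this
    by_contra h
    push Not at h
    nlinarith [hbi.1]
  have hv0 : 0 < v := by linarith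
  have hsw : v * ∑ i, b i ≤ ∑ i, w i := by
    rw [Finset.mul_sum]
    exact Finset.sum_le_sum fun j _ => hvj j
  have hW2 : (2 - κ) * v - s ≤ W := by nlinarith
  have hv43 : v ≤ 1 / 2 := by nlinarith
  rcases le_or_gt (b i) (49 / 100) with hb49 | hb49
  · -- the table for the block `i`
    refine hT (b i) (w i) tau W hbi.1 hb49 (by rw [hv]; nlinarith [hbi.1]) (by rw [hv]; nlinarith [hbi.1]) ?_ (by linarith)
      (fun k hk1 hk2 => (hC.lv i k hk1 hk2).mono (by linarith) le_rfl)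
    rw [hv]
    have : (2 - 1 / 1000) * v ≤ W + sT := by nlinarith
    nlinarith [hbi.1]
  · by_cases hl : ∃ l, b l ≤ 41 / 100 ∧ w l ≤ (1 + 1 / 4000) * v * b l
    · obtain ⟨l, hl1, hl2⟩ := hl
      have hbl := hb l
      refine hT (b l) (w l) tau W hbl.1 (by linarith) (by have := hw60 l; linarith) (by nlinarith [hbl.1]) ?_ (by linarith)
        (fun k hk1 hk2 => (hC.lv l k hk1 hk2).mono (by linarith) le_rfl)
      have h1 : (2 - 1 / 1000) * ((1 + 1 / 4000) * v) ≤ W + sT := by nlinarith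
      have h2 : (2 - 1 / 1000) * w l ≤ (2 - 1 / 1000) * ((1 + 1 / 4000) * v * b l) := by
        apply mul_le_mul_of_nonneg_left hl2 (by norm_num)
      nlinarith [hbl.1]
    · push Not at hl
      -- all small blocks have a larger gain
      have hsw2 : v * (∑ i, b i) + 1 / 4000 * v * β ≤ ∑ i, w i := by
        have h1 : ∀ j, v * b j + (if b j ≤ 41 / 100 then 1 / 4000 * v * b j else 0) ≤ w j := by
          intro j
          split_ifs with h
          · have := hl j h; nlinarith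
          · have := hvj j; linarith
        have h2 := Finset.sum_le_sum (s := Finset.univ) fun j (_ : j ∈ Finset.univ) => h1 j
        rw [Finset.sum_add_distrib, ← Finset.mul_sum, ← Finset.sum_filter, ← Finset.mul_sum] at h2
        have h3 : 1 / 4000 * v * β ≤ 1 / 4000 * v * ∑ i ∈ Finset.univ.filter (fun i => b i ≤ 41 / 100), b i :=
          mul_le_mul_of_nonneg_left hsmall (by positivity)
        linarith
      have mv := (hC.lv i 2 (by norm_num) (by push_cast; linarith [hbi.2])).mv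
      have h9 : max (0 : ℝ) (17 / 20 - ((2 : ℕ) : ℝ) * b i) = 0 := max_eq_left (by push_cast; linarith)
      rw [h9, hv] at mv
      push_cast at mv
      have h10 : v * b i ≤ v * (1 / 2 + κ) := mul_le_mul_of_nonneg_left hbi.2 hv0.le
      have h11 : v * (2 - κ) ≤ v * ∑ i, b i := mul_le_mul_of_nonneg_left hsum hv0.le
      have h12 : v * κ ≤ 1 / 2 * (β / 10 ^ 7) := mul_le_mul hv43 hκ1 hκ0.le (by norm_num)
      have h13 : 1 / 60 * β ≤ v * β := mul_le_mul_of_nonneg_right hv60 hβ.le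
      nlinarith

end Pool.Agent.Work.MP_a8fbd7_nt.OX.CW
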