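import Mathlib
import Pool.Agent.Work.MP_a8fbd7_nt.OX.ASM.Stmts
import Pool.Agent.Work.MP_a8fbd7_nt.OX.CW.Geo

/-!
MP_a8fbd7_nt, block OX, part CW: statements of the averaged versions (windows of `H` consecutive `n`, `N^(3/20) ≤ H ≤ 4 N^(3/20)`).
Author: helper86.
-/

set_option autoImplicit false

open MeasureTheory Set Filter Topology

noncomputable section

namespace Pool.Agent.Work.MP_a8fbd7_nt.OX.CW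

open Pool.Agent.Work.MP_56b8f5_nt.UC (IsWt Bl Dp Om psi eta Sep)
open Pool.Agent.Work.MP_a8fbd7_nt.OX
open Pool.Agent.Work.MP_a8fbd7_nt.OX.ASM
open Pool.Agent.Work.MP_a8fbd7_nt.OX.ID (Rough roughOne pb rg)

/-- boxes without long slots, on average -/
def StBBW : Prop := ∀ β : ℝ, 0 < β → β ≤ 1 / 20 → ∃ κ : ℝ, 0 < κ ∧ κ ≤ β / 100 ∧ ∀ w : ℝ → ℝ, IsWt w → ∀ η κ1 A : ℝ, 0 < η → η ≤ 1 / 20 →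
  0 < κ1 → κ1 ≤ 1 / 20 → 0 < A → ∃ B0 : ℝ, 1 ≤ B0 ∧ ∀ B : ℝ, B0 ≤ B → ∃ C : ℝ, 1 ≤ C ∧
  ∀ (n H : ℕ) (T : ℝ) (u : Fin 3 → Option ℕ) (v : Fin (SS η) → Option ℕ), T = n → C ≤ T → T ^ (3 / 20 : ℝ) ≤ H →
  (H : ℝ) ≤ 4 * T ^ (3 / 20 : ℝ) → (∀ i, ¬ Lg T κ (u i)) → Sh T β u v →
  |∑ x ∈ Pt n H, DD w (BF (zz η T) (zz (1 / 2 - κ1) T) u v) x T (Real.log T ^ B)| ≤ H * (1 / Real.log T ^ A)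

/-- boxes with a long slot, on average -/
def StAAW : Prop := ∀ κ2 : ℝ, 0 < κ2 → κ2 ≤ 1 / 20 → ∃ κ3 κ' : ℝ, 0 < κ3 ∧ κ3 ≤ κ2 / 10 ∧ 0 < κ' ∧ κ' ≤ κ3 / 10 ∧ ∀ w : ℝ → ℝ, IsWt w →
  ∀ η κ1 A : ℝ, 0 < η → η ≤ κ' → 0 < κ1 → κ1 ≤ 1 / 20 → 0 < A → ∃ B0 : ℝ, 1 ≤ B0 ∧ ∀ B : ℝ, B0 ≤ B → ∃ C : ℝ, 1 ≤ C ∧
  ∀ (n H : ℕ) (T : ℝ) (u : Fin 3 → Option ℕ) (v : Fin (SS η) → Option ℕ) (lw : Fin 3 → ℕ → ℝ), T = n → C ≤ T →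
  T ^ (3 / 20 : ℝ) ≤ H → (H : ℝ) ≤ 4 * T ^ (3 / 20 : ℝ) → (∃ i, Lg T κ2 (u i)) →
  (∀ i d, |lw i d| ≤ 2) → (∀ i d, lw i d ≠ 0 → 1 ≤ d ∧ (d : ℝ) ≤ T ^ κ') →
  |∑ x ∈ Pt n H, DD w (BFA (zz η T) (zz (1 / 2 - κ1) T) T κ3 lw u v) x T (Real.log T ^ B)| ≤ H * (1 / Real.log T ^ A)

/-- the mean value of the smoothed numbers of primes -/
def StMnW : Prop := ∀ w : ℝ → ℝ, IsWt w → (∀ u, 0 ≤ w u) → ∀ δ : ℝ, 0 < δ → ∃ C : ℝ, 1 ≤ C ∧ ∀ (n H : ℕ) (T : ℝ), T = n → C ≤ T →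
  T ^ (3 / 20 : ℝ) ≤ H → (H : ℝ) ≤ 4 * T ^ (3 / 20 : ℝ) →
  |∑ x ∈ Pt n H, T / x * SW w pr x T - H * (Iw w / (2 * Real.log T))| ≤ H * (δ / Real.log T)

end Pool.Agent.Work.MP_a8fbd7_nt.OX.CW
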