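import Mathlib
import Pool.Agent.Work.MP_a8fbd7_nt.OX.CW.Stmts
import Pool.Agent.Work.MP_a8fbd7_nt.OX.CW.Cell
import Pool.Agent.Work.MP_a8fbd7_nt.OX.ASM.I_BB

/-!
MP_a8fbd7_nt, block OX, part CW: boxes without long slots, on average over a window (from the cell theorem B for windows).
Author: helper86.
-/

set_option autoImplicit false

open MeasureTheory Set Filter Topology

noncomputable section

namespace Pool.Agent.Work.MP_a8fbd7_nt.OX.CW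

open Pool.Agent.Work.MP_56b8f5_nt.UC (IsWt Bl Dp Om psi eta Sep)
open Pool.Agent.Work.MP_a8fbd7_nt.OX
open Pool.Agent.Work.MP_a8fbd7_nt.OX.ASM
open Pool.Agent.Work.MP_a8fbd7_nt.OX.ID (Rough roughOne pb rg)

/-- the weight of StF4 for `g0 = 1` -/
theorem g_eq {T : ℝ} {g : ℝ → ℂ} (hg : (∀ x, g x = if T ^ 2 ≤ x then (1 : ℂ) * ((T ^ 2 / x : ℝ) : ℂ) else 0) ∨
    (∀ x, g x = if T ^ 2 ≤ x then (starRingEnd ℂ) (1 : ℂ) * ((T ^ 2 / x : ℝ) : ℂ) else 0)) : g = gC T := by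
  funext x
  unfold gC
  rcases hg with hg | hg
  · rw [hg x, one_mul]
  · rw [hg x, map_one, one_mul]

/-- the points of a window -/
theorem win {n H : ℕ} {T : ℝ} (hTn : T = n) (hT : (10 : ℝ) ^ 8 ≤ T) (hH1 : T ^ (3 / 20 : ℝ) ≤ H)
    (hH2 : (H : ℝ) ≤ 4 * T ^ (3 / 20 : ℝ)) : (Pt n H).Nonempty ∧ (∀ x ∈ Pt n H, T ^ 2 ≤ x ∧ x ≤ 4 * T ^ 2) := by
  have hHn : H ≤ n := H_le_N (by rw [← hTn]; exact hT) (by rw [← hTn]; exact hH2)
  have hT1 : (1 : ℝ) ≤ T := by linarith [show (1 : ℝ) ≤ 10 ^ 8 by norm_num]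
  have hH : 0 < H := by
    have h1 : (1 : ℝ) ≤ T ^ (3 / 20 : ℝ) := Real.one_le_rpow hT1 (by norm_num)
    have h2 : (0 : ℝ) < H := by linarith
    exact_mod_cast h2
  constructor
  · rw [← Finset.card_pos, card_Pt]
    exact hH
  · intro x hx
    obtain ⟨k, hk1, hk2, rfl⟩ := mem_Pt hx
    have h1 : (n : ℝ) ≤ k := by exact_mod_cast hk1.le
    have h2 : (k : ℝ) ≤ 2 * n := by
      have : k ≤ 2 * n := by omega
      exact_mod_cast this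
    have h0 : (0 : ℝ) ≤ n := Nat.cast_nonneg n
    rw [hTn]
    constructor
    · exact pow_le_pow_left₀ h0 h1 2
    · calc (k : ℝ) ^ 2 ≤ (2 * n) ^ 2 := pow_le_pow_left₀ (h0.trans h1) h2 2
        _ = 4 * (n : ℝ) ^ 2 := by ring

/-- a large sum in the form of `red` -/
theorem big {P : Finset ℝ} {D : ℝ → ℝ} {c : ℝ} (h : c < |∑ x ∈ P, D x|) :
    c ≤ ‖∑ x ∈ P, (fun _ : ℝ => (1 : ℂ)) x * ((D x : ℝ) : ℂ)‖ := by
  have h1 : ∑ x ∈ P, (fun _ : ℝ => (1 : ℂ)) x * ((D x : ℝ) : ℂ) = ((∑ x ∈ P, D x : ℝ) : ℂ) := by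
    push_cast
    exact Finset.sum_congr rfl fun x _ => one_mul _
  rw [h1, Complex.norm_real, Real.norm_eq_abs]
  exact h.le

theorem iBBW (hC : StCellBW) (hF4 : StF4) (hPd : StPd) (hRg : StRg) (hSa : StSa) : StBBW := by
  intro β hβ hβ2
  obtain ⟨κ, hκ, hκβ, hC1⟩ := hC β hβ hβ2
  refine ⟨κ, hκ, hκβ, ?_⟩
  intro w hw η κ1 A hη hη2 hκ1 hκ12 hA
  obtain ⟨ε, hε, hε2, hC2⟩ := hC1 η hη hη2
  obtain ⟨A1, C1, hA1, hC11, hC3⟩ := hC2 (A + 2) (by linarith)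
  obtain ⟨B0, hB0, hR⟩ := BB_aux.red hF4 hPd hRg hSa β κ hκ (by linarith) w hw η κ1 A ε A1 hη hη2 hκ1 hA hε hε2 hA1
  refine ⟨B0, hB0, ?_⟩
  intro B hB
  obtain ⟨C2, hC21, hR2⟩ := hR B hB
  refine ⟨max (max C1 C2) ((10 : ℝ) ^ 8), hC11.trans ((le_max_left _ _).trans (le_max_left _ _)), ?_⟩
  intro n H T u v hTn hT hH1 hH2 hLg hSh
  have hTC1 : C1 ≤ T := ((le_max_left _ _).trans (le_max_left _ _)).trans hT
  have hTC2 : C2 ≤ T := ((le_max_right _ _).trans (le_max_left _ _)).trans hT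
  have hT8 : (10 : ℝ) ^ 8 ≤ T := (le_max_right _ _).trans hT
  obtain ⟨hne, hP⟩ := win hTn hT8 hH1 hH2
  by_contra hc
  push Not at hc
  have hcard : ((Pt n H).card : ℝ) = H := by rw [card_Pt]
  obtain ⟨T', g, m, a, N, hT'1, hT'2, hg, hblk, hN, hp1, hp2, hp3, hsav, hint⟩ := hR2 T u v (Pt n H)
    (fun _ => (1 : ℂ)) hTC2 hLg hSh hne hP (fun _ => by simp) (by
      rw [hcard]
      exact big hc)
  have hgC : g = gC T := g_eq hg
  rw [hgC, hcard] at hint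
  have := hC3 n H T T' m a N hTn hTC1 hH1 hH2 hT'1 hT'2 hblk hN hp1 hp2 hp3 hsav
  linarith

end Pool.Agent.Work.MP_a8fbd7_nt.OX.CW
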