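import Mathlib
import Pool.Agent.Work.MP_a8fbd7_nt.OX.CW.Stmts
import Pool.Agent.Work.MP_a8fbd7_nt.OX.ASM.I_Mn
import Pool.Agent.Work.MP_a8fbd7_nt.OX.FIN.Diag

/-!
MP_a8fbd7_nt, block OX, part CW: from smooth windows to the numbers of primes in the two halves, and subdivision.
Author: helper86.
-/

set_option autoImplicit false

open MeasureTheory Set Filter Topology

noncomputable section

namespace Pool.Agent.Work.MP_a8fbd7_nt.OX.CW

open Pool.Agent.Work.MP_56b8f5_nt.UC (IsWt)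
open Pool.Agent.Work.MP_a8fbd7_nt.OX
open Pool.Agent.Work.MP_a8fbd7_nt.OX.ASM
open Pool.Agent.Work.MP_a8fbd7_nt.OX.ASM.Mn_aux
open Pool.Agent.Work.MP_a8fbd7_nt.OX.FIN (cA cB)

/-- upper bound by a smooth weight -/
theorem card_le_SW {w : ℝ → ℝ} (hw : IsWt w) (hw0 : ∀ u, 0 ≤ w u) (F : Finset ℕ) {x T : ℝ} (hx : 0 < x) (hT : 1 ≤ T)
    (h : ∀ p ∈ F, w (((p : ℝ) / x) ^ T) = 1) : ((F.filter Nat.Prime).card : ℝ) ≤ SW w pr x T := by
  unfold SW
  have hs := summable_SW hw pr hx hT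
  have hnn : ∀ n : ℕ, 0 ≤ pr n * w (((n : ℝ) / x) ^ T) := by
    intro n
    apply mul_nonneg _ (hw0 _)
    unfold pr
    split_ifs <;> norm_num
  calc ((F.filter Nat.Prime).card : ℝ) = ∑ p ∈ F.filter Nat.Prime, pr p * w (((p : ℝ) / x) ^ T) := by
        rw [Finset.sum_congr rfl (g := fun _ => (1 : ℝ))]
        · simp
        · intro p hp
          rw [Finset.mem_filter] at hp
          unfold pr
          rw [if_pos hp.2, h p hp.1, one_mul]
    _ ≤ _ := hs.sum_le_tsum _ fun n _ => hnn n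

/-- lower bound by a smooth weight -/
theorem SW_le_card {w : ℝ → ℝ} (hw1 : ∀ u, w u ≤ 1) (F : Finset ℕ) {x T : ℝ}
    (h : ∀ n : ℕ, w (((n : ℝ) / x) ^ T) ≠ 0 → n ∈ F) : SW w pr x T ≤ ((F.filter Nat.Prime).card : ℝ) := by
  unfold SW
  rw [tsum_eq_sum (s := F.filter Nat.Prime)]
  · calc ∑ p ∈ F.filter Nat.Prime, pr p * w (((p : ℝ) / x) ^ T) ≤ ∑ p ∈ F.filter Nat.Prime, (1 : ℝ) := by
          apply Finset.sum_le_sum
          intro p hp
          rw [Finset.mem_filter] at hp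
          unfold pr
          rw [if_pos hp.2, one_mul]
          exact hw1 _
      _ = _ := by simp
  · intro n hn
    by_cases hp : n.Prime
    · have hnF : n ∉ F := fun h1 => hn (Finset.mem_filter.mpr ⟨h1, hp⟩)
      have : w (((n : ℝ) / x) ^ T) = 0 := by
        by_contra h2
        exact hnF (h n h2)
      rw [this, mul_zero]
    · unfold pr
      rw [if_neg hp, zero_mul]

/-- the setting: `N < n ≤ N + H`, `H + 1 ≤ τ N` -/
theorem B_up {N n : ℕ} (hN : 1 ≤ N) (hNn : N < n) {w : ℝ → ℝ} (hw1 : ∀ u, Real.exp 0 ≤ u → u ≤ Real.exp 1 → w u = 1)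
    (p : ℕ) (hp : p ∈ Finset.Icc (n ^ 2) (n ^ 2 + n)) : w (((p : ℝ) / (n : ℝ) ^ 2) ^ (N : ℝ)) = 1 := by
  rw [Finset.mem_Icc] at hp
  have hn0 : (0 : ℝ) < n := by exact_mod_cast (by omega : 0 < n)
  have hN0 : (0 : ℝ) < N := by exact_mod_cast hN
  have h1 : (n : ℝ) ^ 2 ≤ p := by exact_mod_cast hp.1
  have h2 : (p : ℝ) ≤ (n : ℝ) ^ 2 + n := by exact_mod_cast hp.2
  have h3 : 1 ≤ (p : ℝ) / (n : ℝ) ^ 2 := by rw [le_div_iff₀ (by positivity)]; linarith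
  have h4 : (p : ℝ) / (n : ℝ) ^ 2 ≤ 1 + 1 / n := by
    rw [div_le_iff₀ (by positivity)]
    have : (1 + 1 / (n : ℝ)) * (n : ℝ) ^ 2 = (n : ℝ) ^ 2 + n := by field_simp
    linarith
  apply hw1
  · rw [Real.exp_zero]
    exact Real.one_le_rpow h3 hN0.le
  · calc ((p : ℝ) / (n : ℝ) ^ 2) ^ (N : ℝ) ≤ (Real.exp (1 / n)) ^ (N : ℝ) := by
          apply Real.rpow_le_rpow (by positivity) _ hN0.le
          refine h4.trans ?_
          have := Real.add_one_le_exp (1 / (n : ℝ))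
          linarith
      _ = Real.exp (1 / n * N) := by rw [← Real.exp_mul]
      _ ≤ Real.exp 1 := by
          apply Real.exp_le_exp.mpr
          rw [one_div_mul_eq_div, div_le_one hn0]
          exact_mod_cast hNn.le

theorem B_lo {N n : ℕ} {τ : ℝ} (hN : 1 ≤ N) (hNn : N < n) (hτ : 0 < τ) (hτ1 : τ ≤ 1 / 10) (hn : (n : ℝ) + 1 ≤ (1 + τ) * N) {w : ℝ → ℝ}
    (hw : ∀ u, w u ≠ 0 → Real.exp (τ - τ) ≤ u ∧ u ≤ Real.exp (1 - 3 * τ + τ))
    (m : ℕ) (hm : w (((m : ℝ) / (n : ℝ) ^ 2) ^ (N : ℝ)) ≠ 0) : m ∈ Finset.Icc (n ^ 2) (n ^ 2 + n) := by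
  have hn0 : (0 : ℝ) < n := by exact_mod_cast (by omega : 0 < n)
  have hN0 : (0 : ℝ) < N := by exact_mod_cast hN
  obtain ⟨h1, h2⟩ := hw _ hm
  rw [sub_self, Real.exp_zero] at h1
  have hq0 : 0 ≤ (m : ℝ) / (n : ℝ) ^ 2 := by positivity
  have h3 : 1 ≤ (m : ℝ) / (n : ℝ) ^ 2 := by
    by_contra h
    push Not at h
    have := Real.rpow_lt_one hq0 h hN0
    linarith
  have h4 : (m : ℝ) / (n : ℝ) ^ 2 ≤ 1 + 1 / n := by
    by_contra h
    push Not at h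
    have h5 : (1 + 1 / (n : ℝ)) ^ (N : ℝ) < ((m : ℝ) / (n : ℝ) ^ 2) ^ (N : ℝ) := Real.rpow_lt_rpow (by positivity) h hN0
    have h6 : Real.exp (1 - 3 * τ + τ) ≤ (1 + 1 / (n : ℝ)) ^ (N : ℝ) := by
      rw [Real.rpow_def_of_pos (by positivity)]
      apply Real.exp_le_exp.mpr
      have h7 : 1 / ((n : ℝ) + 1) ≤ Real.log (1 + 1 / n) := by
        have := Real.one_sub_inv_le_log_of_pos (show 0 < 1 + 1 / (n : ℝ) by positivity)
        refine le_trans (le_of_eq ?_) this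
        field_simp
        ring
      have h8 : (1 - 2 * τ) ≤ 1 / ((n : ℝ) + 1) * N := by
        rw [one_div_mul_eq_div, le_div_iff₀ (by linarith)]
        have e1 : (1 - 2 * τ) * ((n : ℝ) + 1) ≤ (1 - 2 * τ) * ((1 + τ) * N) := mul_le_mul_of_nonneg_left hn (by linarith)
        have e2 : (1 - 2 * τ) * ((1 + τ) * N) = N - (τ + 2 * τ ^ 2) * N := by ring
        have e3 : 0 ≤ (τ + 2 * τ ^ 2) * N := by positivity
        linarith
      nlinarith
    linarith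
  rw [Finset.mem_Icc]
  constructor
  · rw [le_div_iff₀ (by positivity)] at h3
    have : (n : ℝ) ^ 2 ≤ m := by linarith
    exact_mod_cast this
  · rw [div_le_iff₀ (by positivity)] at h4
    have h9 : (1 + 1 / (n : ℝ)) * (n : ℝ) ^ 2 = (n : ℝ) ^ 2 + n := by field_simp
    have : (m : ℝ) ≤ (n : ℝ) ^ 2 + n := by linarith
    exact_mod_cast this

theorem A_up {N n : ℕ} (hN : 1 ≤ N) (hNn : N < n) {w : ℝ → ℝ} (hw1 : ∀ u, Real.exp (-1) ≤ u → u ≤ Real.exp 0 → w u = 1)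
    (p : ℕ) (hp : p ∈ Finset.Icc (n ^ 2 - n) (n ^ 2)) : w (((p : ℝ) / (n : ℝ) ^ 2) ^ (N : ℝ)) = 1 := by
  rw [Finset.mem_Icc] at hp
  have hn0 : (0 : ℝ) < n := by exact_mod_cast (by omega : 0 < n)
  have hN0 : (0 : ℝ) < N := by exact_mod_cast hN
  have hn1 : (N : ℝ) + 1 ≤ n := by exact_mod_cast hNn
  have h1 : (n : ℝ) ^ 2 - n ≤ p := by
    have : n ^ 2 ≤ p + n := by omega
    have : ((n ^ 2 : ℕ) : ℝ) ≤ ((p + n : ℕ) : ℝ) := by exact_mod_cast this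
    push_cast at this
    linarith
  have h2 : (p : ℝ) ≤ (n : ℝ) ^ 2 := by exact_mod_cast hp.2
  have h3 : (p : ℝ) / (n : ℝ) ^ 2 ≤ 1 := by rw [div_le_iff₀ (by positivity)]; linarith
  have h4 : 1 - 1 / n ≤ (p : ℝ) / (n : ℝ) ^ 2 := by
    rw [le_div_iff₀ (by positivity)]
    have : (1 - 1 / (n : ℝ)) * (n : ℝ) ^ 2 = (n : ℝ) ^ 2 - n := by field_simp
    linarith
  have h5 : 0 < 1 - 1 / (n : ℝ) := by
    have : 1 / (n : ℝ) < 1 := by
      rw [div_lt_one hn0]; linarith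
    linarith
  apply hw1
  · calc Real.exp (-1) ≤ (1 - 1 / (n : ℝ)) ^ (N : ℝ) := by
          rw [Real.rpow_def_of_pos h5]
          apply Real.exp_le_exp.mpr
          have h7 : -(1 / ((n : ℝ) - 1)) ≤ Real.log (1 - 1 / n) := by
            have := Real.one_sub_inv_le_log_of_pos h5
            refine le_trans (le_of_eq ?_) this
            have : (n : ℝ) - 1 ≠ 0 := by linarith
            field_simp
            ring
          have h8 : -1 ≤ -(1 / ((n : ℝ) - 1)) * N := by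
            have h9 : 1 / ((n : ℝ) - 1) * N ≤ 1 := by
              rw [one_div_mul_eq_div, div_le_one (by linarith)]
              linarith
            linarith
          nlinarith
      _ ≤ _ := Real.rpow_le_rpow h5.le h4 hN0.le
  · rw [Real.exp_zero]
    exact Real.rpow_le_one (by positivity) h3 hN0.le

theorem A_lo {N n : ℕ} {τ : ℝ} (hN : 1 ≤ N) (hNn : N < n) (hτ : 0 < τ) (hτ1 : τ ≤ 1 / 10) (hn : (n : ℝ) + 1 ≤ (1 + τ) * N) {w : ℝ → ℝ}
    (hw : ∀ u, w u ≠ 0 → Real.exp (-1 + 3 * τ - τ) ≤ u ∧ u ≤ Real.exp (-τ + τ))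
    (m : ℕ) (hm : w (((m : ℝ) / (n : ℝ) ^ 2) ^ (N : ℝ)) ≠ 0) : m ∈ Finset.Icc (n ^ 2 - n) (n ^ 2) := by
  have hn0 : (0 : ℝ) < n := by exact_mod_cast (by omega : 0 < n)
  have hN0 : (0 : ℝ) < N := by exact_mod_cast hN
  have hn1 : (N : ℝ) + 1 ≤ n := by exact_mod_cast hNn
  obtain ⟨h1, h2⟩ := hw _ hm
  rw [neg_add_cancel, Real.exp_zero] at h2
  have hq0 : 0 ≤ (m : ℝ) / (n : ℝ) ^ 2 := by positivity
  have h3 : (m : ℝ) / (n : ℝ) ^ 2 ≤ 1 := by
    by_contra h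
    push Not at h
    have := Real.one_lt_rpow h hN0
    linarith
  have h4 : 1 - 1 / n ≤ (m : ℝ) / (n : ℝ) ^ 2 := by
    by_contra h
    push Not at h
    have h5 : ((m : ℝ) / (n : ℝ) ^ 2) ^ (N : ℝ) < (1 - 1 / (n : ℝ)) ^ (N : ℝ) := Real.rpow_lt_rpow hq0 h hN0
    have h6 : (1 - 1 / (n : ℝ)) ^ (N : ℝ) ≤ Real.exp (-1 + 3 * τ - τ) := by
      calc (1 - 1 / (n : ℝ)) ^ (N : ℝ) ≤ (Real.exp (-(1 / n))) ^ (N : ℝ) := by
            apply Real.rpow_le_rpow _ _ hN0.le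
            · have : 1 / (n : ℝ) ≤ 1 := by
                rw [div_le_one hn0]; linarith
              linarith
            · have := Real.add_one_le_exp (-(1 / (n : ℝ)))
              linarith
        _ = Real.exp (-(1 / n) * N) := by rw [← Real.exp_mul]
        _ ≤ _ := by
            apply Real.exp_le_exp.mpr
            have h8 : (1 - 2 * τ) ≤ 1 / (n : ℝ) * N := by
              rw [one_div_mul_eq_div, le_div_iff₀ (by linarith)]
              have e1 : (1 - 2 * τ) * (n : ℝ) ≤ (1 - 2 * τ) * ((1 + τ) * N) := mul_le_mul_of_nonneg_left (by linarith) (by linarith)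
              have e2 : (1 - 2 * τ) * ((1 + τ) * N) = N - (τ + 2 * τ ^ 2) * N := by ring
              have e3 : 0 ≤ (τ + 2 * τ ^ 2) * N := by positivity
              linarith
            linarith
    linarith
  rw [Finset.mem_Icc]
  constructor
  · rw [le_div_iff₀ (by positivity)] at h4
    have h9 : (1 - 1 / (n : ℝ)) * (n : ℝ) ^ 2 = (n : ℝ) ^ 2 - n := by field_simp
    have h10 : (n : ℝ) ^ 2 ≤ m + n := by linarith
    have h11 : n ^ 2 ≤ m + n := by exact_mod_cast h10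
    omega
  · rw [div_le_iff₀ (by positivity)] at h3
    have : (m : ℝ) ≤ (n : ℝ) ^ 2 := by linarith
    exact_mod_cast this

/-- expected number of primes -/
def gn (n : ℕ) : ℝ := n / (2 * Real.log n)

/-- `n/(2 log n)` in a window -/
theorem gn_bounds {N H : ℕ} (hN : 3 ≤ N) : ∀ n ∈ Finset.Ioc N (N + H), (N : ℝ) / (2 * Real.log N) ≤ gn n ∧
    gn n ≤ ((N : ℝ) + H) / (2 * Real.log N) := by
  intro n hn
  rw [Finset.mem_Ioc] at hn
  have hN3 : (3 : ℝ) ≤ N := by exact_mod_cast hN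
  have hN0 : (0 : ℝ) < N := by linarith
  have hnN : (N : ℝ) ≤ n := by exact_mod_cast hn.1.le
  have hn2 : (n : ℝ) ≤ N + H := by exact_mod_cast hn.2
  have hn0 : (0 : ℝ) < n := by linarith
  have hl1 : 0 < Real.log N := Real.log_pos (by linarith)
  have hl2 : Real.log N ≤ Real.log n := Real.log_le_log hN0 hnN
  constructor
  · unfold gn
    rw [div_le_div_iff₀ (by positivity) (by linarith)]
    have h1 : Real.log n / n ≤ Real.log N / N := by
      apply Real.log_div_self_antitoneOn _ _ hnN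
      · show Real.exp 1 ≤ N
        have := Real.exp_one_lt_d9
        linarith
      · show Real.exp 1 ≤ n
        have := Real.exp_one_lt_d9
        linarith
    rw [div_le_div_iff₀ hn0 hN0] at h1
    nlinarith
  · unfold gn
    rw [div_le_div_iff₀ (by linarith) (by linarith)]
    have : (0 : ℝ) ≤ H := Nat.cast_nonneg H
    nlinarith [mul_le_mul hn2 hl2 hl1.le (by linarith)]

/-- from smooth weights to the count, one window -/
theorem window_bound (N H : ℕ) (f s1 s2 : ℕ → ℝ) (L δ δ' I1 I2 : ℝ) (hN : 3 ≤ N) (hL : L = Real.log N)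
    (hup : ∀ n ∈ Finset.Ioc N (N + H), f n ≤ s1 n) (hlo : ∀ n ∈ Finset.Ioc N (N + H), s2 n ≤ f n)
    (hs1 : ∀ n ∈ Finset.Ioc N (N + H), 0 ≤ s1 n) (hs2 : ∀ n ∈ Finset.Ioc N (N + H), 0 ≤ s2 n)
    (h1 : |∑ n ∈ Finset.Ioc N (N + H), (N : ℝ) / (n : ℝ) ^ 2 * s1 n - H * (I1 / (2 * L))| ≤ H * (δ' / L))
    (h2 : |∑ n ∈ Finset.Ioc N (N + H), (N : ℝ) / (n : ℝ) ^ 2 * s2 n - H * (I2 / (2 * L))| ≤ H * (δ' / L))
    (hI1 : I1 ≤ 1 + δ') (hI2 : 1 - δ' ≤ I2) (hδ' : 0 < δ') (hδ : 8 * δ' ≤ δ) (hδ1 : δ ≤ 1) (hH : (H : ℝ) ≤ δ' * N) :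
    |∑ n ∈ Finset.Ioc N (N + H), (f n - gn n)| ≤ δ * ∑ n ∈ Finset.Ioc N (N + H), gn n := by
  have hN3 : (3 : ℝ) ≤ N := by exact_mod_cast hN
  have hN0 : (0 : ℝ) < N := by linarith
  have hL0 : 0 < L := by rw [hL]; exact Real.log_pos (by linarith)
  have hH0 : (0 : ℝ) ≤ H := Nat.cast_nonneg H
  set U : ℝ := H * (N / (2 * L)) with hU
  have hU0 : 0 ≤ U := by positivity
  have hcard : (Finset.Ioc N (N + H)).card = H := by rw [Nat.card_Ioc]; omega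
  -- bounds for the main term
  have hg1 : U ≤ ∑ n ∈ Finset.Ioc N (N + H), gn n := by
    calc U = ∑ n ∈ Finset.Ioc N (N + H), (N : ℝ) / (2 * Real.log N) := by
          rw [Finset.sum_const, hcard, nsmul_eq_mul, hU, hL]
      _ ≤ _ := Finset.sum_le_sum fun n hn => (gn_bounds hN n hn).1
  have hg2 : ∑ n ∈ Finset.Ioc N (N + H), gn n ≤ (1 + δ') * U := by
    calc ∑ n ∈ Finset.Ioc N (N + H), gn n ≤ ∑ n ∈ Finset.Ioc N (N + H), ((N : ℝ) + H) / (2 * Real.log N) :=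
          Finset.sum_le_sum fun n hn => (gn_bounds hN n hn).2
      _ = H * (((N : ℝ) + H) / (2 * L)) := by
          rw [Finset.sum_const, hcard, nsmul_eq_mul, hL]
      _ ≤ H * (((1 + δ') * N) / (2 * L)) := by
          gcongr
          linarith
      _ = (1 + δ') * U := by rw [hU]; ring
  -- upper bound
  have hup' : ∑ n ∈ Finset.Ioc N (N + H), f n ≤ (1 + δ') ^ 2 * ((1 + 3 * δ') * U) := by
    calc ∑ n ∈ Finset.Ioc N (N + H), f n ≤ ∑ n ∈ Finset.Ioc N (N + H), ((1 + δ') ^ 2 * N) * ((N : ℝ) / (n : ℝ) ^ 2 * s1 n) := by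
          apply Finset.sum_le_sum
          intro n hn
          refine (hup n hn).trans ?_
          have hs := hs1 n hn
          rw [Finset.mem_Ioc] at hn
          have hnN : (N : ℝ) ≤ n := by exact_mod_cast hn.1.le
          have hn2 : (n : ℝ) ≤ N + H := by exact_mod_cast hn.2
          have hn0 : (0 : ℝ) < n := by linarith
          have h5 : (n : ℝ) ≤ (1 + δ') * N := by linarith
          have h6 : 1 ≤ ((1 + δ') ^ 2 * N) * ((N : ℝ) / (n : ℝ) ^ 2) := by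
            rw [mul_div_assoc', le_div_iff₀ (by positivity), one_mul]
            calc (n : ℝ) ^ 2 ≤ ((1 + δ') * N) ^ 2 := pow_le_pow_left₀ hn0.le h5 2
              _ = _ := by ring
          calc s1 n = 1 * s1 n := (one_mul _).symm
            _ ≤ (((1 + δ') ^ 2 * N) * ((N : ℝ) / (n : ℝ) ^ 2)) * s1 n := mul_le_mul_of_nonneg_right h6 hs
            _ = _ := by ring
      _ = ((1 + δ') ^ 2 * N) * ∑ n ∈ Finset.Ioc N (N + H), (N : ℝ) / (n : ℝ) ^ 2 * s1 n := by rw [Finset.mul_sum]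
      _ ≤ ((1 + δ') ^ 2 * N) * (H * (I1 / (2 * L)) + H * (δ' / L)) := by
          have := (abs_le.1 h1).2
          gcongr
          linarith
      _ ≤ ((1 + δ') ^ 2 * N) * (H * ((1 + δ') / (2 * L)) + H * (δ' / L)) := by
          gcongr
      _ = (1 + δ') ^ 2 * ((1 + 3 * δ') * U) := by rw [hU]; field_simp; ring
  -- lower bound
  have hlo' : (1 - 3 * δ') * U ≤ ∑ n ∈ Finset.Ioc N (N + H), f n := by
    calc (1 - 3 * δ') * U = N * (H * ((1 - δ') / (2 * L)) - H * (δ' / L)) := by rw [hU]; field_simp; ring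
      _ ≤ N * (H * (I2 / (2 * L)) - H * (δ' / L)) := by
          gcongr
      _ ≤ N * ∑ n ∈ Finset.Ioc N (N + H), (N : ℝ) / (n : ℝ) ^ 2 * s2 n := by
          have := (abs_le.1 h2).1
          gcongr
          linarith
      _ = ∑ n ∈ Finset.Ioc N (N + H), N * ((N : ℝ) / (n : ℝ) ^ 2 * s2 n) := by rw [Finset.mul_sum]
      _ ≤ ∑ n ∈ Finset.Ioc N (N + H), f n := by
          apply Finset.sum_le_sum
          intro n hn
          refine le_trans ?_ (hlo n hn)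
          have hs := hs2 n hn
          rw [Finset.mem_Ioc] at hn
          have hnN : (N : ℝ) ≤ n := by exact_mod_cast hn.1.le
          have hn0 : (0 : ℝ) < n := by linarith
          have h6 : (N : ℝ) * ((N : ℝ) / (n : ℝ) ^ 2) ≤ 1 := by
            rw [mul_div_assoc', div_le_one (by positivity)]
            nlinarith
          calc (N : ℝ) * ((N : ℝ) / (n : ℝ) ^ 2 * s2 n) = ((N : ℝ) * ((N : ℝ) / (n : ℝ) ^ 2)) * s2 n := by ring
            _ ≤ 1 * s2 n := mul_le_mul_of_nonneg_right h6 hs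
            _ = s2 n := one_mul _
  rw [Finset.sum_sub_distrib]
  set M : ℝ := ∑ n ∈ Finset.Ioc N (N + H), gn n with hM
  have hδ'8 : δ' ≤ 1 / 8 := by linarith
  have h7 : (1 + δ') ^ 2 * ((1 + 3 * δ') * U) ≤ (1 + 8 * δ') * U := by
    have : (1 + δ') ^ 2 * (1 + 3 * δ') ≤ 1 + 8 * δ' := by nlinarith [sq_nonneg δ', mul_nonneg hδ'.le hδ'.le]
    nlinarith
  rw [abs_le]
  constructor
  · nlinarith [mul_nonneg hδ'.le hU0]
  · nlinarith

/-- **one window** -/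
theorem one_window (hMn : StMnW) (hWt : StWt) (δ : ℝ) (hδ : 0 < δ) : ∃ C : ℝ, 1 ≤ C ∧ ∀ N H : ℕ, C ≤ N →
    (N : ℝ) ^ (3 / 20 : ℝ) ≤ H → (H : ℝ) ≤ 4 * (N : ℝ) ^ (3 / 20 : ℝ) →
    |∑ n ∈ Finset.Ioc N (N + H), (cA n - gn n)| ≤ δ * ∑ n ∈ Finset.Ioc N (N + H), gn n ∧
    |∑ n ∈ Finset.Ioc N (N + H), (cB n - gn n)| ≤ δ * ∑ n ∈ Finset.Ioc N (N + H), gn n := by
  set d : ℝ := min δ 1 with hd
  have hd0 : 0 < d := lt_min hδ one_pos
  set τ : ℝ := d / 100 with hτ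
  have hτ0 : 0 < τ := by positivity
  have hτ1 : τ ≤ 1 / 10 := by have := min_le_right δ 1; linarith
  obtain ⟨w1, hw1, hw1b, hw1e, hw1s, hw1i, hw1j⟩ := hWt 0 1 τ (by norm_num) hτ0
  obtain ⟨w2, hw2, hw2b, hw2e, hw2s, hw2i, hw2j⟩ := hWt τ (1 - 3 * τ) τ (by linarith) hτ0
  obtain ⟨w3, hw3, hw3b, hw3e, hw3s, hw3i, hw3j⟩ := hWt (-1) 0 τ (by norm_num) hτ0
  obtain ⟨w4, hw4, hw4b, hw4e, hw4s, hw4i, hw4j⟩ := hWt (-1 + 3 * τ) (-τ) τ (by linarith) hτ0
  obtain ⟨C1, hC1, h1⟩ := hMn w1 hw1 (fun u => (hw1b u).1) (4 * τ) (by positivity)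
  obtain ⟨C2, hC2, h2⟩ := hMn w2 hw2 (fun u => (hw2b u).1) (4 * τ) (by positivity)
  obtain ⟨C3, hC3, h3⟩ := hMn w3 hw3 (fun u => (hw3b u).1) (4 * τ) (by positivity)
  obtain ⟨C4, hC4, h4⟩ := hMn w4 hw4 (fun u => (hw4b u).1) (4 * τ) (by positivity)
  have ev : ∀ᶠ T : ℝ in atTop, 4 * T ^ (3 / 20 : ℝ) + 1 ≤ τ * T := by
    have h5 : Tendsto (fun T : ℝ => T ^ (17 / 20 : ℝ)) atTop atTop := tendsto_rpow_atTop (by norm_num)
    filter_upwards [h5.eventually_ge_atTop (5 / τ), eventually_ge_atTop 1] with T h6 h7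
    have h8 : 1 ≤ T ^ (3 / 20 : ℝ) := Real.one_le_rpow h7 (by norm_num)
    have h9 : T = T ^ (17 / 20 : ℝ) * T ^ (3 / 20 : ℝ) := by
      rw [← Real.rpow_add (by linarith)]; norm_num
    rw [div_le_iff₀ hτ0] at h6
    calc 4 * T ^ (3 / 20 : ℝ) + 1 ≤ 5 * T ^ (3 / 20 : ℝ) := by linarith
      _ ≤ (T ^ (17 / 20 : ℝ) * τ) * T ^ (3 / 20 : ℝ) := by gcongr
      _ = τ * (T ^ (17 / 20 : ℝ) * T ^ (3 / 20 : ℝ)) := by ring
      _ = τ * T := by rw [← h9]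
  obtain ⟨C5, hC5⟩ := ev.exists_forall_of_atTop
  refine ⟨max (max (max C1 C2) (max C3 C4)) (max C5 3), le_max_of_le_left (le_max_of_le_left (le_max_of_le_left hC1)), ?_⟩
  intro N H hN hH1 hH2
  simp only [max_le_iff] at hN
  obtain ⟨⟨⟨t1, t2⟩, t3, t4⟩, t5, t6⟩ := hN
  have hN3 : 3 ≤ N := by exact_mod_cast t6
  have hN1 : 1 ≤ N := by omega
  have hN0 : (0 : ℝ) < N := by linarith
  have hHτ : (H : ℝ) + 1 ≤ τ * N := by
    have := hC5 N t5
    linarith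
  have hT1 : (1 : ℝ) ≤ N := by linarith
  have hset : ∀ n ∈ Finset.Ioc N (N + H), N < n ∧ (n : ℝ) + 1 ≤ (1 + τ) * N ∧ (0 : ℝ) < (n : ℝ) ^ 2 := by
    intro n hn
    rw [Finset.mem_Ioc] at hn
    have hn2 : (n : ℝ) ≤ N + H := by exact_mod_cast hn.2
    have hn0 : (0 : ℝ) < n := by exact_mod_cast (by omega : 0 < n)
    exact ⟨hn.1, by linarith, by positivity⟩
  have hgn0 : 0 ≤ ∑ n ∈ Finset.Ioc N (N + H), gn n := by
    apply Finset.sum_nonneg
    intro n _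
    unfold gn
    have : 0 ≤ Real.log (n : ℝ) := Real.log_natCast_nonneg n
    positivity
  have conv : ∀ w : ℝ → ℝ, ∑ x ∈ Pt N H, (N : ℝ) / x * SW w pr x N =
      ∑ n ∈ Finset.Ioc N (N + H), (N : ℝ) / (n : ℝ) ^ 2 * SW w pr ((n : ℝ) ^ 2) N := fun w => sum_Pt N H _
  have hpr0 : ∀ n, 0 ≤ pr n := fun n => by unfold pr; split_ifs <;> norm_num
  have hdδ : d ≤ δ := min_le_left _ _
  have hd1 : d ≤ 1 := min_le_right _ _
  constructor
  · have e1 := h3 N H N rfl t3 hH1 hH2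
    have e2 := h4 N H N rfl t4 hH1 hH2
    rw [conv] at e1 e2
    refine (window_bound N H cA (fun n => SW w3 pr ((n : ℝ) ^ 2) N) (fun n => SW w4 pr ((n : ℝ) ^ 2) N) (Real.log N) d (4 * τ)
      (Iw w3) (Iw w4) hN3 rfl ?_ ?_ ?_ ?_ e1 e2 (by linarith) (by linarith) (by positivity) (by linarith) hd1 (by nlinarith)).trans
      (mul_le_mul_of_nonneg_right hdδ hgn0)
    · intro n hn
      obtain ⟨a1, a2, a3⟩ := hset n hn
      exact card_le_SW hw3 (fun u => (hw3b u).1) _ a3 hT1 fun p hp => A_up hN1 a1 hw3e p hp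
    · intro n hn
      obtain ⟨a1, a2, a3⟩ := hset n hn
      exact SW_le_card (fun u => (hw4b u).2) _ fun m hm => A_lo hN1 a1 hτ0 hτ1 a2 hw4s m hm
    · intro n hn
      exact SW_nonneg (fun u => (hw3b u).1) _ hpr0
    · intro n hn
      exact SW_nonneg (fun u => (hw4b u).1) _ hpr0
  · have e1 := h1 N H N rfl t1 hH1 hH2
    have e2 := h2 N H N rfl t2 hH1 hH2
    rw [conv] at e1 e2
    refine (window_bound N H cB (fun n => SW w1 pr ((n : ℝ) ^ 2) N) (fun n => SW w2 pr ((n : ℝ) ^ 2) N) (Real.log N) d (4 * τ)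
      (Iw w1) (Iw w2) hN3 rfl ?_ ?_ ?_ ?_ e1 e2 (by linarith) (by linarith) (by positivity) (by linarith) hd1 (by nlinarith)).trans
      (mul_le_mul_of_nonneg_right hdδ hgn0)
    · intro n hn
      obtain ⟨a1, a2, a3⟩ := hset n hn
      exact card_le_SW hw1 (fun u => (hw1b u).1) _ a3 hT1 fun p hp => B_up hN1 a1 hw1e p hp
    · intro n hn
      obtain ⟨a1, a2, a3⟩ := hset n hn
      exact SW_le_card (fun u => (hw2b u).2) _ fun m hm => B_lo hN1 a1 hτ0 hτ1 a2 hw2s m hm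
    · intro n hn
      exact SW_nonneg (fun u => (hw1b u).1) _ hpr0
    · intro n hn
      exact SW_nonneg (fun u => (hw2b u).1) _ hpr0

/-- subdivision of a long interval -/
theorem subdivide (f g : ℕ → ℝ) (δ : ℝ) (N h0 : ℕ) (hh0 : 1 ≤ h0)
    (hw : ∀ M h : ℕ, N ≤ M → M ≤ 2 * N → h0 ≤ h → h < 2 * h0 → |∑ n ∈ Finset.Ioc M (M + h), (f n - g n)| ≤ δ * ∑ n ∈ Finset.Ioc M (M + h), g n) :
    ∀ H M : ℕ, N ≤ M → M + H ≤ 2 * N → h0 ≤ H →
      |∑ n ∈ Finset.Ioc M (M + H), (f n - g n)| ≤ δ * ∑ n ∈ Finset.Ioc M (M + H), g n := by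
  intro H
  induction H using Nat.strong_induction_on with
  | _ H ih =>
    intro M hM1 hM2 hH
    rcases Nat.lt_or_ge H (2 * h0) with h | h
    · exact hw M H hM1 (by omega) hH h
    · have h1 := hw M h0 hM1 (by omega) le_rfl (by omega)
      have h2 := ih (H - h0) (by omega) (M + h0) (by omega) (by omega) (by omega)
      have e : M + h0 + (H - h0) = M + H := by omega
      rw [e] at h2
      have hsplit : ∀ F : ℕ → ℝ, ∑ n ∈ Finset.Ioc M (M + H), F n = ∑ n ∈ Finset.Ioc M (M + h0), F n + ∑ n ∈ Finset.Ioc (M + h0) (M + H), F n := by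
        intro F
        exact (Finset.sum_Ioc_consecutive F (by omega) (by omega)).symm
      rw [hsplit, hsplit g, mul_add]
      exact (abs_add_le _ _).trans (add_le_add h1 h2)

/-- **the theorem** -/
theorem all_windows (hMn : StMnW) (hWt : StWt) (δ : ℝ) (hδ : 0 < δ) : ∃ N0 : ℕ, ∀ N H : ℕ, N0 ≤ N →
    (N : ℝ) ^ (3 / 20 : ℝ) ≤ H → H ≤ N →
    |∑ n ∈ Finset.Ioc N (N + H), (cA n - gn n)| ≤ δ * ∑ n ∈ Finset.Ioc N (N + H), gn n ∧
    |∑ n ∈ Finset.Ioc N (N + H), (cB n - gn n)| ≤ δ * ∑ n ∈ Finset.Ioc N (N + H), gn n := by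
  obtain ⟨C, hC, hone⟩ := one_window hMn hWt δ hδ
  refine ⟨max ⌈C⌉₊ (10 ^ 8), ?_⟩
  intro N H hN hH1 hH2
  have hNC : C ≤ N := by
    have h1 : ⌈C⌉₊ ≤ N := (le_max_left _ _).trans hN
    exact (Nat.le_ceil C).trans (by exact_mod_cast h1)
  have hN8 : (10 : ℝ) ^ 8 ≤ N := by
    have h1 : 10 ^ 8 ≤ N := (le_max_right _ _).trans hN
    exact_mod_cast h1
  have hN0 : (0 : ℝ) < N := by linarith [show (0 : ℝ) < 10 ^ 8 by norm_num]
  set h0 : ℕ := ⌈(2 * N : ℝ) ^ (3 / 20 : ℝ)⌉₊ with hh0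
  have hq : 2 ≤ (N : ℝ) ^ (3 / 20 : ℝ) := by
    calc (2 : ℝ) ≤ ((10 : ℝ) ^ 8) ^ (1 / 8 : ℝ) := by
          rw [← Real.rpow_natCast, ← Real.rpow_mul (by norm_num)]; norm_num
      _ ≤ ((10 : ℝ) ^ 8) ^ (3 / 20 : ℝ) := Real.rpow_le_rpow_of_exponent_le (by norm_num) (by norm_num)
      _ ≤ _ := Real.rpow_le_rpow (by norm_num) hN8 (by norm_num)
  have h2N : (2 * N : ℝ) ^ (3 / 20 : ℝ) ≤ 3 / 2 * (N : ℝ) ^ (3 / 20 : ℝ) - 1 := by
    rw [Real.mul_rpow (by norm_num) hN0.le]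
    have h3 : (2 : ℝ) ^ (3 / 20 : ℝ) ≤ 6 / 5 := by
      have h4 : ((2 : ℝ) ^ (3 / 20 : ℝ)) ^ (20 : ℕ) ≤ (6 / 5) ^ (20 : ℕ) := by
        rw [← Real.rpow_natCast, ← Real.rpow_mul (by norm_num)]
        norm_num
      exact le_of_pow_le_pow_left₀ (by norm_num) (by norm_num) h4
    have h5 : 10 ≤ (N : ℝ) ^ (3 / 20 : ℝ) := by
      calc (10 : ℝ) = ((10 : ℝ) ^ 8) ^ (1 / 8 : ℝ) := by
            rw [← Real.rpow_natCast, ← Real.rpow_mul (by norm_num)]; norm_num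
        _ ≤ ((10 : ℝ) ^ 8) ^ (3 / 20 : ℝ) := Real.rpow_le_rpow_of_exponent_le (by norm_num) (by norm_num)
        _ ≤ _ := Real.rpow_le_rpow (by norm_num) hN8 (by norm_num)
    nlinarith
  have h0a : (2 * N : ℝ) ^ (3 / 20 : ℝ) ≤ h0 := Nat.le_ceil _
  have h0b : (h0 : ℝ) ≤ 3 / 2 * (N : ℝ) ^ (3 / 20 : ℝ) := by
    have := Nat.ceil_lt_add_one (show 0 ≤ (2 * N : ℝ) ^ (3 / 20 : ℝ) by positivity)
    rw [← hh0] at this
    linarith
  have h0c : 1 ≤ h0 := by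
    have : (0 : ℝ) < h0 := lt_of_lt_of_le (by positivity) h0a
    exact_mod_cast this
  have hwin : ∀ M h : ℕ, N ≤ M → M ≤ 2 * N → h0 ≤ h → h < 2 * h0 →
      C ≤ M ∧ (M : ℝ) ^ (3 / 20 : ℝ) ≤ h ∧ (h : ℝ) ≤ 4 * (M : ℝ) ^ (3 / 20 : ℝ) := by
    intro M h hM1 hM2 hh1 hh2
    have a1 : (N : ℝ) ≤ M := by exact_mod_cast hM1
    have a2 : (M : ℝ) ≤ 2 * N := by exact_mod_cast hM2
    have a3 : (h0 : ℝ) ≤ h := by exact_mod_cast hh1
    have a4 : (h : ℝ) ≤ 2 * h0 := by exact_mod_cast hh2.le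
    have a5 : (N : ℝ) ^ (3 / 20 : ℝ) ≤ (M : ℝ) ^ (3 / 20 : ℝ) := Real.rpow_le_rpow hN0.le a1 (by norm_num)
    have a6 : (M : ℝ) ^ (3 / 20 : ℝ) ≤ (2 * N : ℝ) ^ (3 / 20 : ℝ) := Real.rpow_le_rpow (by linarith) a2 (by norm_num)
    refine ⟨by linarith, by linarith, by linarith⟩
  rcases Nat.lt_or_ge H h0 with hHh | hHh
  · have a4 : (H : ℝ) ≤ h0 := by exact_mod_cast hHh.le
    exact hone N H hNC hH1 (by linarith)
  · constructor
    · exact subdivide cA gn δ N h0 h0c (fun M h b1 b2 b3 b4 => by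
        obtain ⟨c1, c2, c3⟩ := hwin M h b1 b2 b3 b4
        exact (hone M h c1 c2 c3).1) H N le_rfl (by omega) hHh
    · exact subdivide cB gn δ N h0 h0c (fun M h b1 b2 b3 b4 => by
        obtain ⟨c1, c2, c3⟩ := hwin M h b1 b2 b3 b4
        exact (hone M h c1 c2 c3).2) H N le_rfl (by omega) hHh

end Pool.Agent.Work.MP_a8fbd7_nt.OX.CW
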