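import Mathlib
import Pool.Agent.Work.MP_a8fbd7_nt.OX.CW.BBW
import Pool.Agent.Work.MP_a8fbd7_nt.OX.ASM.I_AA

/-!
MP_a8fbd7_nt, block OX, part CW: boxes with a long slot, on average over a window (from the cell theorem A for windows).
Author: helper86.
-/

set_option autoImplicit false

open MeasureTheory Set Filter Topology

noncomputable section

namespace Pool.Agent.Work.MP_a8fbd7_nt.OX.CW

open Pool.Agent.Work.MP_56b8f5_nt.UC (IsWt Bl Dp Om psi eta Sep)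
open Pool.Agent.Work.MP_a8fbd7_nt.OX
open Pool.Agent.Work.MP_a8fbd7_nt.OX.ASM
open Pool.Agent.Work.MP_a8fbd7_nt.OX.ID (Rough roughOne pb rg)

theorem iAAW (hC : StCellAW) (hF4 : StF4) (hPd : StPd) (hRg : StRg) (hRp : StRp) (hTb : StTb)
    (hKp : Pool.Agent.Work.MP_56b8f5_nt.UC.StKp) : StAAW := by
  intro κ2 hκ2 hκ21
  obtain ⟨κ3, ε, hκ3, hκ32, hε, hε3, hC1⟩ := hC κ2 hκ2 hκ21
  refine ⟨κ3, ε / 10, hκ3, hκ32, by positivity, by linarith, ?_⟩
  intro w hw η κ1 A hη hηκ hκ1 hκ12 hA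
  obtain ⟨C1, hC11, hC2⟩ := hC1 η hη (by linarith)
  have hR := AAx.red hF4 hPd hRg hRp hTb hKp κ2 κ3 (ε / 10) ε hκ21 hκ3 hκ32 (by positivity) (by linarith)
    (by linarith) w hw η κ1 A hηκ hκ1 hA
  refine ⟨3 * A + 25, by linarith, ?_⟩
  intro B hB
  obtain ⟨C2, hC21, hR2⟩ := hR B hB
  refine ⟨max (max C1 C2) ((10 : ℝ) ^ 8), hC11.trans ((le_max_left _ _).trans (le_max_left _ _)), ?_⟩
  intro n H T u v lw hTn hT hH1 hH2 hLg hlw1 hlw2
  have hTC1 : C1 ≤ T := ((le_max_left _ _).trans (le_max_left _ _)).trans hT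
  have hTC2 : C2 ≤ T := ((le_max_right _ _).trans (le_max_left _ _)).trans hT
  have hT8 : (10 : ℝ) ^ 8 ≤ T := (le_max_right _ _).trans hT
  have hT1 : 1 ≤ T := by linarith [show (1 : ℝ) ≤ 10 ^ 8 by norm_num]
  obtain ⟨hne, hP⟩ := win hTn hT8 hH1 hH2
  by_contra hc
  push Not at hc
  have hcard : ((Pt n H).card : ℝ) = H := by rw [card_Pt]
  obtain ⟨T', ν, g, m, a, N, hT'1, hT'2, hg, hgn, hblk, hN, hp1, hp2, hint⟩ := hR2 T u v lw (Pt n H)
    (fun _ => (1 : ℂ)) hTC2 hLg hlw1 hlw2 hP hne (fun _ => by simp) (by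
      rw [hcard]
      exact big hc)
  have hgC : g = gC T := g_eq hg
  rw [hgC, hcard] at hint
  have hT'3 : 1 ≤ T' := (Real.one_le_rpow hT1 (by norm_num)).trans hT'1
  have hT'4 : T' ≤ T ^ (1 + ε) := hT'2.trans (Real.rpow_le_rpow_of_exponent_le hT1 (by linarith))
  have := hC2 n H T T' ν m a N hTn hTC1 hH1 hH2 hT'3 hT'4 hblk hN hp1 hp2
  linarith

end Pool.Agent.Work.MP_a8fbd7_nt.OX.CW
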