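import Mathlib
import Pool.Agent.Work.MP_a8fbd7_nt.OX.CW.Stmts
import Pool.Agent.Work.MP_a8fbd7_nt.OX.ASM.I_Mn

/-!
MP_a8fbd7_nt, block OX, part CW: the mean value of the smoothed numbers of primes (cf. `OX/ASM/I_Mn.lean`).
Author: helper86.
-/

set_option autoImplicit false

open MeasureTheory Set Filter Topology

noncomputable section

namespace Pool.Agent.Work.MP_a8fbd7_nt.OX.CW

open Pool.Agent.Work.MP_56b8f5_nt.UC (IsWt Bl Dp Om psi eta Sep)
open Pool.Agent.Work.MP_a8fbd7_nt.OX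
open Pool.Agent.Work.MP_a8fbd7_nt.OX.ASM
open Pool.Agent.Work.MP_a8fbd7_nt.OX.ASM.Mn_aux
open Pool.Agent.Work.MP_a8fbd7_nt.OX.ID (Rough roughOne pb rg)

theorem dd_bound_avg {w : ℝ → ℝ} (hw : IsWt w) (hw0 : ∀ u, 0 ≤ w u) (P : Finset ℝ) {T T1 : ℝ} (hP : ∀ x ∈ P, 0 < x) (hT : 1 ≤ T) (hT1 : 1 ≤ T1)
    (f g : ℕ → ℝ) (F : Finset (Fin 3)) (e : Fin 3 → ℕ → ℝ)
    (h : ∀ n, |f n - g n| ≤ ∑ i ∈ F, e i n) :
    |∑ x ∈ P, DD w f x T T1| ≤ |∑ x ∈ P, DD w g x T T1| +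
      ∑ i ∈ F, (|∑ x ∈ P, DD w (e i) x T T1| + 2 * ∑ x ∈ P, T1 / x * SW w (e i) x T1) := by
  have b : |∑ x ∈ P, DD w f x T T1 - ∑ x ∈ P, DD w g x T T1| ≤
      ∑ x ∈ P, (T / x * ∑ i ∈ F, SW w (e i) x T + T1 / x * ∑ i ∈ F, SW w (e i) x T1) := by
    rw [← Finset.sum_sub_distrib]
    refine (Finset.abs_sum_le_sum_abs _ _).trans (Finset.sum_le_sum fun x hxP => ?_)
    have hx := hP x hxP
    have a1 := SW_abs_sub_le hw hw0 f g (fun n => ∑ i ∈ F, e i n) hx hT h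
    have a2 := SW_abs_sub_le hw hw0 f g (fun n => ∑ i ∈ F, e i n) hx hT1 h
    rw [SW_sum hw F e hx hT] at a1
    rw [SW_sum hw F e hx hT1] at a2
    have hTx : 0 ≤ T / x := by positivity
    have hT1x : 0 ≤ T1 / x := by positivity
    unfold DD
    have : T / x * SW w f x T - T1 / x * SW w f x T1 - (T / x * SW w g x T - T1 / x * SW w g x T1) =
      T / x * (SW w f x T - SW w g x T) - T1 / x * (SW w f x T1 - SW w g x T1) := by ring
    rw [this]
    calc _ ≤ |T / x * (SW w f x T - SW w g x T)| + |T1 / x * (SW w f x T1 - SW w g x T1)| := abs_sub _ _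
      _ ≤ _ := by
        rw [abs_mul, abs_mul, abs_of_nonneg hTx, abs_of_nonneg hT1x]
        gcongr
  have c : ∑ x ∈ P, (T / x * ∑ i ∈ F, SW w (e i) x T + T1 / x * ∑ i ∈ F, SW w (e i) x T1) ≤
      ∑ i ∈ F, (|∑ x ∈ P, DD w (e i) x T T1| + 2 * ∑ x ∈ P, T1 / x * SW w (e i) x T1) := by
    have h1 : ∑ x ∈ P, (T / x * ∑ i ∈ F, SW w (e i) x T + T1 / x * ∑ i ∈ F, SW w (e i) x T1) =
        ∑ i ∈ F, ∑ x ∈ P, (T / x * SW w (e i) x T + T1 / x * SW w (e i) x T1) := by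
      rw [Finset.sum_comm]
      apply Finset.sum_congr rfl
      intro x _
      rw [Finset.mul_sum, Finset.mul_sum, ← Finset.sum_add_distrib]
    rw [h1]
    refine Finset.sum_le_sum fun i _ => ?_
    have h2 := le_abs_self (∑ x ∈ P, DD w (e i) x T T1)
    have h3 : ∑ x ∈ P, (T / x * SW w (e i) x T + T1 / x * SW w (e i) x T1) =
        ∑ x ∈ P, DD w (e i) x T T1 + 2 * ∑ x ∈ P, T1 / x * SW w (e i) x T1 := by
      rw [Finset.mul_sum, ← Finset.sum_add_distrib]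
      apply Finset.sum_congr rfl
      intro x _
      unfold DD
      ring
    rw [h3]
    linarith
  have d := abs_sub_abs_le_abs_sub (∑ x ∈ P, DD w f x T T1) (∑ x ∈ P, DD w g x T T1)
  linarith

open Classical in
/-- deterministic part: sums over the boxes, averaged over the points -/
theorem good_avg {w : ℝ → ℝ} (hw : IsWt w) (hw0 : ∀ u, 0 ≤ w u) (hV1 : StV1) (P : Finset ℝ)
    {T T1 κ1 κ2 κ3 A D C0 E CR : ℝ} {y z S : ℕ} {lp lm : ℕ → ℝ} (hT3 : 3 ≤ T) (hT1 : 1 ≤ T1) (hκ3 : 0 < κ3)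
    (hsv : IsSv y D C0 E lp lm) (hP : ∀ x ∈ P, T ^ 2 ≤ x) (hL : 0 < Real.log T) (hz : (z : ℝ) ≤ T ^ (1 / 2 - κ1))
    (hRg : ∀ x ∈ P, ∀ (u : Fin 3 → Option ℕ) (v : Fin S → Option ℕ) (T' : ℝ), 1 ≤ T' → SW w (BF y z u v) x T' ≠ 0 →
      T ^ 2 / CR ≤ PS u v ∧ PS u v ≤ CR * T ^ 2)
    (hSh : ∀ (u : Fin 3 → Option ℕ) (v : Fin S → Option ℕ), (∀ i, ¬ Lg T κ2 (u i)) →
      (∀ r l, v r = some l → (2 : ℝ) ^ l ≤ 2 * T ^ (1 / 2 - κ1)) →
      T ^ 2 / CR ≤ PS u v → PS u v ≤ CR * T ^ 2 → Sh T (κ1 / 2) u v)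
    (hB : ∀ (u : Fin 3 → Option ℕ) (v : Fin S → Option ℕ), (∀ i, ¬ Lg T κ2 (u i)) → Sh T (κ1 / 2) u v →
      |∑ x ∈ P, DD w (BF y z u v) x T T1| ≤ P.card * (1 / Real.log T ^ A))
    (hA0 : ∀ (u : Fin 3 → Option ℕ) (v : Fin S → Option ℕ), (∃ i, Lg T κ2 (u i)) →
      |∑ x ∈ P, DD w (BFA y z T κ3 (fun _ => lp) u v) x T T1| ≤ P.card * (1 / Real.log T ^ A))
    (hA1 : ∀ (u : Fin 3 → Option ℕ) (v : Fin S → Option ℕ) (i : Fin 3), (∃ i, Lg T κ2 (u i)) →
      |∑ x ∈ P, DD w (BFA y z T κ3 (Function.update (fun _ => lp) i (fun d => lp d - lm d)) u v) x T T1| ≤ P.card * (1 / Real.log T ^ A)) :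
    ∑ u ∈ Bx 3 T, ∑ v ∈ Bx S T, cw v * |∑ x ∈ P, DD w (BF y z u v) x T T1| ≤
      P.card * ∑ _u ∈ Bx 3 T, ∑ _v ∈ Bx S T, (5 * 3 ^ S) * (4 / Real.log T ^ A) +
      2 * ∑ x ∈ P, ∑ u ∈ Bx 3 T, ∑ v ∈ Bx S T, cw v * ∑ i ∈ Finset.univ.filter (fun i => Lg T κ3 (u i)),
        T1 / x * SW w (BFA y z T κ3 (Function.update (fun _ => lp) i (fun d => lp d - lm d)) u v) x T1 := by
  have hx0 : ∀ x ∈ P, 0 < x := fun x hx => lt_of_lt_of_le (by positivity) (hP x hx)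
  have hLA : 0 < Real.log T ^ A := Real.rpow_pos_of_pos hL _
  have hswap : ∑ x ∈ P, ∑ u ∈ Bx 3 T, ∑ v ∈ Bx S T, cw v * ∑ i ∈ Finset.univ.filter (fun i => Lg T κ3 (u i)),
        T1 / x * SW w (BFA y z T κ3 (Function.update (fun _ => lp) i (fun d => lp d - lm d)) u v) x T1 =
      ∑ u ∈ Bx 3 T, ∑ v ∈ Bx S T, cw v * ∑ i ∈ Finset.univ.filter (fun i => Lg T κ3 (u i)),
        ∑ x ∈ P, T1 / x * SW w (BFA y z T κ3 (Function.update (fun _ => lp) i (fun d => lp d - lm d)) u v) x T1 := by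
    rw [Finset.sum_comm]
    apply Finset.sum_congr rfl
    intro u _
    rw [Finset.sum_comm]
    apply Finset.sum_congr rfl
    intro v _
    rw [← Finset.mul_sum, Finset.sum_comm]
  rw [hswap, Finset.mul_sum (Bx 3 T) _ (P.card : ℝ), Finset.mul_sum (Bx 3 T) _ (2 : ℝ), ← Finset.sum_add_distrib]
  refine Finset.sum_le_sum fun u hu => ?_
  rw [Finset.mul_sum (Bx S T) _ (P.card : ℝ), Finset.mul_sum (Bx S T) _ (2 : ℝ), ← Finset.sum_add_distrib]
  refine Finset.sum_le_sum fun v hv => ?_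
  have hcw := cw_nonneg v
  have hcw2 := cw_le v
  have hPc : (0 : ℝ) ≤ P.card := Nat.cast_nonneg _
  have hv1 := fun n => hV1 T κ3 D C0 E y z S lp lm u v n hT3 hκ3 hsv
  set e : Fin 3 → ℕ → ℝ := fun i => ⇑(BFA y z T κ3 (Function.update (fun _ => lp) i (fun d => lp d - lm d)) u v) with he
  have hsum0 : 0 ≤ ∑ i ∈ Finset.univ.filter (fun i => Lg T κ3 (u i)), ∑ x ∈ P, T1 / x * SW w (e i) x T1 := by
    refine Finset.sum_nonneg fun i _ => Finset.sum_nonneg fun x hx => mul_nonneg (by have := hx0 x hx; positivity)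
      (SW_nonneg hw0 _ fun n => ?_)
    exact (hv1 n).2 i
  have h14 : 0 ≤ 4 / Real.log T ^ A := by positivity
  have key : |∑ x ∈ P, DD w (BF y z u v) x T T1| ≤ P.card * (4 / Real.log T ^ A) +
      2 * ∑ i ∈ Finset.univ.filter (fun i => Lg T κ3 (u i)), ∑ x ∈ P, T1 / x * SW w (e i) x T1 := by
    by_cases hBc : ∀ i, ¬ Lg T κ2 (u i)
    · have h1 : |∑ x ∈ P, DD w (BF y z u v) x T T1| ≤ P.card * (1 / Real.log T ^ A) := by
        by_cases hsh : Sh T (κ1 / 2) u v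
        · exact hB u v hBc hsh
        · have h0 : ∀ x ∈ P, DD w (BF y z u v) x T T1 = 0 := by
            intro x hx
            have h00 : SW w (BF y z u v) x T = 0 ∧ SW w (BF y z u v) x T1 = 0 := by
              by_contra h0
              have hrel : T ^ 2 / CR ≤ PS u v ∧ PS u v ≤ CR * T ^ 2 := by
                by_cases h2 : SW w (BF y z u v) x T = 0
                · exact hRg x hx u v T1 hT1 fun h3 => h0 ⟨h2, h3⟩
                · exact hRg x hx u v T (by linarith) h2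
              have hpr : ∀ r l, v r = some l → (2 : ℝ) ^ l ≤ 2 * T ^ (1 / 2 - κ1) := by
                intro r l hr
                by_contra hcon
                rw [not_le] at hcon
                apply h0
                have hzero := BF_eq_zero (y := y) (z := z) u v hr (by linarith)
                rw [hzero, SW_zero, SW_zero]
                exact ⟨rfl, rfl⟩
              exact hsh (hSh u v hBc hpr hrel.1 hrel.2)
            unfold DD
            rw [h00.1, h00.2, mul_zero, mul_zero, sub_zero]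
          rw [Finset.sum_eq_zero h0, abs_zero]
          positivity
      have h5 : (P.card : ℝ) * (1 / Real.log T ^ A) ≤ P.card * (4 / Real.log T ^ A) := by gcongr; norm_num
      linarith
    · have hA : ∃ i, Lg T κ2 (u i) := by
        push Not at hBc; exact hBc
      have h0 := hA0 u v hA
      have h1 := fun i => hA1 u v i hA
      have h2 := dd_bound_avg hw hw0 P hx0 (show (1 : ℝ) ≤ T by linarith) hT1 (BF y z u v) (BFA y z T κ3 (fun _ => lp) u v)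
        (Finset.univ.filter (fun i => Lg T κ3 (u i))) e (fun n => (hv1 n).1)
      have h3 : ∑ i ∈ Finset.univ.filter (fun i => Lg T κ3 (u i)), (|∑ x ∈ P, DD w (e i) x T T1| + 2 * ∑ x ∈ P, T1 / x * SW w (e i) x T1) ≤
          3 * (P.card * (1 / Real.log T ^ A)) +
            2 * ∑ i ∈ Finset.univ.filter (fun i => Lg T κ3 (u i)), ∑ x ∈ P, T1 / x * SW w (e i) x T1 := by
        rw [Finset.sum_add_distrib, ← Finset.mul_sum]
        have : ∑ i ∈ Finset.univ.filter (fun i => Lg T κ3 (u i)), |∑ x ∈ P, DD w (e i) x T T1| ≤ 3 * (P.card * (1 / Real.log T ^ A)) := by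
          calc _ ≤ ∑ i ∈ Finset.univ.filter (fun i => Lg T κ3 (u i)), P.card * (1 / Real.log T ^ A) :=
                Finset.sum_le_sum fun i _ => h1 i
            _ ≤ ∑ i : Fin 3, P.card * (1 / Real.log T ^ A) :=
                Finset.sum_le_sum_of_subset_of_nonneg (Finset.filter_subset _ _) fun _ _ _ => by positivity
            _ = 3 * (P.card * (1 / Real.log T ^ A)) := by simp
        linarith
      have h4 : (P.card : ℝ) * (4 / Real.log T ^ A) = P.card * (1 / Real.log T ^ A) + 3 * (P.card * (1 / Real.log T ^ A)) := by ring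
      linarith
  calc cw v * |∑ x ∈ P, DD w (BF y z u v) x T T1|
      ≤ cw v * (P.card * (4 / Real.log T ^ A) +
      2 * ∑ i ∈ Finset.univ.filter (fun i => Lg T κ3 (u i)), ∑ x ∈ P, T1 / x * SW w (e i) x T1) := mul_le_mul_of_nonneg_left key hcw
    _ = P.card * (cw v * (4 / Real.log T ^ A)) +
      2 * (cw v * ∑ i ∈ Finset.univ.filter (fun i => Lg T κ3 (u i)), ∑ x ∈ P, T1 / x * SW w (e i) x T1) := by ring
    _ ≤ _ := by gcongr

theorem m_bound {x T m I δ : ℝ} (hT : 0 < T) (hx1 : T ^ 2 ≤ x) (hx2 : x ≤ 4 * T ^ 2) (hL : 12 ≤ Real.log T) (hδ : 0 < δ)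
    (h : |Real.log x * m - I| ≤ δ / 4) (hI : 0 ≤ I) (hIL : 8 * I / δ ≤ Real.log T) :
    |m - I / (2 * Real.log T)| ≤ δ / 4 / Real.log T := by
  set L : ℝ := Real.log T with hLd
  have hL0 : 0 < L := by linarith
  have hx : 0 < x := lt_of_lt_of_le (by positivity) hx1
  have h1 : 2 * L ≤ Real.log x := by
    have := Real.log_le_log (by positivity) hx1
    rw [Real.log_pow] at this
    push_cast at this
    exact this
  have h2 : Real.log x ≤ 2 * L + 2 := by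
    have h1 : Real.log x ≤ Real.log (4 * T ^ 2) := Real.log_le_log hx hx2
    have h2 : Real.log (4 * T ^ 2) = Real.log 4 + 2 * L := by
      rw [Real.log_mul (by norm_num) (by positivity), Real.log_pow]; push_cast; ring
    have h3 : Real.log 4 ≤ 2 := by
      have : Real.log 4 = 2 * Real.log 2 := by
        rw [show (4 : ℝ) = 2 ^ 2 by norm_num, Real.log_pow]; push_cast; ring
      have h5 := Real.log_two_lt_d9
      linarith
    linarith
  rw [div_le_iff₀ hδ] at hIL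
  have hab := abs_le.1 h
  have hm1 : m * (2 * L) ≤ I + δ / 4 := by
    rcases le_total 0 m with hm | hm
    · nlinarith [hab.2, mul_le_mul_of_nonneg_left h1 hm]
    · nlinarith [mul_nonneg_of_nonpos_of_nonpos hm (show -(2 * L) ≤ 0 by linarith)]
  have hm2 : -(δ / 4) ≤ m * (2 * L) := by
    rcases le_total 0 m with hm | hm
    · nlinarith [mul_nonneg hm hL0.le]
    · nlinarith [hab.1, mul_le_mul_of_nonpos_left h1 hm]
  set r : ℝ := Real.log x - 2 * L with hr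
  have hr0 : 0 ≤ r := by linarith
  have hr2 : r ≤ 2 := by linarith
  have hkey : |2 * L * m - I| ≤ δ / 2 := by
    have e1 : 2 * L * m - I = (Real.log x * m - I) - r * m := by rw [hr]; ring
    have e2 : |r * m| ≤ δ / 4 := by
      rw [abs_mul, abs_of_nonneg hr0]
      have e3 : |m| * (2 * L) ≤ I + δ / 4 := by
        rw [← abs_of_pos (show 0 < 2 * L by linarith), ← abs_mul]
        rw [abs_le]
        constructor <;> linarith
      have e4 : r * |m| ≤ 2 * |m| := mul_le_mul_of_nonneg_right hr2 (abs_nonneg _)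
      have e5 : 2 * |m| * L ≤ (δ / 4) * L := by nlinarith
      have e6 : 2 * |m| ≤ δ / 4 := le_of_mul_le_mul_right e5 hL0
      linarith
    rw [e1]
    refine (abs_sub _ _).trans ?_
    linarith
  have e7 : m - I / (2 * L) = (2 * L * m - I) / (2 * L) := by field_simp
  rw [e7, abs_div, abs_of_pos (show 0 < 2 * L by linarith), div_le_iff₀ (by linarith)]
  have : δ / 4 / L * (2 * L) = δ / 2 := by field_simp; ring
  rw [this]
  exact hkey

theorem Iw_nonneg {w : ℝ → ℝ} (hw0 : ∀ u, 0 ≤ w u) : 0 ≤ Iw w := by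
  unfold Iw
  apply setIntegral_nonneg measurableSet_Ioi
  intro u hu
  exact div_nonneg (hw0 u) (le_of_lt hu)

theorem fin_avg {w : ℝ → ℝ} (hw0 : ∀ u, 0 ≤ w u) (P : Finset ℝ) {T T1 δ C1 κ1 C3 η E CL CE : ℝ} {y z S : ℕ} {Q1 : ℝ} {Q2 : ℝ → ℝ}
    (hP1 : ∀ x ∈ P, T ^ 2 ≤ x) (hP2 : ∀ x ∈ P, x ≤ 4 * T ^ 2)
    (hT3 : 3 ≤ T) (f1 : 12 ≤ Real.log T) (hδ : 0 < δ) (f2 : 4 * (6 * CL + 6 * CE + 3) / δ ≤ Real.log T)
    (f3 : 8 * Iw w / δ ≤ Real.log T) (hCL : 0 ≤ CL) (hCE : 0 ≤ CE)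
    (hκ1δ : C1 * κ1 ≤ δ / 100) (hE10 : (C3 / η) ^ 10 * E ≤ δ / 100)
    (hli1 : ∀ x ∈ P, |T / x * SW w pr x T - ∑ u ∈ Bx 3 T, ∑ v ∈ Bx S T, cc u v * (T / x * SW w (BF y z u v) x T)| ≤
      C1 * κ1 / Real.log T + CL / Real.log T ^ 2)
    (hli2 : ∀ x ∈ P, |T1 / x * SW w pr x T1 - ∑ u ∈ Bx 3 T, ∑ v ∈ Bx S T, cc u v * (T1 / x * SW w (BF y z u v) x T1)| ≤
      C1 * κ1 / Real.log T + CL / Real.log T ^ 2)
    (hgp : ∑ u ∈ Bx 3 T, ∑ v ∈ Bx S T, cw v * |∑ x ∈ P, DD w (BF y z u v) x T T1| ≤ P.card * Q1 + 2 * ∑ x ∈ P, Q2 x)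
    (hbox : Q1 ≤ 1 / Real.log T ^ 2) (hse : ∀ x ∈ P, Q2 x ≤ (C3 / η) ^ 10 * E / Real.log T + CE / Real.log T ^ 2)
    (hpn : ∀ x ∈ P, |Real.log x * (T1 / x * SW w pr x T1) - Iw w| ≤ δ / 4) :
    |∑ x ∈ P, T / x * SW w pr x T - P.card * (Iw w / (2 * Real.log T))| ≤ P.card * (δ / Real.log T) := by
  have hLpos : 0 < Real.log T := by linarith
  have hPc : (0 : ℝ) ≤ P.card := Nat.cast_nonneg _
  have hT0 : 0 < T := by linarith
  set L : ℝ := Real.log T with hL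
  set a : ℝ := C1 * κ1 / L + CL / L ^ 2 with ha
  set b : ℝ := (C3 / η) ^ 10 * E / L + CE / L ^ 2 with hb
  have hsumli : ∀ (T' : ℝ), (∀ x ∈ P, |T' / x * SW w pr x T' - ∑ u ∈ Bx 3 T, ∑ v ∈ Bx S T, cc u v * (T' / x * SW w (BF y z u v) x T')| ≤ a) →
      |∑ x ∈ P, T' / x * SW w pr x T' - ∑ u ∈ Bx 3 T, ∑ v ∈ Bx S T, cc u v * ∑ x ∈ P, (T' / x * SW w (BF y z u v) x T')| ≤ P.card * a := by
    intro T' h
    have h1 : ∑ u ∈ Bx 3 T, ∑ v ∈ Bx S T, cc u v * ∑ x ∈ P, (T' / x * SW w (BF y z u v) x T') =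
        ∑ x ∈ P, ∑ u ∈ Bx 3 T, ∑ v ∈ Bx S T, cc u v * (T' / x * SW w (BF y z u v) x T') := by
      symm
      rw [Finset.sum_comm]
      apply Finset.sum_congr rfl
      intro u _
      rw [Finset.sum_comm]
      apply Finset.sum_congr rfl
      intro v _
      rw [Finset.mul_sum]
    rw [h1, ← Finset.sum_sub_distrib]
    refine (Finset.abs_sum_le_sum_abs _ _).trans ?_
    refine (Finset.sum_le_sum h).trans ?_
    rw [Finset.sum_const, nsmul_eq_mul]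
  have e1 := hsumli T hli1
  have e2 := hsumli T1 hli2
  have hsum : |∑ u ∈ Bx 3 T, ∑ v ∈ Bx S T, cc u v * ∑ x ∈ P, (T / x * SW w (BF y z u v) x T) -
      ∑ u ∈ Bx 3 T, ∑ v ∈ Bx S T, cc u v * ∑ x ∈ P, (T1 / x * SW w (BF y z u v) x T1)| ≤
      ∑ u ∈ Bx 3 T, ∑ v ∈ Bx S T, cw v * |∑ x ∈ P, DD w (BF y z u v) x T T1| := by
    rw [← Finset.sum_sub_distrib]
    refine (Finset.abs_sum_le_sum_abs _ _).trans (Finset.sum_le_sum fun u _ => ?_)
    rw [← Finset.sum_sub_distrib]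
    refine (Finset.abs_sum_le_sum_abs _ _).trans (Finset.sum_le_sum fun v _ => ?_)
    rw [← mul_sub, ← Finset.sum_sub_distrib, abs_mul]
    exact mul_le_mul_of_nonneg_right (cc_le_cw u v) (abs_nonneg _)
  have hq2 : ∑ x ∈ P, Q2 x ≤ P.card * b := by
    refine (Finset.sum_le_sum hse).trans ?_
    rw [Finset.sum_const, nsmul_eq_mul]
  have hq1 : (P.card : ℝ) * Q1 ≤ P.card * (1 / L ^ 2) := mul_le_mul_of_nonneg_left hbox hPc
  have hdiff : |∑ x ∈ P, T / x * SW w pr x T - ∑ x ∈ P, T1 / x * SW w pr x T1| ≤ P.card * (2 * a + 1 / L ^ 2 + 2 * b) := by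
    have e1 := abs_le.1 e1
    have e2 := abs_le.1 e2
    have e3 := abs_le.1 hsum
    rw [abs_le]
    constructor <;> linarith
  have hT1sum : |∑ x ∈ P, T1 / x * SW w pr x T1 - P.card * (Iw w / (2 * L))| ≤ P.card * (δ / 4 / L) := by
    have h1 : (P.card : ℝ) * (Iw w / (2 * L)) = ∑ x ∈ P, Iw w / (2 * L) := by
      rw [Finset.sum_const, nsmul_eq_mul]
    rw [h1, ← Finset.sum_sub_distrib]
    refine (Finset.abs_sum_le_sum_abs _ _).trans ?_
    refine (Finset.sum_le_sum fun x hx => m_bound hT0 (hP1 x hx) (hP2 x hx) f1 hδ (hpn x hx) (Iw_nonneg hw0) f3).trans ?_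
    rw [Finset.sum_const, nsmul_eq_mul]
  have hf2 : (6 * CL + 6 * CE + 3) / L ≤ δ / 4 := by
    rw [div_le_iff₀ hδ] at f2
    rw [div_le_iff₀ hLpos]
    linarith
  have habnd : 2 * a + 1 / L ^ 2 + 2 * b ≤ δ / 2 / L := by
    have h1 : 2 * a + 1 / L ^ 2 + 2 * b = (2 * (C1 * κ1) + 2 * ((C3 / η) ^ 10 * E) + (2 * CL + 2 * CE + 1) / L) / L := by
      rw [ha, hb]; field_simp; ring
    rw [h1]
    have h2 : (2 * CL + 2 * CE + 1) / L ≤ (6 * CL + 6 * CE + 3) / L :=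
      div_le_div_of_nonneg_right (by linarith) hLpos.le
    exact div_le_div_of_nonneg_right (by linarith) hLpos.le
  have hfin1 : (P.card : ℝ) * (2 * a + 1 / L ^ 2 + 2 * b) ≤ P.card * (δ / 2 / L) := mul_le_mul_of_nonneg_left habnd hPc
  have htot : (P.card : ℝ) * (δ / 2 / L) + P.card * (δ / 4 / L) ≤ P.card * (δ / L) := by
    rw [← mul_add]
    apply mul_le_mul_of_nonneg_left _ hPc
    rw [← add_div]
    gcongr
    linarith
  have e4 := abs_le.1 hdiff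
  have e5 := abs_le.1 hT1sum
  rw [abs_le]
  constructor <;> linarith

open Classical in
theorem iMnW (hBB : StBBW) (hAA : StAAW) (hSh : StSh) (hRg : StRg) (hV1 : StV1) (hSv : StSv) (hSE : StSE) (hLi : StLi)
    (hPN : StPN) : StMnW := by
  intro w hw hw0 δ hδ
  obtain ⟨C1, hC1, hLi⟩ := hLi w hw hw0
  obtain ⟨κ1, hκ1, hκ1', hκ1δ⟩ : ∃ κ1 : ℝ, 0 < κ1 ∧ κ1 ≤ 1 / 20 ∧ C1 * κ1 ≤ δ / 100 := by
    refine ⟨min (1 / 20) (δ / (100 * C1)), by positivity, min_le_left _ _, ?_⟩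
    have := min_le_right (1 / 20) (δ / (100 * C1))
    have hC1' : 0 < C1 := by linarith
    calc C1 * min (1 / 20) (δ / (100 * C1)) ≤ C1 * (δ / (100 * C1)) := by gcongr
      _ = δ / 100 := by field_simp
  obtain ⟨κ2, hκ2, hκ2', hBB⟩ := hBB (κ1 / 2) (by positivity) (by linarith)
  obtain ⟨κ3, κ', hκ3, hκ3', hκ', hκ'', hAA⟩ := hAA κ2 hκ2 (by linarith)
  obtain ⟨C0, hC0, hSv⟩ := hSv
  obtain ⟨C3, hC3, hSE⟩ := hSE w hw hw0 C0 hC0
  obtain ⟨s, hs1, hs0, hsE⟩ := exists_s (C0 := C0) hκ' hC3 (show 0 < δ / 100 by positivity)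
  set η : ℝ := κ' / s with hη
  have hs : 0 < s := by linarith
  have hη0 : 0 < η := by positivity
  have hηκ : η ≤ κ' := by rw [hη, div_le_iff₀ hs]; nlinarith
  have hη20 : η ≤ 1 / 20 := by linarith
  set S : ℕ := SS η with hS
  set A : ℝ := ((4 * (S + 4) : ℕ) : ℝ) with hA
  have hA0 : 0 < A := by rw [hA]; positivity
  obtain ⟨B1, hB1, hBB⟩ := hBB w hw η κ1 A hη0 hη20 hκ1 hκ1' hA0
  obtain ⟨B2, hB2, hAA⟩ := hAA w hw η κ1 A hη0 hηκ hκ1 hκ1' hA0
  set B : ℝ := max B1 B2 with hB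
  have hB1' : 1 ≤ B := hB1.trans (le_max_left _ _)
  obtain ⟨CB, hCB, hBB⟩ := hBB B (le_max_left _ _)
  obtain ⟨CA, hCA, hAA⟩ := hAA B (le_max_right _ _)
  obtain ⟨CR, hCR, hRg⟩ := hRg w hw S
  obtain ⟨CS, hCS, hSh⟩ := hSh κ1 κ2 hκ1 hκ1' hκ2 (by linarith)
  set E : ℝ := Real.exp (-s) with hE
  have hE0 : 0 < E := Real.exp_pos _
  obtain ⟨CE, hCE, hSE⟩ := hSE η κ1 κ3 κ' E B hη0 hη20 hκ1 hκ1' hκ3 (by linarith) hκ' (by linarith) hE0 hB1'
  obtain ⟨CL, hCL, hLi⟩ := hLi η κ1 hη0 hη20 hκ1 hκ1'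
  obtain ⟨CP, hCP, hPN⟩ := hPN w hw hw0 B (δ / 4) hB1' (by positivity)
  -- large T
  have hlog : Tendsto (fun T : ℝ => Real.log T) atTop atTop := Real.tendsto_log_atTop
  have ev1 : ∀ᶠ T : ℝ in atTop, 12 ≤ Real.log T := hlog.eventually_ge_atTop 12
  have ev2 : ∀ᶠ T : ℝ in atTop, 4 * (6 * CL + 6 * CE + 3) / δ ≤ Real.log T := hlog.eventually_ge_atTop _
  have ev3 : ∀ᶠ T : ℝ in atTop, Real.log T ^ B ≤ T := by
    have := (isLittleO_log_rpow_rpow_atTop B (zero_lt_one)).bound (zero_lt_one)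
    filter_upwards [this, eventually_ge_atTop 3] with T h h3
    have hl : 0 ≤ Real.log T := Real.log_nonneg (by linarith)
    rw [Real.rpow_one, one_mul, Real.norm_eq_abs, Real.norm_eq_abs, abs_of_nonneg (by positivity), abs_of_nonneg (by linarith)] at h
    exact h
  have ev4 : ∀ᶠ T : ℝ in atTop, 8 * Iw w / δ ≤ Real.log T := hlog.eventually_ge_atTop _
  have ev5 : ∀ᶠ T : ℝ in atTop, CR ≤ T ^ (κ1 / 100) := (tendsto_rpow_atTop (by positivity)).eventually_ge_atTop CR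
  have ev6 : ∀ᶠ T : ℝ in atTop, CR ≤ T ^ (1 / 100 : ℝ) := (tendsto_rpow_atTop (by positivity)).eventually_ge_atTop CR
  have ev7 : ∀ᶠ T : ℝ in atTop, 2 ≤ T ^ η := (tendsto_rpow_atTop hη0).eventually_ge_atTop 2
  obtain ⟨T0, hT0⟩ := (ev1.and (ev2.and (ev3.and (ev4.and (ev5.and (ev6.and ev7)))))).exists_forall_of_atTop
  refine ⟨max (max (max T0 3) (max CB CA)) (max (max (max CS CE) (max CL CP)) ((10 : ℝ) ^ 8)), ?_, ?_⟩
  · exact le_trans (by norm_num) (((le_max_right T0 3).trans (le_max_left _ _)).trans (le_max_left _ _))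
  intro n H T hTn hT hH1 hH2
  simp only [max_le_iff] at hT
  obtain ⟨⟨⟨hTT0, hT3⟩, hTCB, hTCA⟩, ⟨⟨hTCS, hTCE⟩, hTCL, hTCP⟩, hT8⟩ := hT
  obtain ⟨f1, f2, f3, f4, f5, f6, f7⟩ := hT0 T hTT0
  have hTpos : 0 < T := by linarith
  have hLpos : 0 < Real.log T := by linarith
  have hn1 : 1 ≤ n := by
    have : (1 : ℝ) ≤ n := by rw [← hTn]; linarith
    exact_mod_cast this
  have hHn : H ≤ n := by
    have h1 : 4 ≤ T ^ (17 / 20 : ℝ) := by
      calc (4 : ℝ) ≤ ((10 : ℝ) ^ 8) ^ (1 / 8 : ℝ) := by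
            rw [← Real.rpow_natCast, ← Real.rpow_mul (by norm_num)]; norm_num
        _ ≤ ((10 : ℝ) ^ 8) ^ (17 / 20 : ℝ) := Real.rpow_le_rpow_of_exponent_le (by norm_num) (by norm_num)
        _ ≤ T ^ (17 / 20 : ℝ) := Real.rpow_le_rpow (by norm_num) hT8 (by norm_num)
    have h2 : (H : ℝ) ≤ n := by
      rw [← hTn]
      calc (H : ℝ) ≤ 4 * T ^ (3 / 20 : ℝ) := hH2
        _ ≤ T ^ (17 / 20 : ℝ) * T ^ (3 / 20 : ℝ) := by gcongr
        _ = T := by rw [← Real.rpow_add hTpos]; norm_num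
    exact_mod_cast h2
  set T1 : ℝ := Real.log T ^ B with hT1
  have hT1' : 1 ≤ T1 := Real.one_le_rpow (by linarith) (by linarith)
  set y : ℕ := zz η T with hy
  set z : ℕ := zz (1 / 2 - κ1) T with hz
  have hy2 : 2 ≤ y := by
    rw [hy]; unfold zz
    exact Nat.le_floor (by exact_mod_cast f7)
  obtain ⟨lp, lm, hsv⟩ := hSv s y hs0 hy2
  have hD : (y : ℝ) ^ s ≤ T ^ κ' := by
    have h1 : (y : ℝ) ≤ T ^ η := by
      rw [hy]; unfold zz
      exact Nat.floor_le (by positivity)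
    calc (y : ℝ) ^ s ≤ (T ^ η) ^ s := Real.rpow_le_rpow (by positivity) h1 (by linarith)
      _ = T ^ κ' := by rw [← Real.rpow_mul hTpos.le, hη]; congr 1; field_simp
  have hzT : (z : ℝ) ≤ T ^ (1 / 2 - κ1) := by
    rw [hz]; unfold zz
    exact Nat.floor_le (by positivity)
  -- the points
  set P : Finset ℝ := Pt n H with hP
  have hPcard : (P.card : ℝ) = H := by rw [hP, card_Pt]
  have hP12 : ∀ x ∈ P, T ^ 2 ≤ x ∧ x ≤ 4 * T ^ 2 := by
    intro x hx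
    obtain ⟨k, hk1, hk2, rfl⟩ := mem_Pt hx
    rw [hTn]
    have h1 : (n : ℝ) ≤ k := by exact_mod_cast hk1.le
    have h2 : (k : ℝ) ≤ 2 * n := by
      have : k ≤ 2 * n := by omega
      exact_mod_cast this
    have h3 : (0 : ℝ) ≤ n := Nat.cast_nonneg n
    constructor <;> nlinarith
  have hP1 : ∀ x ∈ P, T ^ 2 ≤ x := fun x hx => (hP12 x hx).1
  have hP2 : ∀ x ∈ P, x ≤ 4 * T ^ 2 := fun x hx => (hP12 x hx).2
  have hlp1 : ∀ d, |lp d| ≤ 2 := fun d => (hsv.bdp d).trans (by norm_num)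
  have hdif : ∀ d, |lp d - lm d| ≤ 2 := fun d => by
    calc |lp d - lm d| ≤ |lp d| + |lm d| := abs_sub _ _
      _ ≤ 1 + 1 := add_le_add (hsv.bdp d) (hsv.bdm d)
      _ = 2 := by norm_num
  have hsp : ∀ d, lp d ≠ 0 → 1 ≤ d ∧ (d : ℝ) ≤ T ^ κ' := fun d hd => ⟨(hsv.supp d hd).1, (hsv.supp d hd).2.trans hD⟩
  have hsd : ∀ d, lp d - lm d ≠ 0 → 1 ≤ d ∧ (d : ℝ) ≤ T ^ κ' := by
    intro d hd
    by_cases h0 : lp d = 0
    · have : lm d ≠ 0 := by
        intro h1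
        apply hd
        simp [h0, h1]
      exact ⟨(hsv.supm d this).1, (hsv.supm d this).2.trans hD⟩
    · exact hsp d h0
  have hgp := good_avg hw hw0 hV1 P (CR := CR) (κ1 := κ1) (κ2 := κ2) (A := A) hT3 hT1' hκ3 hsv hP1 hLpos hzT
    (fun x hx u v T' hT' h => hRg T κ3 x T' y z (fun _ => lp) u v (by linarith) hT' (hP1 x hx) (hP2 x hx) (Or.inl h))
    (fun u v h1 h2 h3 h4 => by
      refine hSh T S u v hTCS h1 h2 ?_ ?_
      · refine le_trans ?_ h3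
        have hCR0 : 0 < CR := by linarith
        rw [le_div_iff₀ hCR0]
        calc T ^ (2 - κ1 / 100) * CR ≤ T ^ (2 - κ1 / 100) * T ^ (κ1 / 100) := by gcongr
          _ = T ^ 2 := by
            rw [← Real.rpow_add hTpos, ← Real.rpow_natCast]; congr 1; push_cast; ring
      · refine h4.trans ?_
        calc CR * T ^ 2 ≤ T ^ (1 / 100 : ℝ) * T ^ 2 := by gcongr
          _ = T ^ (2 + 1 / 100 : ℝ) := by
            rw [← Real.rpow_natCast, ← Real.rpow_add hTpos]; congr 1; push_cast; ring)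
    (fun u v h1 h2 => by
      rw [hPcard]
      exact hBB n H T u v hTn hTCB hH1 hH2 h1 h2)
    (fun u v h1 => by
      rw [hPcard]
      exact hAA n H T u v _ hTn hTCA hH1 hH2 h1 (fun _ => hlp1) (fun _ => hsp))
    (fun u v i h1 => by
      rw [hPcard]
      refine hAA n H T u v _ hTn hTCA hH1 hH2 h1 ?_ ?_
      · intro i' d
        by_cases hi : i' = i
        · subst hi; simpa using hdif d
        · simpa [Function.update_of_ne hi] using hlp1 d
      · intro i' d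
        by_cases hi : i' = i
        · subst hi; simpa using hsd d
        · simpa [Function.update_of_ne hi] using hsp d)
  have hbox := num_box (S := S) (A := A) hA f1
  have hfin := fin_avg (w := w) hw0 P (T := T) (T1 := T1) (δ := δ) (C1 := C1) (κ1 := κ1) (C3 := C3) (η := η) (E := E) (CL := CL) (CE := CE)
    (y := y) (z := z) (S := S) hP1 hP2 hT3 f1 hδ f2 f4 (by linarith) (by linarith) hκ1δ hsE
    (fun x hx => hLi T T x hTCL (by linarith) le_rfl (hP1 x hx) (hP2 x hx))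
    (fun x hx => hLi T T1 x hTCL hT1' f3 (hP1 x hx) (hP2 x hx))
    hgp hbox (fun x hx => hSE T x lp lm hTCE (hP1 x hx) (hP2 x hx) (isSv_mono hsv hD))
    (fun x hx => hPN T x hTCP (hP1 x hx) (hP2 x hx))
  rw [hPcard] at hfin
  exact hfin

end Pool.Agent.Work.MP_a8fbd7_nt.OX.CW
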