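import Pool.Agent.Work.MP_a8fbd7_nt.OX.CW.BBW
import Pool.Agent.Work.MP_a8fbd7_nt.OX.CW.AAW
import Pool.Agent.Work.MP_a8fbd7_nt.OX.CW.Mn
import Pool.Agent.Work.MP_a8fbd7_nt.OX.CW.Co
import Pool.Agent.Work.MP_a8fbd7_nt.OX.Uc
import Pool.Agent.Work.MP_a8fbd7_nt.OX.LV.I_Pr
import Pool.Agent.Work.MP_a8fbd7_nt.OX.LV.I_Pf
import Pool.Agent.Work.MP_a8fbd7_nt.OX.LV.I_Dy
import Pool.Agent.Work.MP_a8fbd7_nt.OX.LV.I_Mv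
import Pool.Agent.Work.MP_a8fbd7_nt.OX.LV.I_Hx
import Pool.Agent.Work.MP_a8fbd7_nt.OX.LV.I_G0
import Pool.Agent.Work.MP_a8fbd7_nt.OX.LV.I_G
import Pool.Agent.Work.MP_a8fbd7_nt.OX.CELL.I_NB
import Pool.Agent.Work.MP_a8fbd7_nt.OX.CELL.I_Nz
import Pool.Agent.Work.MP_a8fbd7_nt.OX.CELL.I_Pw
import Pool.Agent.Work.MP_a8fbd7_nt.OX.ASM.I_Dr
import Pool.Agent.Work.MP_a8fbd7_nt.OX.ASM.I_Ex
import Pool.Agent.Work.MP_a8fbd7_nt.OX.ASM.I_F1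
import Pool.Agent.Work.MP_a8fbd7_nt.OX.ASM.I_F2
import Pool.Agent.Work.MP_a8fbd7_nt.OX.ASM.I_F4
import Pool.Agent.Work.MP_a8fbd7_nt.OX.ASM.I_In
import Pool.Agent.Work.MP_a8fbd7_nt.OX.ASM.I_Li
import Pool.Agent.Work.MP_a8fbd7_nt.OX.ASM.I_Ma
import Pool.Agent.Work.MP_a8fbd7_nt.OX.ASM.I_PN
import Pool.Agent.Work.MP_a8fbd7_nt.OX.ASM.I_Pd
import Pool.Agent.Work.MP_a8fbd7_nt.OX.ASM.I_Re
import Pool.Agent.Work.MP_a8fbd7_nt.OX.ASM.I_Rg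
import Pool.Agent.Work.MP_a8fbd7_nt.OX.ASM.I_Rp
import Pool.Agent.Work.MP_a8fbd7_nt.OX.ASM.I_SE
import Pool.Agent.Work.MP_a8fbd7_nt.OX.ASM.I_Sa
import Pool.Agent.Work.MP_a8fbd7_nt.OX.ASM.I_Sh
import Pool.Agent.Work.MP_a8fbd7_nt.OX.ASM.I_Sq
import Pool.Agent.Work.MP_a8fbd7_nt.OX.ASM.I_Sv
import Pool.Agent.Work.MP_a8fbd7_nt.OX.ASM.I_Tb
import Pool.Agent.Work.MP_a8fbd7_nt.OX.ASM.I_V1
import Pool.Agent.Work.MP_a8fbd7_nt.OX.ASM.I_Wt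
import Pool.Agent.Work.MP_a8fbd7_nt.ZF.All

/-!
MP_a8fbd7_nt, block OX, part CW: the asymptotic formulas for the two halves of Oppermann's intervals on average over windows
`N < n ≤ N + H`, `H ≥ N^(3/20)`: everything together.
Author: helper86.
-/

set_option autoImplicit false

namespace Pool.Agent.Work.MP_a8fbd7_nt.OX.CW

open Pool.Agent.Work.MP_a8fbd7_nt.OX
open Pool.Agent.Work.MP_a8fbd7_nt.OX.ASM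
open Pool.Agent.Work.MP_a8fbd7_nt.OX.FIN (cA cB)

theorem w_Pr : StPr := iPr
theorem w_Pf : StPf := iPf w_Pr
theorem w_Dy : StDy := iDy
theorem w_Mv : OX.StMv := OX.iMv Uc.u_Mv
theorem w_Hx : OX.StHx := OX.iHx Uc.u_Hx w_Dy
theorem w_G0 : StG0 := iG0 Uc.u_GM Uc.u_Up
theorem w_G : StG := iG w_G0 w_Dy
theorem w_NB : CELL.StNB := CELL.iNB (CELL.iNz ZF.all_HM) CELL.iPw

theorem w_Pd : StPd := iPd
theorem w_Rg : ASM.StRg := ASM.iRg w_Pd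
theorem w_F1 : StF1 := iF1 Uc.u_Mel
theorem w_F4 : StF4 := iF4 w_F1 iF2 Uc.u_Mel
theorem w_Sa : StSa := iSa ZF.all_RoW ZF.all_PrI
theorem w_Rp : StRp := iRp (iRe Uc.u_Rf Uc.u_Bc)
theorem w_SE : StSE := iSE iMa iIn w_Pd w_Rg
theorem w_Li : StLi := iLi iEx iDr iSq
theorem w_PN : StPN := iPN ZF.all_Pnt

theorem w_CB : StCellBW := iCellBW w_Mv w_Hx w_G w_Pf w_NB
theorem w_CA : StCellAW := iCellAW w_Mv w_Hx w_G w_Pf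
theorem w_BB : StBBW := iBBW w_CB w_F4 w_Pd w_Rg w_Sa
theorem w_AA : StAAW := iAAW w_CA w_F4 w_Pd w_Rg w_Rp iTb Uc.u_Kp
theorem w_Mn : StMnW := iMnW w_BB w_AA iSh w_Rg iV1 iSv w_SE w_Li w_PN

/-- **the theorem** -/
theorem main (δ : ℝ) (hδ : 0 < δ) : ∃ N0 : ℕ, ∀ N H : ℕ, N0 ≤ N → (N : ℝ) ^ (3 / 20 : ℝ) ≤ H → H ≤ N →
    |∑ n ∈ Finset.Ioc N (N + H), (cA n - gn n)| ≤ δ * ∑ n ∈ Finset.Ioc N (N + H), gn n ∧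
    |∑ n ∈ Finset.Ioc N (N + H), (cB n - gn n)| ≤ δ * ∑ n ∈ Finset.Ioc N (N + H), gn n :=
  all_windows w_Mn iWt δ hδ

end Pool.Agent.Work.MP_a8fbd7_nt.OX.CW
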