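import Pool.Agent.Work.MP_a8fbd7_nt.OX.CW.Co
import Pool.Agent.Work.MP_a8fbd7_nt.OX.CW.BTcore

/-!
MP_a8fbd7_nt, block OX, part CW: a Brun-Titchmarsh type bound for the numbers of primes in the two halves.
Author: helper82.
-/

set_option autoImplicit false

noncomputable section

namespace Pool.Agent.Work.MP_a8fbd7_nt.OX.CW

open Pool.Agent.Work.MP_a8fbd7_nt.OX.FIN (cA cB)

/-- **Brun-Titchmarsh** type bound, with the constant `48` -/
theorem bt : ∃ C : ℝ, 1 ≤ C ∧ ∀ n : ℕ, 2 ≤ n → cA n ≤ C * gn n ∧ cB n ≤ C * gn n :=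
  ⟨48, by norm_num, fun _ hn => ⟨BTaux.bA hn, BTaux.bB hn⟩⟩

end Pool.Agent.Work.MP_a8fbd7_nt.OX.CW
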