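import Mathlib
import Pool.Agent.Work.MP_a8fbd7_nt.OX.CW.Co

/-!
MP_a8fbd7_nt, block OX, part CW: a positive proportion of the `n` in every window.
Author: helper86.
-/

set_option autoImplicit false

open MeasureTheory Set Filter Topology

noncomputable section

namespace Pool.Agent.Work.MP_a8fbd7_nt.OX.CW

/-- from the mean value and an upper bound to a positive proportion -/
theorem proportion (f : ℕ → ℝ) (C : ℝ) (hC : 1 ≤ C) (hf : ∀ n : ℕ, 2 ≤ n → f n ≤ C * gn n)
    (N H : ℕ) (hN : 3 ≤ N) (hH : H ≤ N)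
    (h : |∑ n ∈ Finset.Ioc N (N + H), (f n - gn n)| ≤ 1 / 4 * ∑ n ∈ Finset.Ioc N (N + H), gn n) :
    (1 / (8 * C)) * H ≤ (((Finset.Ioc N (N + H)).filter (fun n => 1 / 2 * gn n ≤ f n)).card : ℝ) := by
  have hN3 : (3 : ℝ) ≤ N := by exact_mod_cast hN
  have hN0 : (0 : ℝ) < N := by linarith
  have hl1 : 0 < Real.log N := Real.log_pos (by linarith)
  have hHN : (H : ℝ) ≤ N := by exact_mod_cast hH
  set g0 : ℝ := (N : ℝ) / (2 * Real.log N) with hg0
  have hg0p : 0 < g0 := by positivity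
  have hb : ∀ n ∈ Finset.Ioc N (N + H), g0 ≤ gn n ∧ gn n ≤ 2 * g0 := by
    intro n hn
    obtain ⟨h1, h2⟩ := gn_bounds hN n hn
    refine ⟨h1, h2.trans ?_⟩
    rw [hg0, mul_div_assoc', div_le_div_iff_of_pos_right (by positivity)]
    linarith
  set I := Finset.Ioc N (N + H) with hI
  have hcard : (I.card : ℝ) = H := by rw [hI, Nat.card_Ioc]; simp
  set F := I.filter (fun n => 1 / 2 * gn n ≤ f n) with hF
  have hsplit : ∑ n ∈ I, f n = ∑ n ∈ F, f n + ∑ n ∈ I.filter (fun n => ¬ 1 / 2 * gn n ≤ f n), f n := by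
    rw [hF, Finset.sum_filter_add_sum_filter_not]
  have h1 : ∑ n ∈ F, f n ≤ F.card * (C * (2 * g0)) := by
    rw [← nsmul_eq_mul]
    apply Finset.sum_le_card_nsmul
    intro n hn
    rw [hF, Finset.mem_filter] at hn
    have h2 : 2 ≤ n := by
      have := (Finset.mem_Ioc.mp hn.1).1
      omega
    refine (hf n h2).trans ?_
    have := (hb n hn.1).2
    gcongr
  have h2 : ∑ n ∈ I.filter (fun n => ¬ 1 / 2 * gn n ≤ f n), f n ≤ 1 / 2 * ∑ n ∈ I, gn n := by
    rw [Finset.mul_sum]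
    calc ∑ n ∈ I.filter (fun n => ¬ 1 / 2 * gn n ≤ f n), f n ≤ ∑ n ∈ I.filter (fun n => ¬ 1 / 2 * gn n ≤ f n), 1 / 2 * gn n := by
          apply Finset.sum_le_sum
          intro n hn
          rw [Finset.mem_filter] at hn
          exact (not_le.mp hn.2).le
      _ ≤ ∑ n ∈ I, 1 / 2 * gn n := by
          apply Finset.sum_le_sum_of_subset_of_nonneg (Finset.filter_subset _ _)
          intro n hn _
          have := (hb n hn).1
          linarith
  have h3 : (H : ℝ) * g0 ≤ ∑ n ∈ I, gn n := by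
    rw [← hcard, ← nsmul_eq_mul]
    exact Finset.card_nsmul_le_sum _ _ _ fun n hn => (hb n hn).1
  rw [Finset.sum_sub_distrib] at h
  have h4 := (abs_le.1 h).1
  have h5 : 1 / 4 * ((H : ℝ) * g0) ≤ F.card * (C * (2 * g0)) := by linarith
  have h6 : (1 / 4 * (H : ℝ)) * g0 ≤ (F.card * (C * 2)) * g0 := by linarith
  have h7 := le_of_mul_le_mul_right h6 hg0p
  rw [one_div_mul_eq_div, div_le_iff₀ (by positivity)]
  linarith

end Pool.Agent.Work.MP_a8fbd7_nt.OX.CW
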